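import Pool.Agent.H960.FV.Bas

/-!
Project FV: outputs are values of coupling from the past (helper268).
-/

set_option autoImplicit false

namespace Pool.Agent.H268.FV

open H960FV

theorem cftp : S_cftp := by
  intro d Sg St G ρ hG B A v j a h
  induction h with
  | good v j s h hb =>
    refine ⟨1, fun k hk s0 => ?_⟩
    obtain ⟨k, rfl⟩ : ∃ k', k = k' + 1 := ⟨k - 1, by omega⟩
    have hb' : ∀ s s', G (fun x => B (v + x, j)) s = G (fun x => B (v + x, j)) s' := by
      intro s s'
      by_contra hne
      exact hb ⟨s, s', hne⟩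
    exact hb' _ _
  | bad v j s h hs ih =>
    choose! K hK using ih
    refine ⟨(bx d ρ).sup K + 1, fun k hk s0 => ?_⟩
    obtain ⟨k, rfl⟩ : ∃ k', k = k' + 1 := ⟨k - 1, by omega⟩
    refine hG _ _ _ _ (fun _ _ => rfl) fun x hx => ?_
    have h1 : K x ≤ (bx d ρ).sup K := Finset.le_sup hx
    exact hK x hx k (by omega) s0

end Pool.Agent.H268.FV
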