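import Pool.Agent.H960.FV.Bas

/-!
Outputs persist.
-/

namespace Pool.Agent.H279.FV

open H960FV

theorem cons (h : S_step) : S_cons := by
  intro d _ Sg St G ρ hG ω t v a hD
  obtain ⟨-, h2, h3, -⟩ := h d Sg St G ρ hG ω t
  have hfull : ∀ v j, Full ρ (rat G ρ ω t) v j → Full ρ (rat G ρ ω (t + 1)) v j :=
    fun v j hf y hy => (h2 _ (hf y hy)).1
  have hval : ∀ v j s, Full ρ (rat G ρ ω t) v j →
      G (fun x => Psi G ρ ω (t + 1) (Sum.inl (v + x, j))) s =
        G (fun x => Psi G ρ ω t (Sum.inl (v + x, j))) s :=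
    fun v j s hf => hG _ _ _ _ (fun x hx => (h2 _ (hf x hx)).2) (fun _ _ => rfl)
  have key : ∀ v j a,
      Out G ρ (fun b => Psi G ρ ω t (Sum.inl b)) (rat G ρ ω t) v j a →
      Out G ρ (fun b => Psi G ρ ω (t + 1) (Sum.inl b)) (rat G ρ ω (t + 1)) v j a := by
    intro v j a hO
    induction hO with
    | good v j s hf hb =>
      have e := hval v j s hf
      have g := Out.good (G := G) (ρ := ρ) (B := fun b => Psi G ρ ω (t + 1) (Sum.inl b))
        (A := rat G ρ ω (t + 1)) v j s (hfull v j hf) (fun hb' => hb ((h3 v j hf).1 hb'))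
      exact e ▸ g
    | bad v j s hf hs ih =>
      have e := hval v j s hf
      have g := Out.bad (G := G) (ρ := ρ) (B := fun b => Psi G ρ ω (t + 1) (Sum.inl b))
        (A := rat G ρ ω (t + 1)) v j s (hfull v j hf) ih
      exact e ▸ g
  exact key v 0 a hD

end Pool.Agent.H279.FV
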