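import Pool.Agent.H960.FV.Bas

/-!
Project FV (helper960), task DLOC (helper345): the output is a local function.
-/

set_option autoImplicit false

open MeasureTheory Filter Topology

namespace Pool.Agent.H345.FV

open H960FV

/-- the output looks only at the served noise near the site -/
theorem out_mono {d : ℕ} {Sg St : Type} {G : (Z d → Sg) → (Z d → St) → St} {ρ : ℕ}
    (hG : IsLoc ρ G) {B B' : Z d × ℕ → Sg} {A A' : Set (Z d × ℕ)} {t : ℕ} {v : Z d}
    (hA : ∀ x j, (x, j) ∈ A → j ≤ t)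
    (hloc : ∀ x, x - v ∈ bx d (ρ * (t + 1)) → ∀ j, (x, j) ∈ A → (x, j) ∈ A' ∧
      B (x, j) = B' (x, j))
    {u : Z d} {j : ℕ} {a : St} (h : Out G ρ B A u j a) :
    u - v ∈ bx d (ρ * j) → Out G ρ B' A' u j a := by
  have key : ∀ u j, u - v ∈ bx d (ρ * j) → Full ρ A u j →
      Full ρ A' u j ∧ ∀ y ∈ bx d ρ, B (u + y, j) = B' (u + y, j) := by
    intro u j hu hF
    have hj : j ≤ t := by
      have := hF 0 zero_mem_bx
      rw [add_zero] at this
      exact hA _ _ this
    have h1 : ∀ y ∈ bx d ρ, u + y - v ∈ bx d (ρ * (t + 1)) := by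
      intro y hy
      have e : u + y - v = (u - v) + y := by abel
      rw [e]
      refine bx_mono ?_ (bx_add hu hy)
      have : ρ * j ≤ ρ * t := Nat.mul_le_mul_left _ hj
      rw [mul_add, mul_one]
      omega
    exact ⟨fun y hy => (hloc _ (h1 y hy) j (hF y hy)).1,
      fun y hy => (hloc _ (h1 y hy) j (hF y hy)).2⟩
  induction h with
  | good u j s h hb =>
    intro hu
    obtain ⟨h1, h2⟩ := key u j hu h
    have e : G (fun x => B (u + x, j)) s = G (fun x => B' (u + x, j)) s :=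
      hG _ _ _ _ h2 (fun _ _ => rfl)
    rw [e]
    exact Out.good u j s h1 (fun hb' => hb ((bf_congr hG h2).2 hb'))
  | bad u j s h hs ih =>
    intro hu
    obtain ⟨h1, h2⟩ := key u j hu h
    have e : G (fun x => B (u + x, j)) s = G (fun x => B' (u + x, j)) s :=
      hG _ _ _ _ h2 (fun _ _ => rfl)
    rw [e]
    refine Out.bad u j s h1 fun y hy => ih y hy ?_
    have e : u + y - v = (u - v) + y := by abel
    rw [e, mul_add, mul_one]
    exact bx_add hu hy

theorem dloc (h1 : S_speed) (h2 : S_basic) : S_dloc := by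
  intro d _ Sg St G ρ hG
  have main : ∀ (ω ω' : Ix d → Sg) (t : ℕ) (v : Z d) (a : St),
      (∀ y, y - v ∈ bx d ((4 * ρ + 1) * (t + 1)) →
        ω (Sum.inl (y, 0)) = ω' (Sum.inl (y, 0)) ∧ ω (Sum.inr y) = ω' (Sum.inr y)) →
      Dt G ρ ω t v a → Dt G ρ ω' t v a := by
    intro ω ω' t v a hω h
    unfold Dt at h ⊢
    refine out_mono hG (t := t) (v := v) ?_ ?_ h ?_
    · intro x j hx
      exact (h2 d ρ (bt G ρ ω t)).1 t x j hx
    · intro x hx j hj
      have h3 := h1 d Sg St G ρ hG ω ω' t x (by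
        intro y hy
        refine hω y (bx_mono ?_ (bx_trans hy hx))
        have e : (3 * ρ + 1) * t + ρ * (t + 1) ≤ (3 * ρ + 1) * (t + 1) + ρ * (t + 1) :=
          Nat.add_le_add_right (Nat.mul_le_mul_left _ (Nat.le_succ t)) _
        refine e.trans (le_of_eq ?_)
        ring) j
      exact ⟨h3.1.1 hj, h3.2 hj⟩
    · rw [sub_self]
      exact zero_mem_bx
  intro ω ω' t v a hω
  exact ⟨main ω ω' t v a hω,
    main ω' ω t v a fun y hy => ⟨(hω y hy).1.symm, (hω y hy).2.symm⟩⟩

end Pool.Agent.H345.FV
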