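import Pool.Agent.H960.FV.Bas

/-!
Project FV: the involution is local in the noise.
-/

open MeasureTheory Filter Topology

namespace Pool.Agent.H772.FV

open H960FV

/-- local functions of the bad field -/
def Lc {d : ℕ} {α : Type} (f : (Z d → ℕ → Prop) → α) : Prop :=
  ∃ K : Finset (Z d × ℕ), ∀ β β' : Z d → ℕ → Prop,
    (∀ p ∈ K, (β p.1 p.2 ↔ β' p.1 p.2)) → f β = f β'

theorem lc_const {d : ℕ} {α : Type} (c : α) : Lc (fun _ : Z d → ℕ → Prop => c) :=
  ⟨∅, fun _ _ _ => rfl⟩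

theorem lc_val {d : ℕ} (u : Z d) (i : ℕ) : Lc (fun β : Z d → ℕ → Prop => β u i) :=
  ⟨{(u, i)}, fun _ _ h => propext (h (u, i) (Finset.mem_singleton_self _))⟩

theorem lc_map {d : ℕ} {α γ : Type} {f : (Z d → ℕ → Prop) → α} (F : α → γ) (hf : Lc f) :
    Lc (fun β => F (f β)) := by
  obtain ⟨K, hK⟩ := hf
  exact ⟨K, fun β β' h => congrArg F (hK β β' h)⟩

theorem lc_map₂ {d : ℕ} {α α' γ : Type} {f : (Z d → ℕ → Prop) → α} {g : (Z d → ℕ → Prop) → α'}
    (F : α → α' → γ) (hf : Lc f) (hg : Lc g) : Lc (fun β => F (f β) (g β)) := by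
  classical
  obtain ⟨K, hK⟩ := hf
  obtain ⟨L, hL⟩ := hg
  refine ⟨K ∪ L, fun β β' h => ?_⟩
  show F (f β) (g β) = F (f β') (g β')
  rw [hK β β' fun p hp => h p (Finset.mem_union_left _ hp),
    hL β β' fun p hp => h p (Finset.mem_union_right _ hp)]

theorem lc_all {d : ℕ} {ι : Type} (S : Finset ι) {P : ι → (Z d → ℕ → Prop) → Prop}
    (h : ∀ y, Lc (P y)) : Lc (fun β => ∀ y ∈ S, P y β) := by
  classical
  choose K hK using h
  refine ⟨S.biUnion K, fun β β' hb => propext ?_⟩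
  refine forall_congr' fun y => forall_congr' fun hy => ?_
  rw [hK y β β' fun p hp => hb p (Finset.mem_biUnion.2 ⟨y, hy, hp⟩)]

theorem lc_ex {d : ℕ} {ι : Type} (S : Finset ι) {P : ι → (Z d → ℕ → Prop) → Prop}
    (h : ∀ y, Lc (P y)) : Lc (fun β => ∃ y ∈ S, P y β) := by
  classical
  choose K hK using h
  refine ⟨S.biUnion K, fun β β' hb => propext ?_⟩
  refine exists_congr fun y => and_congr_right fun hy => ?_
  rw [hK y β β' fun p hp => hb p (Finset.mem_biUnion.2 ⟨y, hy, hp⟩)]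

theorem lc_congr {d : ℕ} {f g : (Z d → ℕ → Prop) → Prop} (h : ∀ β, f β ↔ g β) (hf : Lc f) :
    Lc g := by
  have e : f = g := funext fun β => propext (h β)
  rwa [← e]

section
variable {d : ℕ} [NeZero d] (ρ : ℕ)

/-- membership of one level in the candidates -/
theorem lc_cand {t : ℕ} (ha : ∀ x j, Lc (fun β : Z d → ℕ → Prop => (x, j) ∈ ra ρ β t)) (x : Z d)
    (j : ℕ) : Lc (fun β : Z d → ℕ → Prop => j ∈ Cand ρ β (ra ρ β t) x) := by
  have hdem : Lc (fun β : Z d → ℕ → Prop => Dem ρ β (ra ρ β t) x j) := by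
    cases j with
    | zero =>
      refine lc_congr (f := fun _ => False) (fun β => ?_) (lc_const False)
      constructor
      · exact fun h => h.elim
      · rintro ⟨u, i, h, -⟩
        omega
    | succ i =>
      refine lc_congr (f := fun β => ∃ y ∈ bx d (2 * ρ),
        ((∀ z ∈ bx d ρ, ((x - y) + z, i) ∈ ra ρ β t) ∧ β (x - y) i)) (fun β => ?_) ?_
      · constructor
        · rintro ⟨y, hy, h1, h2⟩
          refine ⟨x - y, i, rfl, ?_, h1, h2⟩
          rwa [sub_sub_cancel]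
        · rintro ⟨u, i', h, h1, h2, h3⟩
          have hi : i' = i := by omega
          subst hi
          refine ⟨x - u, h1, ?_, ?_⟩
          · rw [sub_sub_cancel]
            exact h2
          · rw [sub_sub_cancel]
            exact h3
      · exact lc_ex _ fun y => lc_map₂ And (lc_all _ fun z => ha _ _) (lc_val _ _)
  exact lc_map₂ (fun p q => p ∧ ¬ q) hdem (ha x j)

/-- the set of the candidates -/
theorem lc_Cand (hb : S_basic) {t : ℕ}
    (ha : ∀ x j, Lc (fun β : Z d → ℕ → Prop => (x, j) ∈ ra ρ β t)) (x : Z d) :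
    Lc (fun β : Z d → ℕ → Prop => Cand ρ β (ra ρ β t) x) := by
  classical
  have h := fun j => lc_cand ρ ha x j
  choose K hK using h
  refine ⟨(Finset.range (t + 2)).biUnion K, fun β β' hbb => Set.ext fun j => ?_⟩
  by_cases hj : j < t + 2
  · exact iff_of_eq (hK j β β' fun p hp =>
      hbb p (Finset.mem_biUnion.2 ⟨j, Finset.mem_range.2 hj, hp⟩))
  · constructor
    · intro h
      have := ((hb d ρ β).2.1 t x j h).2
      omega
    · intro h
      have := ((hb d ρ β').2.1 t x j h).2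
      omega

theorem lc_act (hb : S_basic) {t : ℕ}
    (ha : ∀ x j, Lc (fun β : Z d → ℕ → Prop => (x, j) ∈ ra ρ β t))
    (hu : ∀ w, Lc (fun β : Z d → ℕ → Prop => w ∈ ru ρ β t)) (v : Z d) :
    Lc (fun β : Z d → ℕ → Prop => act ρ β t v) :=
  lc_map₂ (fun (A : Set ℕ) (q : Prop) => A.Nonempty ∧ ¬ q) (lc_Cand ρ hb ha v) (hu _)

theorem lc_lv (hb : S_basic) {t : ℕ}
    (ha : ∀ x j, Lc (fun β : Z d → ℕ → Prop => (x, j) ∈ ra ρ β t)) (v : Z d) :
    Lc (fun β : Z d → ℕ → Prop => lv ρ β t v) :=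
  lc_map (fun A : Set ℕ => sInf A) (lc_Cand ρ hb ha v)

theorem lc_run (hb : S_basic) (t : ℕ) :
    (∀ x j, Lc (fun β : Z d → ℕ → Prop => (x, j) ∈ ra ρ β t)) ∧
      ∀ w, Lc (fun β : Z d → ℕ → Prop => w ∈ ru ρ β t) := by
  induction t with
  | zero =>
    refine ⟨fun x j => ?_, fun w => ?_⟩
    · exact lc_congr (f := fun _ => j = 0) (fun β => (ra_zero (a := (x, j))).symm)
        (lc_const (j = 0))
    · refine lc_congr (f := fun _ => False) (fun β => ?_) (lc_const False)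
      rw [ru_zero]
      exact (Set.mem_empty_iff_false w).symm
  | succ t ih =>
    obtain ⟨ha, hu⟩ := ih
    refine ⟨fun x j => ?_, fun w => ?_⟩
    · refine lc_congr (f := fun β => (x, j) ∈ ra ρ β t ∨ (act ρ β t x ∧ j = lv ρ β t x))
        (fun β => mem_ra_succ.symm) ?_
      exact lc_map₂ Or (ha x j) (lc_map₂ (fun (p : Prop) (n : ℕ) => p ∧ j = n)
        (lc_act ρ hb ha hu x) (lc_lv ρ hb ha x))
    · refine lc_congr (f := fun β => w ∈ ru ρ β t ∨ (Cand ρ β (ra ρ β t) (w - sh t)).Nonempty)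
        (fun β => mem_ru_succ.symm) ?_
      exact lc_map₂ (fun (p : Prop) (A : Set ℕ) => p ∨ A.Nonempty) (hu w) (lc_Cand ρ hb ha _)

theorem lc_sg (hb : S_basic) (t : ℕ) (i : Ix d) :
    Lc (fun β : Z d → ℕ → Prop => sg ρ β t i) := by
  classical
  obtain ⟨ha, hu⟩ := lc_run (d := d) ρ hb t
  cases i with
  | inl a =>
    obtain ⟨K, hK⟩ := lc_act ρ hb ha hu a.1
    obtain ⟨L, hL⟩ := lc_lv ρ hb ha a.1
    refine ⟨K ∪ L, fun β β' h => ?_⟩
    have e1 : act ρ β t a.1 = act ρ β' t a.1 :=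
      hK β β' fun p hp => h p (Finset.mem_union_left _ hp)
    have e2 : lv ρ β t a.1 = lv ρ β' t a.1 :=
      hL β β' fun p hp => h p (Finset.mem_union_right _ hp)
    simp only [sg, e1, e2]
  | inr w =>
    obtain ⟨K, hK⟩ := lc_act ρ hb ha hu (w - sh t)
    obtain ⟨L, hL⟩ := lc_lv ρ hb ha (w - sh t)
    refine ⟨K ∪ L, fun β β' h => ?_⟩
    have e1 : act ρ β t (w - sh t) = act ρ β' t (w - sh t) :=
      hK β β' fun p hp => h p (Finset.mem_union_left _ hp)
    have e2 : lv ρ β t (w - sh t) = lv ρ β' t (w - sh t) :=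
      hL β β' fun p hp => h p (Finset.mem_union_right _ hp)
    simp only [sg, e1, e2]

end

theorem fin (hb : S_basic) : S_fin := by
  classical
  intro d _ Sg St G ρ hG t i
  obtain ⟨K, hK⟩ := lc_sg ρ hb t i
  refine ⟨K.biUnion fun p => (bx d ρ).image fun y => Sum.inl (p.1 + y, p.2), fun ω ω' h => ?_⟩
  refine hK _ _ fun p hp => bf_congr hG fun y hy => ?_
  exact h _ (Finset.mem_biUnion.2 ⟨p, hp, Finset.mem_image.2 ⟨y, hy, rfl⟩⟩)

end Pool.Agent.H772.FV
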