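import Pool.Agent.H960.FV.Bas

/-!
Project FV (helper960): final assembly (helper322).
-/

set_option autoImplicit false

open MeasureTheory Filter Topology

namespace Pool.Agent.H322.FV

open H960FV

/-- a finite set of lattice points is contained in a box -/
theorem exists_bx {d : ℕ} (F : Finset (Z d)) : ∃ r : ℕ, F ⊆ bx d r := by
  refine ⟨∑ x ∈ F, ∑ i, (x i).natAbs, fun x hx => ?_⟩
  rw [mem_bx]
  intro i
  have h1 : (x i).natAbs ≤ ∑ i, (x i).natAbs :=
    Finset.single_le_sum (f := fun i => (x i).natAbs) (fun _ _ => Nat.zero_le _)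
      (Finset.mem_univ i)
  have h2 : ∑ i, (x i).natAbs ≤ ∑ x ∈ F, ∑ i, (x i).natAbs :=
    Finset.single_le_sum (f := fun x : Z d => ∑ i, (x i).natAbs) (fun _ _ => Nat.zero_le _) hx
  have h3 := h1.trans h2
  rw [Int.abs_eq_natAbs]
  exact_mod_cast h3

/-- the probability decays faster than a power -/
theorem exists_small (C c : ℝ) (hc : 0 < c) (K D r : ℕ) :
    ∃ N : ℕ, max C 0 * Real.exp (-c * ((N + 1 : ℕ) : ℝ)) * K * (((r * (N + 1) : ℕ) : ℝ)) ^ D ≤ 1 := by
  have h1 : Tendsto (fun N : ℕ => c * ((N + 1 : ℕ) : ℝ)) atTop atTop := by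
    refine Tendsto.const_mul_atTop hc ?_
    exact tendsto_natCast_atTop_atTop.comp (tendsto_add_atTop_nat 1)
  have h2 := (Real.tendsto_pow_mul_exp_neg_atTop_nhds_zero D).comp h1
  have h3 := h2.const_mul (max C 0 * K * (r : ℝ) ^ D / c ^ D)
  rw [mul_zero] at h3
  obtain ⟨N, hN⟩ := (h3.eventually (gt_mem_nhds (zero_lt_one))).exists
  refine ⟨N, ?_⟩
  refine le_trans (le_of_eq ?_) hN.le
  simp only [Function.comp_apply]
  push_cast
  have hcD : c ^ D ≠ 0 := (pow_pos hc D).ne'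
  rw [mul_pow, mul_pow]
  have h4 : -(c * ((N : ℝ) + 1)) = -c * ((N : ℝ) + 1) := by ring
  rw [h4]
  field_simp

theorem final (h1 : S_T5) (h2 : S_phimeas) (h3 : S_phieq) (h4 : S_phitail) (h5 : S_philaw)
    (h6 : S_pcaloc) (h7 : S_pcabad) (h8 : S_pcalaw) : S_final := by
  intro d _ S A _ _ _ _ _ _ _ α _ F F' f μ _ hconv hdec
  obtain ⟨C, c, hc, hC⟩ := hdec
  obtain ⟨r1, hr1⟩ := exists_bx F
  obtain ⟨r2, hr2⟩ := exists_bx F'
  obtain ⟨K, D, hKD⟩ := h1 d
  obtain ⟨N, hN⟩ := exists_small C c hc K D (r1 + r2 + 1)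
  have hF : F ⊆ bx d (r1 + r2 + 1) := fun x hx => bx_mono (by omega) (hr1 hx)
  have hF' : F' ⊆ bx d (r1 + r2 + 1) := fun x hx => bx_mono (by omega) (hr2 hx)
  have hloc := h6 d S A F F' f (r1 + r2 + 1) N hF hF'
  have hp0 : 0 ≤ max C 0 * Real.exp (-c * ((N + 1 : ℕ) : ℝ)) := by positivity
  have hbad : (Measure.infinitePi fun _ : Z d => Measure.pi fun _ : Fin (N + 1) => α).real
      {a | Bd (blk f N) a} ≤ max C 0 * Real.exp (-c * ((N + 1 : ℕ) : ℝ)) := by
    refine (h7 d S A α F F' f N).trans ((hC (N + 1)).trans ?_)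
    exact mul_le_mul_of_nonneg_right (le_max_left _ _) (Real.exp_pos _).le
  have hρ : 1 ≤ (r1 + r2 + 1) * (N + 1) := Nat.one_le_iff_ne_zero.2 (by positivity)
  have htail := hKD (Fin (N + 1) → A) S (Measure.pi fun _ : Fin (N + 1) => α) (blk f N)
    ((r1 + r2 + 1) * (N + 1)) hρ hloc _ hp0 hbad hN
  refine ⟨(Fin (N + 1) → A) × (Fin (N + 1) → A), inferInstance, inferInstance, inferInstance,
    (Measure.pi fun _ : Fin (N + 1) => α).prod (Measure.pi fun _ : Fin (N + 1) => α),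
    inferInstance, phi (blk f N) ((r1 + r2 + 1) * (N + 1)),
    h2 d (Fin (N + 1) → A) S (blk f N) _ hloc, ?_, ?_,
    h4 d (Fin (N + 1) → A) S (Measure.pi fun _ : Fin (N + 1) => α) (blk f N) _ hloc htail⟩
  · intro x w v
    exact h3 d (Fin (N + 1) → A) S (blk f N) _ x w v
  · refine h5 d (Fin (N + 1) → A) S (Measure.pi fun _ : Fin (N + 1) => α) (blk f N) _ hloc htail
      μ (fun s0 Λ η => ?_)
    have h9 : Tendsto (fun k : ℕ => k * (N + 1)) atTop atTop :=
      tendsto_id.atTop_mul_const' (Nat.succ_pos N)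
    have h10 := (hconv s0 Λ η).comp h9
    refine h10.congr (fun k => ?_)
    exact (h8 d S A α F F' f N k s0 Λ η).symm

end Pool.Agent.H322.FV
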