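import Pool.Agent.H960.FV.Bas

set_option autoImplicit false

/-!
Project FV: the swaps preserve the product measure.
-/

open MeasureTheory Filter Topology

namespace Pool.Agent.H945.FV

open H960FV

theorem sg_congr {d : ℕ} [NeZero d] {ρ : ℕ} {β β' : Z d → ℕ → Prop} {t : ℕ}
    (hr : run ρ β' t = run ρ β t)
    (h : ∀ u i, Full ρ (ra ρ β t) u i → (β u i ↔ β' u i)) : sg ρ β' t = sg ρ β t := by
  have hra : ra ρ β' t = ra ρ β t := by
    unfold ra
    rw [hr]
  have hru : ru ρ β' t = ru ρ β t := by
    unfold ru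
    rw [hr]
  have hc : ∀ x, Cand ρ β' (ra ρ β' t) x = Cand ρ β (ra ρ β t) x := by
    intro x
    rw [hra]
    exact (Cand_congr h x).symm
  have hact : act ρ β' t = act ρ β t := by
    funext v
    unfold act
    rw [hc, hru]
  have hlv : lv ρ β' t = lv ρ β t := by
    funext v
    unfold lv
    rw [hc]
  funext i
  cases i with
  | inl a =>
    simp only [sg]
    by_cases hA : act ρ β t a.1 ∧ a.2 = lv ρ β t a.1
    · have hA' : act ρ β' t a.1 ∧ a.2 = lv ρ β' t a.1 := by
        rw [hact, hlv]
        exact hA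
      rw [if_pos hA', if_pos hA]
    · have hA' : ¬ (act ρ β' t a.1 ∧ a.2 = lv ρ β' t a.1) := by
        rw [hact, hlv]
        exact hA
      rw [if_neg hA', if_neg hA]
  | inr w =>
    simp only [sg]
    by_cases hA : act ρ β t (w - sh t)
    · have hA' : act ρ β' t (w - sh t) := by
        rw [hact]
        exact hA
      rw [if_pos hA', if_pos hA, hlv]
    · have hA' : ¬ act ρ β' t (w - sh t) := by
        rw [hact]
        exact hA
      rw [if_neg hA', if_neg hA]

theorem mp (h1 : S_perm) (h2 : S_stop) (h3 : S_basic) (h4 : S_fin) : S_mp := by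
  intro d _ Sg St _ _ _ ν _ G ρ hG t
  induction t with
  | zero => exact MeasurePreserving.id _
  | succ t ih =>
    have key := h1 (Ix d) Sg ν (fun w => sg ρ (bf G (fun a => w (Sum.inl a))) t)
      (fun w i => (h3 d ρ _).2.2.2.1 t i) (fun i => h4 d Sg St G ρ hG t i) (by
        intro ω ω' hω
        have hF : ∀ u i, Full ρ (ra ρ (bf G (fun a => ω (Sum.inl a))) t) u i →
            (bf G (fun a => ω (Sum.inl a)) u i ↔ bf G (fun a => ω' (Sum.inl a)) u i) := by
          intro u i hu
          refine bf_congr hG fun y hy => ?_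
          exact (hω (Sum.inl (u + y, i)) ((h3 d ρ _).2.2.2.2.1 t _ (hu y hy))).symm
        exact sg_congr (h2 d ρ _ _ t hF t (Nat.le_succ t)) hF)
    exact key.comp ih

end Pool.Agent.H945.FV
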