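import Pool.Agent.H960.FV.Bas

/-!
# FV-PAIR (project of helper960): the pair of the level zero noise and the spot is iid
-/

set_option autoImplicit false

open MeasureTheory Filter Topology H960FV

namespace Pool.Agent.H229.FV

theorem reidx {I J T : Type} [MeasurableSpace T] (ν : Measure T) [IsProbabilityMeasure ν] (e : J → I)
    (he : Function.Injective e) :
    (Measure.infinitePi fun _ : I => ν).map (fun (W : I → T) (j : J) => W (e j)) =
      Measure.infinitePi fun _ : J => ν := by
  classical
  apply Measure.eq_infinitePi
  intro s t ht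
  have hm : Measurable (fun (W : I → T) (j : J) => W (e j)) :=
    measurable_pi_lambda _ fun j => measurable_pi_apply (e j)
  rw [Measure.map_apply hm (MeasurableSet.pi s.countable_toSet fun _ _ => ht _)]
  set t' : I → Set T := Function.extend e t (fun _ => Set.univ) with ht'
  have h1 : ∀ j, t' (e j) = t j := fun j => he.extend_apply t _ j
  have h2 : (fun (W : I → T) (j : J) => W (e j)) ⁻¹' (Set.pi s t) =
      Set.pi ((s.image e : Finset I) : Set I) t' := by
    ext W
    simp only [Set.mem_preimage, Set.mem_pi, Finset.mem_coe, Finset.mem_image]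
    constructor
    · rintro h i ⟨j, hj, rfl⟩
      rw [h1]
      exact h j hj
    · intro h j hj
      rw [← h1]
      exact h (e j) ⟨j, hj, rfl⟩
  rw [h2, Measure.infinitePi_pi]
  · rw [Finset.prod_image he.injOn]
    exact Finset.prod_congr rfl fun j _ => by rw [h1]
  · intro i hi
    obtain ⟨j, _, rfl⟩ := Finset.mem_image.mp hi
    rw [h1]
    exact ht j

/-- the index of the pair -/
def ix {d : ℕ} : Z d × Bool → Ix d
  | (v, false) => Sum.inl (v, 0)
  | (v, true) => Sum.inr v

theorem ix_inj {d : ℕ} : Function.Injective (ix (d := d)) := by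
  rintro ⟨v, a⟩ ⟨w, b⟩ h
  cases a <;> cases b
  · have h1 : (Sum.inl (v, 0) : Ix d) = Sum.inl (w, 0) := h
    have h2 := Sum.inl_injective h1
    rw [(Prod.mk.inj h2).1]
  · have h1 : (Sum.inl (v, 0) : Ix d) = Sum.inr w := h
    exact absurd h1 Sum.inl_ne_inr
  · have h1 : (Sum.inr v : Ix d) = Sum.inl (w, 0) := h
    exact absurd h1 Sum.inr_ne_inl
  · have h1 : (Sum.inr v : Ix d) = Sum.inr w := h
    rw [Sum.inr_injective h1]

theorem two {T : Type} [MeasurableSpace T] (ν : Measure T) [IsProbabilityMeasure ν] :
    (Measure.infinitePi fun _ : Bool => ν).map (fun x : Bool → T => (x false, x true)) =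
      ν.prod ν := by
  have hm : Measurable (fun x : Bool → T => (x false, x true)) :=
    (measurable_pi_apply false).prodMk (measurable_pi_apply true)
  symm
  apply Measure.prod_eq
  intro A B hA hB
  rw [Measure.map_apply hm (hA.prod hB), Measure.infinitePi_eq_pi]
  have h : (fun x : Bool → T => (x false, x true)) ⁻¹' (A ×ˢ B) =
      Set.pi Set.univ (fun b : Bool => if b then B else A) := by
    ext x
    simp only [Set.mem_preimage, Set.mem_prod, Set.mem_pi, Set.mem_univ, true_imp_iff,
      Bool.forall_bool, Bool.false_eq_true, if_false, if_true]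
  rw [h, Measure.pi_pi]
  simp [mul_comm]

theorem pair : S_pair := by
  intro d Sg _ _ _ ν _
  have hm : Measurable (fun (ω : Ix d → Sg) (v : Z d) => (ω (Sum.inl (v, 0)), ω (Sum.inr v))) :=
    measurable_pi_lambda _ fun v => (measurable_pi_apply _).prodMk (measurable_pi_apply _)
  refine ⟨hm, ?_⟩
  have h1 := reidx ν (ix (d := d)) ix_inj
  have h2 := Measure.infinitePi_map_curry (fun (_ : Z d) (_ : Bool) => ν)
  have hf : ∀ _ : Z d, Measurable (fun x : Bool → Sg => (x false, x true)) := fun _ =>
    (measurable_pi_apply false).prodMk (measurable_pi_apply true)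
  have h3 := Measure.infinitePi_map_pi (μ := fun _ : Z d => Measure.infinitePi fun _ : Bool => ν) hf
  simp only [two] at h3
  rw [← h3, ← h2, ← h1, Measure.map_map, Measure.map_map]
  · rfl
  · exact (measurable_pi_lambda _ fun v => (hf v).comp (measurable_pi_apply v)).comp
      (MeasurableEquiv.measurable _)
  · exact measurable_pi_lambda _ fun j => measurable_pi_apply (ix j)
  · exact measurable_pi_lambda _ fun v => (hf v).comp (measurable_pi_apply v)
  · exact MeasurableEquiv.measurable _

end Pool.Agent.H229.FV
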