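import Pool.Agent.H960.FV.Bas

/-! Part PCALOC of helper960's project FV (MP_fe4781_pr): the block map is local. -/

namespace Pool.Agent.H921.FV

open H960FV

theorem steps_congr {d : ℕ} {S A : Type} {F F' : Finset (Z d)} (f : (F → S) → (F' → A) → S)
    {r m : ℕ} (hF : F ⊆ bx d r) (hF' : F' ⊆ bx d r) {w w' : ℕ → Z d → A} {ξ ξ' : Z d → S}
    (hw : ∀ k, ∀ v ∈ bx d (r * m), w k v = w' k v) (hξ : ∀ v ∈ bx d (r * m), ξ v = ξ' v) :
    ∀ n j : ℕ, n + j = m → ∀ v ∈ bx d (r * j), steps f w ξ n v = steps f w' ξ' n v := by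
  intro n
  induction n with
  | zero =>
    intro j hj v hv
    have e : j = m := by omega
    rw [e] at hv
    exact hξ v hv
  | succ n ih =>
    intro j hj v hv
    have hstep : ∀ u ∈ bx d r, v + u ∈ bx d (r * (j + 1)) := by
      intro u hu
      have h1 := bx_add hv hu
      rwa [← Nat.mul_succ] at h1
    have e1 : (fun u : F => steps f w ξ n (v + u)) = fun u : F => steps f w' ξ' n (v + u) := by
      funext u
      exact ih (j + 1) (by omega) _ (hstep u.1 (hF u.2))
    have e2 : (fun u : F' => w n (v + u)) = fun u : F' => w' n (v + u) := by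
      funext u
      refine hw n _ (bx_mono ?_ (hstep u.1 (hF' u.2)))
      exact Nat.mul_le_mul_left r (by omega)
    show f (fun u => steps f w ξ n (v + u)) (fun u => w n (v + u)) =
      f (fun u => steps f w' ξ' n (v + u)) (fun u => w' n (v + u))
    rw [e1, e2]

theorem pcaloc : S_pcaloc := by
  intro d S A F F' f r N hF hF' a a' s s' ha hs
  refine steps_congr f (m := N + 1) hF hF' (fun k v hv => ?_) hs (N + 1) 0 rfl 0 zero_mem_bx
  show a v _ = a' v _
  rw [ha v hv]

end Pool.Agent.H921.FV
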