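import Pool.Agent.H960.FV.Bas

/-!
# FV-PERM: random involutions which do not look at what they move preserve the product measure
-/

set_option autoImplicit false

open MeasureTheory Filter Topology

namespace Pool.Agent.H803.FV

open H960FV

/-- permutations of the coordinates preserve the product measure -/
lemma perm_inv {I Sg : Type} [MeasurableSpace Sg] (ν : Measure Sg) [IsProbabilityMeasure ν]
    (π : I → I) (hπ : ∀ i, π (π i) = i) :
    (Measure.infinitePi fun _ : I => ν).map (fun ω i => ω (π i)) =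
      Measure.infinitePi fun _ : I => ν := by
  classical
  have hm : Measurable (fun (ω : I → Sg) i => ω (π i)) :=
    measurable_pi_lambda _ fun i => measurable_pi_apply _
  have hinj : Function.Injective π := fun a b h => by rw [← hπ a, h, hπ]
  apply Measure.eq_infinitePi
  intro s t' ht'
  obtain ⟨t, htt⟩ : ∃ t : I → Set Sg, t = t' := ⟨t', rfl⟩
  subst htt
  have ht : ∀ i, MeasurableSet (t i) := ht'
  rw [Measure.map_apply hm (MeasurableSet.pi s.countable_toSet fun i _ => ht i)]
  have e : (fun (ω : I → Sg) i => ω (π i)) ⁻¹' (Set.pi s t) =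
      Set.pi (s.image π : Finset I) (fun j => t (π j)) := by
    ext ω
    constructor
    · intro h j hj
      obtain ⟨i, hi, rfl⟩ := Finset.mem_image.1 (Finset.mem_coe.1 hj)
      have h2 := h i hi
      show ω (π i) ∈ t (π (π i))
      rw [hπ]
      exact h2
    · intro h i hi
      have h2 : ω (π i) ∈ t (π (π i)) := h (π i) (Finset.mem_coe.2 (Finset.mem_image_of_mem π hi))
      rw [hπ] at h2
      exact h2
  rw [e, Measure.infinitePi_pi _ (fun j _ => ht _), Finset.prod_image (fun a _ b _ h => hinj h)]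
  exact Finset.prod_congr rfl fun i _ => by rw [hπ]

/-- sets which depend on finitely many coordinates are measurable -/
lemma meas_local {I Sg : Type} [Finite Sg] [MeasurableSpace Sg] [MeasurableSingletonClass Sg]
    (A : Set (I → Sg)) (K : Finset I)
    (h : ∀ ω ω' : I → Sg, (∀ k ∈ K, ω k = ω' k) → ω ∈ A → ω' ∈ A) : MeasurableSet A := by
  have e : A = (K.restrict) ⁻¹' (K.restrict '' A) := by
    ext ω
    constructor
    · intro hω
      exact ⟨ω, hω, rfl⟩
    · rintro ⟨ω', h', he⟩
      exact h ω' ω (fun k hk => congrFun he ⟨k, hk⟩) h'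
  rw [e]
  exact (Finset.measurable_restrict K) (Set.toFinite _).measurableSet

/-- a local function with a finite alphabet has finitely many values -/
lemma fin_range {I Sg β : Type} [Finite Sg] (f : (I → Sg) → β) (K : Finset I)
    (h : ∀ ω ω' : I → Sg, (∀ k ∈ K, ω k = ω' k) → f ω = f ω') : (Set.range f).Finite := by
  classical
  have h1 : (Set.range (fun x : K → Sg =>
      if hx : ∃ ω : I → Sg, K.restrict ω = x then some (f hx.choose) else none)).Finite :=
    Set.finite_range _
  have h2 : (some '' Set.range f) ⊆ Set.range (fun x : K → Sg =>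
      if hx : ∃ ω : I → Sg, K.restrict ω = x then some (f hx.choose) else none) := by
    rintro _ ⟨_, ⟨ω, rfl⟩, rfl⟩
    refine ⟨K.restrict ω, ?_⟩
    have hx : ∃ ω' : I → Sg, K.restrict ω' = K.restrict ω := ⟨ω, rfl⟩
    simp only [dif_pos hx]
    congr 1
    exact h _ _ fun k hk => congrFun hx.choose_spec ⟨k, hk⟩
  exact Set.Finite.of_finite_image (h1.subset h2) (Option.some_injective _).injOn

theorem perm : S_perm := by
  classical
  intro I _ Sg _ _ _ ν _ σ hinv hloc hno
  have hT : Measurable (fun (ω : I → Sg) i => ω (σ ω i)) := by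
    refine measurable_pi_lambda _ fun i => ?_
    obtain ⟨K, hK⟩ := hloc i
    intro B hB
    have e : (fun ω : I → Sg => ω (σ ω i)) ⁻¹' B =
        ⋃ j : I, ({ω : I → Sg | σ ω i = j} ∩ {ω : I → Sg | ω j ∈ B}) := by
      ext ω
      constructor
      · intro h
        exact Set.mem_iUnion.2 ⟨σ ω i, rfl, h⟩
      · intro h
        obtain ⟨j, h1, h2⟩ := Set.mem_iUnion.1 h
        have h1' : σ ω i = j := h1
        subst h1'
        exact h2
    rw [e]
    refine MeasurableSet.iUnion fun j => ?_
    refine (meas_local _ K ?_).inter ((measurable_pi_apply j) hB)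
    intro ω ω' h h1
    exact (hK ω ω' h).symm.trans h1
  refine ⟨hT, ?_⟩
  apply Measure.eq_infinitePi
  intro F t ht
  have hC : MeasurableSet (Set.pi (F : Set I) t) :=
    MeasurableSet.pi F.countable_toSet fun i _ => ht i
  rw [Measure.map_apply hT hC, ← Measure.infinitePi_pi (fun _ : I => ν) (fun i _ => ht i)]
  -- the finite set `J`
  obtain ⟨J, hFJ, hJ⟩ : ∃ J : Finset I, F ⊆ J ∧ ∀ i ∈ F, ∀ ω, σ ω i ∈ J := by
    have hfin : ∀ i, (Set.range fun ω => σ ω i).Finite := fun i => by
      obtain ⟨K, hK⟩ := hloc i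
      exact fin_range _ K hK
    refine ⟨F ∪ F.biUnion fun i => (hfin i).toFinset, Finset.subset_union_left, ?_⟩
    intro i hi ω
    refine Finset.mem_union_right _ (Finset.mem_biUnion.2 ⟨i, hi, ?_⟩)
    exact (hfin i).mem_toFinset.2 ⟨ω, rfl⟩
  obtain ⟨s, hs⟩ : ∃ s : (I → Sg) → I → I,
      ∀ ω i, s ω i = if i ∈ J ∧ σ ω i ∈ J then σ ω i else i := ⟨_, fun _ _ => rfl⟩
  have s_inv : ∀ ω i, s ω (s ω i) = i := by
    intro ω i
    by_cases h : i ∈ J ∧ σ ω i ∈ J
    · have e1 : s ω i = σ ω i := by rw [hs, if_pos h]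
      rw [e1, hs, if_pos ⟨h.2, by rw [hinv]; exact h.1⟩, hinv]
    · have e1 : s ω i = i := by rw [hs, if_neg h]
      rw [e1, e1]
  have s_T : ∀ ω, s (fun i => ω (s ω i)) = s ω := by
    intro ω
    have e : σ (fun i => ω (s ω i)) = σ ω := by
      apply hno
      intro i hi
      have : s ω i = i := by
        rw [hs]
        split_ifs
        · exact hi
        · rfl
      show ω (s ω i) = ω i
      rw [this]
    funext i
    rw [hs, hs, e]
  have s_out : ∀ ω i, i ∉ J → s ω i = i := by
    intro ω i hi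
    rw [hs, if_neg (fun h => hi h.1)]
  have s_F : ∀ ω i, i ∈ F → s ω i = σ ω i := by
    intro ω i hi
    rw [hs, if_pos ⟨hFJ hi, hJ i hi ω⟩]
  -- the pieces
  obtain ⟨A, hA⟩ : ∃ A : (J → I) → Set (I → Sg), ∀ b, A b = {ω | ∀ j : J, s ω j = b j} :=
    ⟨_, fun _ => rfl⟩
  have hAm : ∀ b, MeasurableSet (A b) := by
    intro b
    choose K hK using hloc
    apply meas_local _ (J.biUnion K)
    intro ω ω' h h1
    rw [hA] at h1 ⊢
    intro j
    have e : σ ω' j = σ ω j := (hK j ω ω' fun k hk =>
      h k (Finset.mem_biUnion.2 ⟨j, j.2, hk⟩)).symm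
    rw [← h1 j, hs, hs, e]
  have hAd : Pairwise (Function.onFun Disjoint A) := by
    intro b b' hb
    rw [Function.onFun, Set.disjoint_left]
    intro ω h1 h2
    rw [hA] at h1 h2
    exact hb (funext fun j => (h1 j).symm.trans (h2 j))
  have hAu : ∀ X : Set (I → Sg), X = ⋃ b, X ∩ A b := by
    intro X
    ext ω
    constructor
    · intro h
      refine Set.mem_iUnion.2 ⟨fun j => s ω j, h, ?_⟩
      rw [hA]
      intro j
      rfl
    · intro h
      obtain ⟨b, h1, -⟩ := Set.mem_iUnion.1 h
      exact h1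
  have hsum : ∀ X : Set (I → Sg), MeasurableSet X →
      (Measure.infinitePi fun _ : I => ν) X =
        ∑' b, (Measure.infinitePi fun _ : I => ν) (X ∩ A b) := by
    intro X hX
    conv_lhs => rw [hAu X]
    refine measure_iUnion (fun b b' hb => ?_) fun b => hX.inter (hAm b)
    exact (hAd hb).mono Set.inter_subset_right Set.inter_subset_right
  rw [hsum _ (hT hC), hsum _ hC]
  congr 1
  funext b
  rcases Set.eq_empty_or_nonempty (A b) with h0 | ⟨ω0, h0⟩
  · rw [h0, Set.inter_empty, Set.inter_empty]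
  have hsame : ∀ ω ∈ A b, s ω = s ω0 := by
    intro ω hω
    rw [hA] at hω h0
    funext i
    by_cases hi : i ∈ J
    · exact (hω ⟨i, hi⟩).trans (h0 ⟨i, hi⟩).symm
    · rw [s_out ω i hi, s_out ω0 i hi]
  have hmemA : ∀ ω, s ω = s ω0 → ω ∈ A b := by
    intro ω h
    rw [hA] at h0 ⊢
    intro j
    rw [h]
    exact h0 j
  have hm : Measurable (fun (ω : I → Sg) i => ω (s ω0 i)) :=
    measurable_pi_lambda _ fun i => measurable_pi_apply _
  have key : (fun (ω : I → Sg) i => ω (σ ω i)) ⁻¹' (Set.pi (F : Set I) t) ∩ A b =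
      (fun (ω : I → Sg) i => ω (s ω0 i)) ⁻¹' (Set.pi (F : Set I) t ∩ A b) := by
    ext ω
    constructor
    · rintro ⟨h1, h2⟩
      have e := hsame ω h2
      refine ⟨fun i hi => ?_, ?_⟩
      · have h3 := h1 i hi
        show ω (s ω0 i) ∈ t i
        rw [← e, s_F ω i hi]
        exact h3
      · apply hmemA
        have := s_T ω
        rw [e] at this
        exact this
    · rintro ⟨h1, h2⟩
      have e := hsame _ h2
      have h3 := s_T (fun i => ω (s ω0 i))
      have h4 : (fun i => (fun i => ω (s ω0 i)) (s (fun i => ω (s ω0 i)) i)) = ω := by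
        funext i
        rw [e]
        show ω (s ω0 (s ω0 i)) = ω i
        rw [s_inv]
      rw [h4, e] at h3
      refine ⟨fun i hi => ?_, hmemA ω h3⟩
      have h5 := h1 i hi
      show ω (σ ω i) ∈ t i
      rw [← s_F ω i hi, h3]
      exact h5
  rw [key, ← Measure.map_apply hm (hC.inter (hAm b)), perm_inv ν (s ω0) (s_inv ω0)]

end Pool.Agent.H803.FV
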