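import Pool.Agent.H960.FV.Bas

set_option autoImplicit false

namespace Pool.Agent.H782.FV

open H960FV

theorem phieq (h : S_trans) : S_phieq := by
  intro d _ Sg St _ G ρ x w v
  have e : (emb (fun u => x (u + w)) : Ix d → Sg) = fun i => emb x (ti w i) := by
    funext i
    cases i <;> rfl
  have e2 : (fun a => ∃ t, Dt G ρ (emb (fun u => x (u + w))) t v a) =
      fun a => ∃ t, Dt G ρ (emb x) t (v + w) a := by
    funext a
    apply propext
    rw [e]
    constructor
    · rintro ⟨t, ht⟩
      exact ⟨t, (h d Sg St G ρ (emb x) t w v a).mp ht⟩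
    · rintro ⟨t, ht⟩
      exact ⟨t, (h d Sg St G ρ (emb x) t w v a).mpr ht⟩
  show Classical.epsilon (fun a => ∃ t, Dt G ρ (emb (fun u => x (u + w))) t v a) =
    Classical.epsilon (fun a => ∃ t, Dt G ρ (emb x) t (v + w) a)
  rw [e2]

end Pool.Agent.H782.FV
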