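import Pool.Agent.H960.FV.Bas

/-!
Project FV (helper960), piece PHILAW (helper971): the law of the coding.
-/

open MeasureTheory Filter Topology H960FV

namespace Pool.Agent.H971.FV

/-- sets which depend on finitely many coordinates are measurable -/
theorem meas_of_dep {I Sg : Type} [Finite Sg] [MeasurableSpace Sg] [MeasurableSingletonClass Sg]
    (S : Set (I → Sg)) (K : Finset I)
    (h : ∀ ω ω' : I → Sg, (∀ k ∈ K, ω k = ω' k) → (ω ∈ S ↔ ω' ∈ S)) : MeasurableSet S := by
  have e : S = K.restrict ⁻¹' (K.restrict '' S) := by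
    ext ω
    constructor
    · intro hω
      exact ⟨ω, hω, rfl⟩
    · rintro ⟨ω', hω', he⟩
      refine (h ω' ω ?_).1 hω'
      intro k hk
      exact congrFun he ⟨k, hk⟩
  rw [e]
  exact (Finset.measurable_restrict K) (Set.toFinite _).measurableSet

theorem ti_inj {d : ℕ} (w : Z d) : Function.Injective (ti w : Ix d → Ix d) := by
  rintro (⟨x, j⟩ | x) (⟨y, k⟩ | y) h
  · simp only [ti, Sum.inl.injEq, Prod.mk.injEq, add_left_inj] at h
    rw [h.1, h.2]
  · simp [ti] at h
  · simp [ti] at h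
  · simp only [ti, Sum.inr.injEq, add_left_inj] at h
    rw [h]

/-- the output after `t` swaps is measurable -/
theorem dt_meas (h1 : S_dloc) {d : ℕ} [NeZero d] {Sg St : Type} [Finite Sg] [MeasurableSpace Sg]
    [MeasurableSingletonClass Sg] {G : (Z d → Sg) → (Z d → St) → St} {ρ : ℕ} (hG : IsLoc ρ G)
    (t : ℕ) (v : Z d) (a : St) : MeasurableSet {ω : Ix d → Sg | Dt G ρ ω t v a} := by
  classical
  let R := (4 * ρ + 1) * (t + 1)
  let K : Finset (Ix d) := ((bx d R).image fun y => (Sum.inl (y + v, 0) : Ix d)) ∪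
    ((bx d R).image fun y => (Sum.inr (y + v) : Ix d))
  refine meas_of_dep _ K fun ω ω' hK => ?_
  refine h1 d Sg St G ρ hG ω ω' t v a fun y hy => ⟨?_, ?_⟩
  · refine hK _ (Finset.mem_union_left _ (Finset.mem_image.2 ⟨y - v, hy, ?_⟩))
    simp
  · refine hK _ (Finset.mem_union_right _ (Finset.mem_image.2 ⟨y - v, hy, ?_⟩))
    simp

/-- the evaluation depends on finitely many coordinates -/
theorem ev_dep {d : ℕ} {Sg St : Type} {G : (Z d → Sg) → (Z d → St) → St} {ρ : ℕ}
    (hG : IsLoc ρ G) (s0 : Z d → St) (k : ℕ) : ∀ (j : ℕ) (v : Z d), ∃ K : Finset (Z d × ℕ),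
      ∀ B B' : Z d × ℕ → Sg, (∀ b ∈ K, B b = B' b) → ev G B s0 k j v = ev G B' s0 k j v := by
  classical
  induction k with
  | zero => intro j v; exact ⟨∅, fun _ _ _ => rfl⟩
  | succ k ih =>
    intro j v
    choose K hK using fun x : Z d => ih (j + 1) (v + x)
    refine ⟨((bx d ρ).image fun x => (v + x, j)) ∪ (bx d ρ).biUnion K, fun B B' hB => ?_⟩
    simp only [ev]
    refine hG _ _ _ _ (fun x hx => ?_) (fun x hx => ?_)
    · exact hB _ (Finset.mem_union_left _ (Finset.mem_image.2 ⟨x, hx, rfl⟩))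
    · exact hK x B B' fun b hb => hB b (Finset.mem_union_right _ (Finset.mem_biUnion.2 ⟨x, hx, hb⟩))

theorem ev_meas {d : ℕ} {Sg St : Type} [Finite Sg] [MeasurableSpace Sg]
    [MeasurableSingletonClass Sg] {G : (Z d → Sg) → (Z d → St) → St} {ρ : ℕ}
    (hG : IsLoc ρ G) (s0 : Z d → St) (k j : ℕ) (v : Z d) (a : St) :
    MeasurableSet {B : Z d × ℕ → Sg | ev G B s0 k j v = a} := by
  obtain ⟨K, hK⟩ := ev_dep hG s0 k j v
  refine meas_of_dep _ K fun B B' h => ?_
  show ev G B s0 k j v = a ↔ ev G B' s0 k j v = a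
  rw [hK B B' h]

/-- two laws on configurations which agree on cylinders are equal -/
theorem ext_cyl {I St : Type} [Finite St] [Nonempty St] [MeasurableSpace St] [MeasurableSingletonClass St]
    (μ μ' : Measure (I → St)) [IsProbabilityMeasure μ] [IsProbabilityMeasure μ']
    (h : ∀ (Λ : Finset I) (η : I → St), μ {ξ | ∀ v ∈ Λ, ξ v = η v} = μ' {ξ | ∀ v ∈ Λ, ξ v = η v}) :
    μ = μ' := by
  classical
  let C : Set (Set (I → St)) := {s | ∃ (Λ : Finset I) (η : I → St), s = {ξ | ∀ v ∈ Λ, ξ v = η v}}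
  have hgen : (MeasurableSpace.pi : MeasurableSpace (I → St)) = MeasurableSpace.generateFrom C := by
    refine le_antisymm ?_ ?_
    · refine iSup_le fun v => ?_
      rw [MeasurableSpace.comap_le_iff_le_map]
      intro S _
      show MeasurableSet[MeasurableSpace.generateFrom C] ((fun ξ : I → St => ξ v) ⁻¹' S)
      have e : (fun ξ : I → St => ξ v) ⁻¹' S = ⋃ a ∈ S, {ξ : I → St | ξ v = a} := by
        ext ξ; simp
      rw [e]
      refine @MeasurableSet.biUnion _ _ (MeasurableSpace.generateFrom C) _ _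
        (Set.toFinite S).countable fun a _ => ?_
      refine MeasurableSpace.measurableSet_generateFrom ⟨{v}, fun _ => a, ?_⟩
      ext ξ; simp
    · refine MeasurableSpace.generateFrom_le ?_
      rintro s ⟨Λ, η, rfl⟩
      have e : {ξ : I → St | ∀ v ∈ Λ, ξ v = η v} = ⋂ v ∈ Λ, (fun ξ : I → St => ξ v) ⁻¹' {η v} := by
        ext ξ; simp
      rw [e]
      exact Finset.measurableSet_biInter _ fun v _ =>
        (measurable_pi_apply v) (measurableSet_singleton _)
  have hpi : IsPiSystem C := by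
    rintro _ ⟨Λ, η, rfl⟩ _ ⟨Λ', η', rfl⟩ ⟨ξ0, h0, h0'⟩
    refine ⟨Λ ∪ Λ', ξ0, ?_⟩
    ext ξ
    simp only [Set.mem_inter_iff, Set.mem_ofPred_eq, Finset.mem_union]
    constructor
    · rintro ⟨a, b⟩ v (hv | hv)
      · rw [a v hv]; exact (h0 v hv).symm
      · rw [b v hv]; exact (h0' v hv).symm
    · intro a
      exact ⟨fun v hv => (a v (Or.inl hv)).trans (h0 v hv),
        fun v hv => (a v (Or.inr hv)).trans (h0' v hv)⟩
  refine MeasureTheory.ext_of_generate_finite C hgen hpi ?_ (by simp)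
  rintro _ ⟨Λ, η, rfl⟩
  exact h Λ η

/-- outputs persist -/
theorem dt_mono (h2 : S_cons) {d : ℕ} [NeZero d] {Sg St : Type} {G : (Z d → Sg) → (Z d → St) → St}
    {ρ : ℕ} (hG : IsLoc ρ G) {ω : Ix d → Sg} {t : ℕ} {v : Z d} {a : St} (h : Dt G ρ ω t v a) :
    ∀ n, Dt G ρ ω (t + n) v a
  | 0 => h
  | n + 1 => h2 d Sg St G ρ hG ω (t + n) v a (dt_mono h2 hG h n)

/-- outputs are unique -/
theorem dt_unique (h2 : S_cons) (h3 : S_cftp) {d : ℕ} [NeZero d] {Sg St : Type} [Nonempty St]
    {G : (Z d → Sg) → (Z d → St) → St} {ρ : ℕ} (hG : IsLoc ρ G) {ω : Ix d → Sg} {t t' : ℕ}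
    {v : Z d} {a a' : St} (h : Dt G ρ ω t v a) (h' : Dt G ρ ω t' v a') : a = a' := by
  have e1 : Dt G ρ ω (t + t') v a := dt_mono h2 hG h t'
  have e2 : Dt G ρ ω (t + t') v a' := by
    rw [add_comm]; exact dt_mono h2 hG h' t
  obtain ⟨K, hK⟩ := h3 d Sg St G ρ hG _ _ v 0 a e1
  obtain ⟨K', hK'⟩ := h3 d Sg St G ρ hG _ _ v 0 a' e2
  let s0 : Z d → St := fun _ => Classical.arbitrary St
  rw [← hK (max K K') (le_max_left _ _) s0, ← hK' (max K K') (le_max_right _ _) s0]

/-- the law of the coding -/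
theorem philaw (h1 : S_dloc) (h2 : S_cons) (h3 : S_cftp) (h4 : S_pair) (h5 : S_mp) (h6 : S_trans)
    (h7 : S_phimeas) (h8 : S_reidx) : S_philaw := by
  classical
  intro d _ Sg St _ _ _ ν _ _ _ _ _ G ρ hG hTail m _ hm
  obtain ⟨C, c, hc, hT⟩ := hTail
  set M : Measure (Ix d → Sg) := Measure.infinitePi fun _ : Ix d => ν with hM
  set N : Measure (Z d → Sg × Sg) := Measure.infinitePi fun _ : Z d => ν.prod ν with hN
  let π : (Ix d → Sg) → (Z d → Sg × Sg) := fun ω v => (ω (Sum.inl (v, 0)), ω (Sum.inr v))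
  have hπ : MeasurePreserving π M N := h4 d Sg ν
  have hphi : Measurable (phi G ρ : (Z d → Sg × Sg) → Z d → St) := h7 d Sg St G ρ hG
  have key1 : ∀ (ω : Ix d → Sg) t v a, Dt G ρ (emb (π ω)) t v a ↔ Dt G ρ ω t v a :=
    fun ω t v a => h1 d Sg St G ρ hG _ _ t v a fun y _ => ⟨rfl, rfl⟩
  have hΦ : ∀ (ω : Ix d → Sg) t v a, Dt G ρ ω t v a → phi G ρ (π ω) v = a := by
    intro ω t v a hd
    have hex : ∃ a, ∃ t, Dt G ρ (emb (π ω)) t v a := ⟨a, t, (key1 ω t v a).2 hd⟩
    obtain ⟨t', ht'⟩ := Classical.epsilon_spec hex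
    exact dt_unique h2 h3 hG ((key1 ω t' v _).1 ht') hd
  have hprob : IsProbabilityMeasure (N.map (phi G ρ)) :=
    Measure.isProbabilityMeasure_map hphi.aemeasurable
  refine ext_cyl _ _ fun Λ η => ?_
  have hcyl : MeasurableSet {ξ : Z d → St | ∀ v ∈ Λ, ξ v = η v} := by
    have e : {ξ : Z d → St | ∀ v ∈ Λ, ξ v = η v} = ⋂ v ∈ Λ, (fun ξ : Z d → St => ξ v) ⁻¹' {η v} := by
      ext ξ; simp
    rw [e]
    exact Finset.measurableSet_biInter _ fun v _ =>
      (measurable_pi_apply v) (measurableSet_singleton _)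
  rw [Measure.map_apply hphi hcyl, ← hπ.measure_preimage (hphi hcyl).nullMeasurableSet]
  set P : Set (Ix d → Sg) := π ⁻¹' (phi G ρ ⁻¹' {ξ : Z d → St | ∀ v ∈ Λ, ξ v = η v}) with hP
  have hPmem : ∀ ω, ω ∈ P ↔ ∀ v ∈ Λ, phi G ρ (π ω) v = η v := fun ω => Iff.rfl
  -- the main estimate
  have main : ∀ t : ℕ, |m.real {ξ | ∀ v ∈ Λ, ξ v = η v} - M.real P| ≤
      Λ.card * (C * Real.exp (-c * t)) := by
    intro t
    let B : (Ix d → Sg) → (Z d × ℕ → Sg) := fun ω b => Psi G ρ ω t (Sum.inl b)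
    have hB : MeasurePreserving B M (Measure.infinitePi fun _ : Z d × ℕ => ν) :=
      (h8 (Ix d) (Z d × ℕ) Sg ν Sum.inl Sum.inl_injective).comp (h5 d Sg St ν G ρ hG t)
    let s0 : Z d → St := fun _ => Classical.arbitrary St
    let A : ℕ → Set (Ix d → Sg) := fun k => {ω | ∀ v ∈ Λ, ev G (B ω) s0 k 0 v = η v}
    let U : ℕ → Set (Ix d → Sg) := fun k =>
      {ω | ∀ v ∈ Λ, ∃ a, Dt G ρ ω t v a ∧ ∀ k' ≥ k, ev G (B ω) s0 k' 0 v = a}
    let E : Set (Ix d → Sg) := {ω | ∀ v ∈ Λ, ∃ a, Dt G ρ ω t v a}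
    have hAlim : Tendsto (fun k => M.real (A k)) atTop
        (𝓝 (m.real {ξ : Z d → St | ∀ v ∈ Λ, ξ v = η v})) := by
      refine (hm s0 Λ η).congr fun k => ?_
      have hme : MeasurableSet {B : Z d × ℕ → Sg | ∀ v ∈ Λ, ev G B s0 k 0 v = η v} := by
        have e : {B : Z d × ℕ → Sg | ∀ v ∈ Λ, ev G B s0 k 0 v = η v} =
            ⋂ v ∈ Λ, {B : Z d × ℕ → Sg | ev G B s0 k 0 v = η v} := by
          ext B; simp
        rw [e]
        exact Finset.measurableSet_biInter _ fun v _ => ev_meas hG s0 k 0 v (η v)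
      unfold Measure.real
      rw [← hB.measure_preimage hme.nullMeasurableSet]
      rfl
    have hUm : ∀ k, MeasurableSet (U k) := by
      intro k
      have e : U k = ⋂ v ∈ Λ, ⋃ a : St, ({ω : Ix d → Sg | Dt G ρ ω t v a} ∩
          ⋂ k' : ℕ, ⋂ _ : k' ≥ k, B ⁻¹' {B : Z d × ℕ → Sg | ev G B s0 k' 0 v = a}) := by
        ext ω
        simp only [U, Set.mem_ofPred_eq, Set.mem_iInter, Set.mem_iUnion, Set.mem_inter_iff,
          Set.mem_preimage]
      rw [e]
      have : Countable St := Finite.to_countable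
      exact Finset.measurableSet_biInter _ fun v _ => MeasurableSet.iUnion fun a =>
        (dt_meas h1 hG t v a).inter (MeasurableSet.iInter fun k' => MeasurableSet.iInter fun _ =>
          hB.measurable (ev_meas hG s0 k' 0 v a))
    have hmono : Monotone U := by
      intro k l hkl ω hω v hv
      obtain ⟨a, ha, hk⟩ := hω v hv
      exact ⟨a, ha, fun k' hk' => hk k' (hkl.trans hk')⟩
    have hUE : ⋃ k, U k = E := by
      ext ω
      simp only [Set.mem_iUnion]
      constructor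
      · rintro ⟨k, hk⟩ v hv
        obtain ⟨a, ha, -⟩ := hk v hv
        exact ⟨a, ha⟩
      · intro hω
        have h9 : ∀ v : Z d, ∃ K : ℕ, v ∈ Λ → ∃ a, Dt G ρ ω t v a ∧
            ∀ k' ≥ K, ev G (B ω) s0 k' 0 v = a := by
          intro v
          by_cases hv : v ∈ Λ
          · obtain ⟨a, ha⟩ := hω v hv
            obtain ⟨K, hK⟩ := h3 d Sg St G ρ hG _ _ v 0 a ha
            exact ⟨K, fun _ => ⟨a, ha, fun k' hk' => hK k' hk' s0⟩⟩
          · exact ⟨0, fun h => absurd h hv⟩
        choose K hK using h9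
        refine ⟨Λ.sup K, fun v hv => ?_⟩
        obtain ⟨a, ha, hk⟩ := hK v hv
        exact ⟨a, ha, fun k' hk' => hk k' ((Finset.le_sup hv).trans hk')⟩
    have hlim : Tendsto (fun k => M.real (U k)) atTop (𝓝 (M.real E)) := by
      have := tendsto_measure_iUnion_atTop (μ := M) hmono
      rw [hUE] at this
      exact (ENNReal.tendsto_toReal (measure_ne_top M E)).comp this
    have hineq : ∀ k, |M.real (A k) - M.real P| ≤ 1 - M.real (U k) := by
      intro k
      have hc1 : M.real (U k)ᶜ = 1 - M.real (U k) := probReal_compl_eq_one_sub (hUm k)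
      have hsame : ∀ ω ∈ U k, (ω ∈ A k ↔ ω ∈ P) := by
        intro ω hω
        have h10 : ∀ v ∈ Λ, ev G (B ω) s0 k 0 v = phi G ρ (π ω) v := by
          intro v hv
          obtain ⟨a, ha, hk⟩ := hω v hv
          rw [hk k le_rfl, hΦ ω t v a ha]
        constructor
        · intro h v hv
          rw [← h10 v hv]; exact h v hv
        · intro h v hv
          rw [h10 v hv]; exact h v hv
      have i1 : M.real (A k) ≤ M.real P + M.real (U k)ᶜ := by
        refine (measureReal_mono (s₂ := P ∪ (U k)ᶜ) ?_ (measure_ne_top _ _)).trans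
          (measureReal_union_le _ _)
        intro ω hω
        by_cases h : ω ∈ U k
        · exact Or.inl ((hsame ω h).1 hω)
        · exact Or.inr h
      have i2 : M.real P ≤ M.real (A k) + M.real (U k)ᶜ := by
        refine (measureReal_mono (s₂ := A k ∪ (U k)ᶜ) ?_ (measure_ne_top _ _)).trans
          (measureReal_union_le _ _)
        intro ω hω
        by_cases h : ω ∈ U k
        · exact Or.inl ((hsame ω h).2 hω)
        · exact Or.inr h
      rw [abs_le]
      constructor <;> linarith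
    have hfin : |m.real {ξ : Z d → St | ∀ v ∈ Λ, ξ v = η v} - M.real P| ≤ 1 - M.real E :=
      le_of_tendsto_of_tendsto' ((hAlim.sub_const _).abs) (hlim.const_sub 1) hineq
    refine hfin.trans ?_
    have hEm : MeasurableSet E := by
      rw [← hUE]; exact MeasurableSet.iUnion hUm
    rw [← probReal_compl_eq_one_sub hEm]
    have hsub : Eᶜ ⊆ ⋃ v ∈ Λ, {ω : Ix d → Sg | ¬ ∃ a, Dt G ρ ω t v a} := by
      intro ω hω
      simp only [E, Set.mem_compl_iff, Set.mem_ofPred_eq, not_forall] at hω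
      obtain ⟨v, hv, h⟩ := hω
      exact Set.mem_biUnion hv h
    refine (measureReal_mono hsub (measure_ne_top _ _)).trans
      ((measureReal_biUnion_finset_le Λ _).trans ?_)
    calc ∑ v ∈ Λ, M.real {ω : Ix d → Sg | ¬ ∃ a, Dt G ρ ω t v a}
        ≤ ∑ _v ∈ Λ, C * Real.exp (-c * t) := by
          refine Finset.sum_le_sum fun v _ => ?_
          refine le_trans (le_of_eq ?_) (hT t)
          have hmp : MeasurePreserving (fun (W : Ix d → Sg) (i : Ix d) => W (ti v i)) M M :=
            h8 (Ix d) (Ix d) Sg ν (ti v) (ti_inj v)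
          have hme : MeasurableSet {ω : Ix d → Sg | ¬ ∃ a, Dt G ρ ω t 0 a} := by
            have : Countable St := Finite.to_countable
            have e : {ω : Ix d → Sg | ¬ ∃ a, Dt G ρ ω t 0 a} =
                (⋃ a : St, {ω : Ix d → Sg | Dt G ρ ω t 0 a})ᶜ := by
              ext ω; simp
            rw [e]
            exact (MeasurableSet.iUnion fun a => dt_meas h1 hG t 0 a).compl
          unfold Measure.real
          rw [← hmp.measure_preimage hme.nullMeasurableSet]
          congr 2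
          ext ω
          simp only [Set.mem_ofPred_eq, Set.mem_preimage, h6 d Sg St G ρ ω t v 0, zero_add]
      _ = Λ.card * (C * Real.exp (-c * t)) := by
          rw [Finset.sum_const, nsmul_eq_mul]
  -- conclusion
  have hzero : Tendsto (fun t : ℕ => (Λ.card : ℝ) * (C * Real.exp (-c * t))) atTop (𝓝 0) := by
    have h11 : Tendsto (fun t : ℕ => Real.exp (-c * t)) atTop (𝓝 0) := by
      refine Real.tendsto_exp_atBot.comp ?_
      refine (tendsto_natCast_atTop_atTop.const_mul_atTop_of_neg ?_)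
      linarith
    have := (h11.const_mul C).const_mul (Λ.card : ℝ)
    simpa using this
  have habs : |m.real {ξ : Z d → St | ∀ v ∈ Λ, ξ v = η v} - M.real P| ≤ 0 :=
    ge_of_tendsto' hzero main
  have heq : M.real P = m.real {ξ : Z d → St | ∀ v ∈ Λ, ξ v = η v} := by
    have := abs_nonpos_iff.1 habs
    linarith
  exact (measureReal_eq_measureReal_iff (measure_ne_top _ _) (measure_ne_top _ _)).1 heq

end Pool.Agent.H971.FV
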