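import Pool.Agent.H960.FV.Stm

/-!
Project FV (helper960): basic facts about boxes.
-/

open MeasureTheory Filter Topology

namespace H960FV

theorem mem_bx {d r : ℕ} {x : Z d} : x ∈ bx d r ↔ ∀ i, |x i| ≤ (r : ℤ) := by
  simp [bx, Fintype.mem_piFinset, abs_le]

theorem zero_mem_bx {d r : ℕ} : (0 : Z d) ∈ bx d r := by
  rw [mem_bx]; intro i; simp

theorem bx_mono {d r s : ℕ} (h : r ≤ s) {x : Z d} (hx : x ∈ bx d r) : x ∈ bx d s := by
  rw [mem_bx] at *; intro i; exact (hx i).trans (by exact_mod_cast h)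

theorem bx_add {d r s : ℕ} {x y : Z d} (hx : x ∈ bx d r) (hy : y ∈ bx d s) :
    x + y ∈ bx d (r + s) := by
  rw [mem_bx] at *; intro i
  have := abs_add_le (x i) (y i)
  have h1 := hx i; have h2 := hy i
  push_cast
  simp only [Pi.add_apply]
  linarith

theorem bx_neg {d r : ℕ} {x : Z d} (hx : x ∈ bx d r) : -x ∈ bx d r := by
  rw [mem_bx] at *; intro i; simpa using hx i

theorem bx_sub {d r s : ℕ} {x y : Z d} (hx : x ∈ bx d r) (hy : y ∈ bx d s) :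
    x - y ∈ bx d (r + s) := by
  rw [sub_eq_add_neg]; exact bx_add hx (bx_neg hy)

theorem bx_sub_comm {d r : ℕ} {x y : Z d} (h : x - y ∈ bx d r) : y - x ∈ bx d r := by
  have := bx_neg h; rwa [neg_sub] at this

theorem bx_trans {d r s : ℕ} {x y z : Z d} (h : x - y ∈ bx d r) (h' : y - z ∈ bx d s) :
    x - z ∈ bx d (r + s) := by
  have := bx_add h h'; rwa [sub_add_sub_cancel] at this

theorem card_bx {d r : ℕ} : (bx d r).card = (2 * r + 1) ^ d := by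
  rw [bx, Fintype.card_piFinset]
  simp only [Int.card_Icc, Finset.prod_const, Finset.card_univ, Fintype.card_fin]
  congr 1
  omega

theorem sh_mem {d : ℕ} [NeZero d] (t : ℕ) : (sh t : Z d) ∈ bx d (t + 1) := by
  rw [mem_bx]; intro i
  unfold sh
  by_cases h : i = 0
  · subst h; simp only [Pi.single_eq_same]
    rw [abs_of_nonneg (by positivity)]; push_cast; exact le_refl _
  · simp only [Pi.single_eq_of_ne h, abs_zero]; positivity

theorem sh_succ_sub {d : ℕ} [NeZero d] (t : ℕ) : (sh (t + 1) - sh t : Z d) ∈ bx d 1 := by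
  rw [mem_bx]; intro i
  unfold sh
  by_cases h : i = 0
  · subst h; simp
  · simp [Pi.single_eq_of_ne h]

theorem sh_sub {d : ℕ} [NeZero d] {s t : ℕ} (h : s ≤ t) : (sh t - sh s : Z d) ∈ bx d (t - s) := by
  rw [mem_bx]; intro i
  unfold sh
  by_cases h' : i = 0
  · subst h'
    simp only [Pi.sub_apply, Pi.single_eq_same]
    rw [abs_of_nonneg (by push_cast; omega)]
    push_cast [Nat.cast_sub h]; omega
  · simp [Pi.single_eq_of_ne h']

theorem sh_inj {d : ℕ} [NeZero d] {s t : ℕ} (h : (sh s : Z d) = sh t) : s = t := by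
  have := congrFun h 0
  unfold sh at this
  simp at this
  exact this

theorem mem_th {d : ℕ} {V : Finset (Z d)} {r : ℕ} {x : Z d} :
    x ∈ th V r ↔ ∃ v ∈ V, x - v ∈ bx d r := by
  unfold th
  simp only [Finset.mem_image, Finset.mem_product, Prod.exists]
  constructor
  · rintro ⟨a, b, ⟨ha, hb⟩, rfl⟩
    exact ⟨a, ha, by simpa using hb⟩
  · rintro ⟨v, hv, h⟩
    exact ⟨v, x - v, ⟨hv, h⟩, by abel⟩

theorem th_mono {d : ℕ} {V V' : Finset (Z d)} {r r' : ℕ} (h : V ⊆ V') (hr : r ≤ r') :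
    th V r ⊆ th V' r' := by
  intro x hx
  rw [mem_th] at *
  obtain ⟨v, hv, h'⟩ := hx
  exact ⟨v, h hv, bx_mono hr h'⟩

theorem th_card_le {d : ℕ} (V : Finset (Z d)) (r : ℕ) : (th V r).card ≤ V.card * (2 * r + 1) ^ d := by
  unfold th
  refine Finset.card_image_le.trans ?_
  rw [Finset.card_product, card_bx]

theorem mem_bp {d : ℕ} {β : Z d → ℕ → Prop} {i : ℕ} {V : Finset (Z d)} {u : Z d} :
    u ∈ bp β i V ↔ u ∈ V ∧ β u i := by
  classical
  unfold bp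
  simp [Finset.mem_filter]

theorem bp_mono {d : ℕ} {β : Z d → ℕ → Prop} {i : ℕ} {V V' : Finset (Z d)} (h : V ⊆ V') :
    bp β i V ⊆ bp β i V' := by
  intro x hx; rw [mem_bp] at *; exact ⟨h hx.1, hx.2⟩

theorem ex_mono {d : ℕ} {ρ : ℕ} {β : Z d → ℕ → Prop} {V V' : Finset (Z d)} (h : V ⊆ V') (i : ℕ) :
    ex ρ β V i ⊆ ex ρ β V' i := by
  induction i with
  | zero => exact h
  | succ i ih => exact th_mono (bp_mono ih) le_rfl

theorem bn_mono {d : ℕ} {ρ : ℕ} {β : Z d → ℕ → Prop} {V V' : Finset (Z d)} (h : V ⊆ V') (k : ℕ) :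
    bn ρ β V k ≤ bn ρ β V' k := by
  unfold bn
  exact Finset.sum_le_sum fun i _ => Finset.card_le_card (bp_mono (ex_mono h i))

theorem mem_spots {d : ℕ} [NeZero d] {C : Finset (Z d × ℕ × ℕ)} {w : Z d} :
    w ∈ spots C ↔ ∃ x j τ, (x, j, τ) ∈ C ∧ x + sh τ = w := by
  unfold spots
  simp only [Finset.mem_image, Prod.exists]

/-- the bad field at `(u, i)` looks at the window only -/
theorem bf_congr {d : ℕ} {Sg St : Type} {G : (Z d → Sg) → (Z d → St) → St} {ρ : ℕ}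
    (hG : IsLoc ρ G) {B B' : Z d × ℕ → Sg} {u : Z d} {i : ℕ}
    (h : ∀ y ∈ bx d ρ, B (u + y, i) = B' (u + y, i)) : bf G B u i ↔ bf G B' u i := by
  unfold bf Bd
  have key : ∀ s, G (fun x => B (u + x, i)) s = G (fun x => B' (u + x, i)) s :=
    fun s => hG _ _ _ _ h (fun _ _ => rfl)
  simp only [key]

/-- the candidates look at the bad field at full windows only -/
theorem Cand_congr {d : ℕ} {ρ : ℕ} {β β' : Z d → ℕ → Prop} {A : Set (Z d × ℕ)}
    (h : ∀ u i, Full ρ A u i → (β u i ↔ β' u i)) (x : Z d) : Cand ρ β A x = Cand ρ β' A x := by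
  unfold Cand Dem
  ext j
  simp only [Set.mem_setOf_eq]
  constructor
  · rintro ⟨⟨u, i, h1, h2, h3, h4⟩, h5⟩
    exact ⟨⟨u, i, h1, h2, h3, (h u i h3).1 h4⟩, h5⟩
  · rintro ⟨⟨u, i, h1, h2, h3, h4⟩, h5⟩
    exact ⟨⟨u, i, h1, h2, h3, (h u i h3).2 h4⟩, h5⟩

theorem ra_zero {d : ℕ} [NeZero d] {ρ : ℕ} {β : Z d → ℕ → Prop} {a : Z d × ℕ} :
    a ∈ ra ρ β 0 ↔ a.2 = 0 := Iff.rfl

theorem ru_zero {d : ℕ} [NeZero d] {ρ : ℕ} {β : Z d → ℕ → Prop} : ru ρ β 0 = ∅ := rfl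

theorem mem_ra_succ {d : ℕ} [NeZero d] {ρ : ℕ} {β : Z d → ℕ → Prop} {t : ℕ} {a : Z d × ℕ} :
    a ∈ ra ρ β (t + 1) ↔ a ∈ ra ρ β t ∨ (act ρ β t a.1 ∧ a.2 = lv ρ β t a.1) := by
  unfold act lv ra ru
  rw [run]
  simp only [Set.mem_union, Set.mem_setOf_eq, and_assoc]

theorem mem_ru_succ {d : ℕ} [NeZero d] {ρ : ℕ} {β : Z d → ℕ → Prop} {t : ℕ} {w : Z d} :
    w ∈ ru ρ β (t + 1) ↔ w ∈ ru ρ β t ∨ (Cand ρ β (ra ρ β t) (w - sh t)).Nonempty := by
  unfold ra ru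
  rw [run]
  simp only [Set.mem_union, Set.mem_setOf_eq]

theorem lv_mem {d : ℕ} [NeZero d] {ρ : ℕ} {β : Z d → ℕ → Prop} {t : ℕ} {v : Z d}
    (h : (Cand ρ β (ra ρ β t) v).Nonempty) : lv ρ β t v ∈ Cand ρ β (ra ρ β t) v :=
  Nat.sInf_mem h

end H960FV
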