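import Mathlib
import Pool.Agent.H960.FV.Bas

open MeasureTheory Filter Topology

namespace Pool.Agent.H897.FV

open H960FV

theorem meas_loc {I T : Type} [Countable I] [Finite T] [MeasurableSpace T]
    [MeasurableSingletonClass T] (F : Finset I) (E : Set (I → T))
    (h : ∀ x x' : I → T, (∀ y ∈ F, x y = x' y) → (x ∈ E ↔ x' ∈ E)) : MeasurableSet E := by
  let π : (I → T) → (F → T) := fun x y => x y
  have hπ : Measurable π := measurable_pi_iff.2 fun y => measurable_pi_apply (y : I)
  have hE : E = π ⁻¹' (π '' E) := by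
    refine Set.Subset.antisymm (Set.subset_preimage_image π E) ?_
    rintro x ⟨x', hx', hxx'⟩
    refine (h x' x fun y hy => ?_).1 hx'
    exact congrFun hxx' ⟨y, hy⟩
  rw [hE]
  exact hπ (Set.toFinite _).measurableSet

theorem phimeas (h1 : S_dloc) (h2 : S_cons) (h3 : S_cftp) : S_phimeas := by
  intro d _ Sg St _ _ _ _ _ _ _ G ρ hG
  refine measurable_pi_iff.2 fun v => ?_
  have hP : Measurable (fun (x : Z d → Sg × Sg) (a : St) => ∃ t, Dt G ρ (emb x) t v a) := by
    refine measurable_pi_iff.2 fun a => ?_
    refine measurableSet_setOf.1 ?_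
    rw [Set.setOf_exists]
    refine MeasurableSet.iUnion fun t => ?_
    refine meas_loc ((bx d ((4 * ρ + 1) * (t + 1))).image (fun y => y + v)) _ fun x x' hx => ?_
    refine h1 d Sg St G ρ hG (emb x) (emb x') t v a fun y hy => ?_
    have h5 : x y = x' y := hx y (Finset.mem_image.2 ⟨y - v, hy, sub_add_cancel y v⟩)
    constructor
    · show (x y).1 = (x' y).1
      rw [h5]
    · show (x y).2 = (x' y).2
      rw [h5]
  have he : Measurable (Classical.epsilon : (St → Prop) → St) := Measurable.of_discrete
  exact he.comp hP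

end Pool.Agent.H897.FV
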