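import Pool.Agent.H960.FV.Bas

/-!
# Task REIDX (helper86, for helper960): injective reindexing preserves the product measure
-/

open MeasureTheory Filter Topology

namespace Pool.Agent.H86.FV

open H960FV

theorem reidx : S_reidx := by
  intro I J _ _ T _ ν _ e he
  have hm : Measurable (fun (W : I → T) (j : J) => W (e j)) :=
    measurable_pi_lambda _ fun j => measurable_pi_apply (e j)
  refine ⟨hm, Measure.eq_infinitePi _ fun s t ht => ?_⟩
  have h1 : (fun (W : I → T) (j : J) => W (e j)) ⁻¹' (Set.pi (s : Set J) t) =
      Set.pi ((s.map ⟨e, he⟩ : Finset I) : Set I) (Function.extend e t (fun _ => Set.univ)) := by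
    ext W
    simp only [Set.mem_preimage, Set.mem_pi, Finset.mem_coe, Finset.mem_map,
      Function.Embedding.coeFn_mk]
    constructor
    · rintro h i ⟨j, hj, rfl⟩
      rw [he.extend_apply]
      exact h j hj
    · intro h j hj
      have := h (e j) ⟨j, hj, rfl⟩
      rwa [he.extend_apply] at this
  rw [Measure.map_apply hm (MeasurableSet.pi s.countable_toSet fun j _ => ht j), h1,
    Measure.infinitePi_pi, Finset.prod_map]
  · refine Finset.prod_congr rfl fun j _ => ?_
    simp only [Function.Embedding.coeFn_mk]
    rw [he.extend_apply]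
  · intro i hi
    rw [Finset.mem_map] at hi
    obtain ⟨j, -, rfl⟩ := hi
    simp only [Function.Embedding.coeFn_mk]
    rw [he.extend_apply]
    exact ht j

end Pool.Agent.H86.FV
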