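import Pool.Agent.H960.FV.Bas

/-!
Project FV (helper960), task SPEED (helper924): finite speed of propagation of the algorithm.
-/

open MeasureTheory Filter Topology

namespace Pool.Agent.H924.FV

open H960FV

/-- `t` times the first unit vector -/
def tt {d : ℕ} [NeZero d] (t : ℕ) : Z d := Pi.single 0 (t : ℤ)

theorem sh_eq {d : ℕ} [NeZero d] (t : ℕ) : (sh t : Z d) = tt 1 + tt t := by
  unfold sh tt
  rw [← Pi.single_add]
  congr 1
  push_cast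
  ring

theorem tt_succ {d : ℕ} [NeZero d] (t : ℕ) : (tt (t + 1) : Z d) = sh t := by
  unfold sh tt
  push_cast
  rfl

theorem tt_mem {d : ℕ} [NeZero d] : (tt 1 : Z d) ∈ bx d 1 := by
  rw [mem_bx]; intro i
  unfold tt
  by_cases h : i = 0
  · subst h; simp
  · simp [Pi.single_eq_of_ne h]

section

variable {d : ℕ} [NeZero d] {Sg St : Type} {G : (Z d → Sg) → (Z d → St) → St} {ρ : ℕ}

/-- the candidates depend on the served noise nearby -/
theorem cand_sub (hG : IsLoc ρ G) {ω ω' : Ix d → Sg} {t : ℕ} {x : Z d}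
    (ha : ∀ y, y - x ∈ bx d (3 * ρ) → ∀ j, ((y, j) ∈ rat G ρ ω t ↔ (y, j) ∈ rat G ρ ω' t) ∧
      ((y, j) ∈ rat G ρ ω t → Psi G ρ ω t (Sum.inl (y, j)) = Psi G ρ ω' t (Sum.inl (y, j)))) :
    Cand ρ (bt G ρ ω t) (rat G ρ ω t) x ⊆ Cand ρ (bt G ρ ω' t) (rat G ρ ω' t) x := by
  rintro j ⟨⟨u, i, hj, hxu, hF, hb⟩, hnot⟩
  have hw : ∀ y ∈ bx d ρ, (u + y) - x ∈ bx d (3 * ρ) := by
    intro y hy
    have h1 : (u + y) - x = y - (x - u) := by abel
    rw [h1]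
    have := bx_sub hy hxu
    rwa [show ρ + 2 * ρ = 3 * ρ by ring] at this
  refine ⟨⟨u, i, hj, hxu, fun y hy => ((ha _ (hw y hy) i).1).1 (hF y hy), ?_⟩, ?_⟩
  · have hcongr : bf G (fun a => Psi G ρ ω t (Sum.inl a)) u i ↔
        bf G (fun a => Psi G ρ ω' t (Sum.inl a)) u i :=
      bf_congr hG fun y hy => (ha _ (hw y hy) i).2 (hF y hy)
    exact hcongr.1 hb
  · intro h
    refine hnot (((ha x ?_ j).1).2 h)
    rw [sub_self]
    exact zero_mem_bx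

/-- the candidates depend on the served noise nearby -/
theorem cand_eq (hG : IsLoc ρ G) {ω ω' : Ix d → Sg} {t : ℕ} {x : Z d}
    (ha : ∀ y, y - x ∈ bx d (3 * ρ) → ∀ j, ((y, j) ∈ rat G ρ ω t ↔ (y, j) ∈ rat G ρ ω' t) ∧
      ((y, j) ∈ rat G ρ ω t → Psi G ρ ω t (Sum.inl (y, j)) = Psi G ρ ω' t (Sum.inl (y, j)))) :
    Cand ρ (bt G ρ ω t) (rat G ρ ω t) x = Cand ρ (bt G ρ ω' t) (rat G ρ ω' t) x :=
  Set.Subset.antisymm (cand_sub hG ha)
    (cand_sub hG fun y hy j => ⟨(ha y hy j).1.symm, fun h =>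
      ((ha y hy j).2 ((ha y hy j).1.2 h)).symm⟩)

theorem mem_rat_succ (h1 : S_step) (hG : IsLoc ρ G) (ω : Ix d → Sg) (t : ℕ) (x : Z d) (j : ℕ) :
    (x, j) ∈ rat G ρ ω (t + 1) ↔ (x, j) ∈ rat G ρ ω t ∨
      (((Cand ρ (bt G ρ ω t) (rat G ρ ω t) x).Nonempty ∧ x + sh t ∉ ru ρ (bt G ρ ω t) t) ∧
        j = sInf (Cand ρ (bt G ρ ω t) (rat G ρ ω t) x)) := by
  have hs := (h1 d Sg St G ρ hG ω t).1 (t + 1) le_rfl
  have h2 : rat G ρ ω (t + 1) = ra ρ (bt G ρ ω t) (t + 1) := by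
    unfold rat ra
    rw [hs]
  rw [h2]
  exact mem_ra_succ

theorem mem_rut_succ (h1 : S_step) (hG : IsLoc ρ G) (ω : Ix d → Sg) (t : ℕ) (w : Z d) :
    w ∈ ru ρ (bt G ρ ω (t + 1)) (t + 1) ↔ w ∈ ru ρ (bt G ρ ω t) t ∨
      (Cand ρ (bt G ρ ω t) (rat G ρ ω t) (w - sh t)).Nonempty := by
  have hs := (h1 d Sg St G ρ hG ω t).1 (t + 1) le_rfl
  have h2 : ru ρ (bt G ρ ω (t + 1)) (t + 1) = ru ρ (bt G ρ ω t) (t + 1) := by
    unfold ru
    rw [hs]
  rw [h2]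
  exact mem_ru_succ

/-- the value which is served at stage `t` -/
theorem psi_served (h1 : S_step) (hG : IsLoc ρ G) (ω : Ix d → Sg) (t : ℕ) (x : Z d) (j : ℕ)
    (ha : (Cand ρ (bt G ρ ω t) (rat G ρ ω t) x).Nonempty ∧ x + sh t ∉ ru ρ (bt G ρ ω t) t)
    (hj : j = sInf (Cand ρ (bt G ρ ω t) (rat G ρ ω t) x)) :
    Psi G ρ ω (t + 1) (Sum.inl (x, j)) = ω (Sum.inr (x + sh t)) := by
  have h4 := (h1 d Sg St G ρ hG ω t).2.2.2 (x + sh t) ha.2
  have hc : act ρ (bf G (fun a => Psi G ρ ω t (Sum.inl a))) t (x, j).1 ∧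
      (x, j).2 = lv ρ (bf G (fun a => Psi G ρ ω t (Sum.inl a))) t (x, j).1 := ⟨ha, hj⟩
  have h5 : sg ρ (bf G (fun a => Psi G ρ ω t (Sum.inl a))) t (Sum.inl (x, j)) =
      Sum.inr (x + sh t) := by
    unfold sg
    exact if_pos hc
  have h6 : Psi G ρ ω (t + 1) (Sum.inl (x, j)) =
      Psi G ρ ω t (sg ρ (bf G (fun a => Psi G ρ ω t (Sum.inl a))) t (Sum.inl (x, j))) := rfl
  rw [h6, h5, h4]

/-- agreement of two configurations within distance `r` of `x` -/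
def Agr (ω ω' : Ix d → Sg) (x : Z d) (r : ℕ) : Prop :=
  ∀ y, y - x ∈ bx d r → ω (Sum.inl (y, 0)) = ω' (Sum.inl (y, 0)) ∧ ω (Sum.inr y) = ω' (Sum.inr y)

omit [NeZero d] in
theorem Agr.mono {ω ω' : Ix d → Sg} {x y : Z d} {r s m : ℕ} (h : Agr ω ω' x r)
    (hy : y - x ∈ bx d m) (hs : s + m ≤ r) : Agr ω ω' y s := by
  intro z hz
  exact h z (bx_mono hs (bx_trans hz hy))

theorem main (h1 : S_step) (hG : IsLoc ρ G) (ω ω' : Ix d → Sg) : ∀ (t : ℕ) (x : Z d),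
    Agr ω ω' x ((3 * ρ + 1) * t) →
    (∀ j, ((x, j) ∈ rat G ρ ω t ↔ (x, j) ∈ rat G ρ ω' t) ∧
      ((x, j) ∈ rat G ρ ω t → Psi G ρ ω t (Sum.inl (x, j)) = Psi G ρ ω' t (Sum.inl (x, j)))) ∧
    (x + tt t ∈ ru ρ (bt G ρ ω t) t ↔ x + tt t ∈ ru ρ (bt G ρ ω' t) t) := by
  intro t
  induction t with
  | zero =>
    intro x hx
    refine ⟨fun j => ⟨Iff.rfl, fun hj => ?_⟩, Iff.rfl⟩
    have hj0 : j = 0 := hj
    subst hj0
    exact (hx x (by rw [sub_self]; exact zero_mem_bx)).1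
  | succ t ih =>
    intro x hx
    have hR : (3 * ρ + 1) * (t + 1) = (3 * ρ + 1) * t + (3 * ρ + 1) := by ring
    rw [hR] at hx
    have hC : Cand ρ (bt G ρ ω t) (rat G ρ ω t) x = Cand ρ (bt G ρ ω' t) (rat G ρ ω' t) x :=
      cand_eq hG fun y hy j => (ih y (hx.mono hy (by omega))).1 j
    have hx0 : Agr ω ω' x ((3 * ρ + 1) * t) :=
      hx.mono (m := 0) (by rw [sub_self]; exact zero_mem_bx) (by omega)
    have hx1 : Agr ω ω' (x + tt 1) ((3 * ρ + 1) * t) :=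
      hx.mono (m := 1) (by rw [add_sub_cancel_left]; exact tt_mem) (by omega)
    have hspot : x + sh t ∈ ru ρ (bt G ρ ω t) t ↔ x + sh t ∈ ru ρ (bt G ρ ω' t) t := by
      rw [sh_eq, ← add_assoc]
      exact (ih (x + tt 1) hx1).2
    refine ⟨fun j => ⟨?_, ?_⟩, ?_⟩
    · rw [mem_rat_succ h1 hG, mem_rat_succ h1 hG, hC, hspot, ((ih x hx0).1 j).1]
    · intro hj
      by_cases h0 : (x, j) ∈ rat G ρ ω t
      · have h0' := (((ih x hx0).1 j).1).1 h0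
        rw [((h1 d Sg St G ρ hG ω t).2.1 (x, j) h0).2, ((h1 d Sg St G ρ hG ω' t).2.1 (x, j) h0').2]
        exact ((ih x hx0).1 j).2 h0
      · rcases (mem_rat_succ h1 hG ω t x j).1 hj with h | ⟨ha, hl⟩
        · exact absurd h h0
        · rw [psi_served h1 hG ω t x j ha hl, psi_served h1 hG ω' t x j
            (by rw [← hC, ← hspot]; exact ha) (by rw [← hC]; exact hl)]
          refine (hx (x + sh t) ?_).2
          rw [add_sub_cancel_left]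
          refine bx_mono ?_ (sh_mem t)
          nlinarith [Nat.zero_le (ρ * t)]
    · rw [tt_succ, mem_rut_succ h1 hG, mem_rut_succ h1 hG, hspot, add_sub_cancel_right, hC]

end

/-- **Finite speed.** -/
theorem speed (h1 : S_step) (_h2 : S_basic) : S_speed := by
  intro d _ Sg St G ρ hG ω ω' t x hx j
  exact (main h1 hG ω ω' t x hx).1 j

end Pool.Agent.H924.FV
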