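import Pool.Agent.H960.FV.Bas

/-!
Project FV (helper960): consistency of two successive swaps.
-/

set_option autoImplicit false

open H960FV

namespace Pool.Agent.H97.FV

theorem psi_succ {d : ℕ} [NeZero d] {Sg St : Type} (G : (Z d → Sg) → (Z d → St) → St) (ρ : ℕ)
    (ω : Ix d → Sg) (t : ℕ) (i : Ix d) :
    Psi G ρ ω (t + 1) i = Psi G ρ ω t (sg ρ (bt G ρ ω t) t i) := rfl

theorem psi_fix (h2 : S_basic) {d : ℕ} [NeZero d] {Sg St : Type}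
    (G : (Z d → Sg) → (Z d → St) → St) (ρ : ℕ) (ω : Ix d → Sg) (t : ℕ) (a : Z d × ℕ)
    (ha : a ∈ ra ρ (bt G ρ ω t) t) :
    Psi G ρ ω (t + 1) (Sum.inl a) = Psi G ρ ω t (Sum.inl a) := by
  rw [psi_succ, (h2 d ρ (bt G ρ ω t)).2.2.2.2.1 t a ha]

theorem bt_full (h2 : S_basic) {d : ℕ} [NeZero d] {Sg St : Type}
    (G : (Z d → Sg) → (Z d → St) → St) (ρ : ℕ) (hG : IsLoc ρ G) (ω : Ix d → Sg) (t : ℕ)
    (u : Z d) (i : ℕ) (h : Full ρ (ra ρ (bt G ρ ω t) t) u i) :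
    bt G ρ ω (t + 1) u i ↔ bt G ρ ω t u i :=
  bf_congr hG fun y hy => psi_fix h2 G ρ ω t (u + y, i) (h y hy)

theorem run_eq (h1 : S_stop) (h2 : S_basic) {d : ℕ} [NeZero d] {Sg St : Type}
    (G : (Z d → Sg) → (Z d → St) → St) (ρ : ℕ) (hG : IsLoc ρ G) (ω : Ix d → Sg) (t : ℕ) :
    ∀ s ≤ t + 1, run ρ (bt G ρ ω (t + 1)) s = run ρ (bt G ρ ω t) s :=
  h1 d ρ (bt G ρ ω t) (bt G ρ ω (t + 1)) t fun u i h => (bt_full h2 G ρ hG ω t u i h).symm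

theorem psi_inr (h1 : S_stop) (h2 : S_basic) {d : ℕ} [NeZero d] {Sg St : Type}
    (G : (Z d → Sg) → (Z d → St) → St) (ρ : ℕ) (hG : IsLoc ρ G) (ω : Ix d → Sg) :
    ∀ t w, w ∉ ru ρ (bt G ρ ω t) t → Psi G ρ ω t (Sum.inr w) = ω (Sum.inr w) := by
  intro t
  induction t with
  | zero =>
    intro w _
    rfl
  | succ t ih =>
    intro w hw
    have he : ru ρ (bt G ρ ω (t + 1)) (t + 1) = ru ρ (bt G ρ ω t) (t + 1) :=
      congrArg Prod.snd (run_eq h1 h2 G ρ hG ω t (t + 1) le_rfl)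
    rw [he, mem_ru_succ, not_or] at hw
    have hs : sg ρ (bt G ρ ω t) t (Sum.inr w) = Sum.inr w := by
      have hna : ¬ act ρ (bt G ρ ω t) t (w - sh t) := fun h => hw.2 h.1
      unfold sg
      exact if_neg hna
    rw [psi_succ, hs]
    exact ih w hw.1

/-- consistency of two successive swaps -/
theorem step (h1 : S_stop) (h2 : S_basic) : S_step := by
  intro d _ Sg St G ρ hG ω t
  refine ⟨run_eq h1 h2 G ρ hG ω t, ?_, bt_full h2 G ρ hG ω t, psi_inr h1 h2 G ρ hG ω t⟩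
  intro a ha
  refine ⟨?_, psi_fix h2 G ρ ω t a ha⟩
  have he : ra ρ (bt G ρ ω (t + 1)) (t + 1) = ra ρ (bt G ρ ω t) (t + 1) :=
    congrArg Prod.fst (run_eq h1 h2 G ρ hG ω t (t + 1) le_rfl)
  show a ∈ ra ρ (bt G ρ ω (t + 1)) (t + 1)
  rw [he]
  exact ((h2 d ρ (bt G ρ ω t)).2.2.1 (t + 1) t (Nat.le_succ t)).1 ha

end Pool.Agent.H97.FV
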