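import Pool.Agent.H960.FV.Bas

/-! Project FV (helper960): the run looks at the bad field at full windows only. -/

set_option autoImplicit false

namespace Pool.Agent.H21.FV

open H960FV

theorem ra_mono {d : ℕ} [NeZero d] {ρ : ℕ} {β : Z d → ℕ → Prop} {s t : ℕ} (h : s ≤ t) :
    ra ρ β s ⊆ ra ρ β t := by
  induction h with
  | refl => exact fun _ h => h
  | step _ ih => exact fun a ha => mem_ra_succ.2 (Or.inl (ih ha))

theorem stop : S_stop := by
  intro d _ ρ β β' t hβ s
  induction s with
  | zero => intro _; rfl
  | succ s ih =>
    intro hs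
    have h1 := ih (by omega)
    have h2 : ∀ x, Cand ρ β' (run ρ β s).1 x = Cand ρ β (run ρ β s).1 x := by
      intro x
      refine (Cand_congr (fun u i hF => ?_) x).symm
      exact hβ u i fun y hy => ra_mono (by omega : s ≤ t) (hF y hy)
    rw [run, run, h1]
    simp only [h2]

end Pool.Agent.H21.FV
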