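import Pool.Agent.H960.FV.Bas

/-!
Project FV (helper960), task T1: not determined implies a candidate nearby.
-/

open MeasureTheory Filter Topology

namespace Pool.Agent.H443.FV

open H960FV

theorem T1 (hb : S_basic) : S_T1 := by
  intro d _ Sg St _ G ρ hG ω t hno
  by_contra hcon
  push Not at hcon
  obtain ⟨hlev, _, hmono, _, _, _⟩ := hb d ρ (bt G ρ ω t)
  have hcand : ∀ x ∈ bx d (2 * ρ * (t + 1)), ∀ j, j ∉ Cand ρ (bt G ρ ω t) (rat G ρ ω t) x := by
    intro x hx j hj
    have h := hcon x hx
    exact Set.notMem_empty j (h ▸ hj)
  have claim : ∀ n j : ℕ, j + n = t + 1 → ∀ v ∈ bx d (ρ * j), Full ρ (rat G ρ ω t) v j →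
      ∃ a, Out G ρ (fun b => Psi G ρ ω t (Sum.inl b)) (rat G ρ ω t) v j a := by
    intro n
    induction n with
    | zero =>
      intro j hj v _ hfull
      have h0 := hfull 0 zero_mem_bx
      rw [add_zero] at h0
      have := hlev t v j h0
      omega
    | succ n ih =>
      intro j hj v hv hfull
      by_cases hbad : bf G (fun b => Psi G ρ ω t (Sum.inl b)) v j
      · have hF : ∀ y ∈ bx d ρ, Full ρ (rat G ρ ω t) (v + y) (j + 1) := by
          intro y hy z hz
          by_contra hnot
          refine hcand (v + y + z) ?_ (j + 1) ⟨⟨v, j, rfl, ?_, hfull, hbad⟩, hnot⟩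
          · have h1 : v + y + z ∈ bx d (ρ * j + ρ + ρ) := bx_add (bx_add hv hy) hz
            refine bx_mono ?_ h1
            have hjt : j ≤ t := by omega
            have : ρ * j ≤ ρ * t := Nat.mul_le_mul_left _ hjt
            nlinarith
          · have h1 : v + y + z - v = y + z := by abel
            rw [h1]
            have h2 := bx_add hy hz
            rwa [← two_mul] at h2
        have hO : ∀ y ∈ bx d ρ, ∃ a, Out G ρ (fun b => Psi G ρ ω t (Sum.inl b)) (rat G ρ ω t)
            (v + y) (j + 1) a := by
          intro y hy
          refine ih (j + 1) (by omega) (v + y) ?_ (hF y hy)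
          have h1 := bx_add hv hy
          rwa [← Nat.mul_succ] at h1
        classical
        let s : Z d → St := fun y => if h : y ∈ bx d ρ then Classical.choose (hO y h)
          else Classical.arbitrary St
        refine ⟨_, Out.bad v j s hfull fun y hy => ?_⟩
        have : s y = Classical.choose (hO y hy) := by
          show (if h : y ∈ bx d ρ then Classical.choose (hO y h) else Classical.arbitrary St) = _
          rw [dif_pos hy]
        rw [this]
        exact Classical.choose_spec (hO y hy)
      · exact ⟨_, Out.good v j (fun _ => Classical.arbitrary St) hfull hbad⟩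
  apply hno
  refine claim (t + 1) 0 (by omega) 0 zero_mem_bx ?_
  intro y _
  exact (hmono t 0 (Nat.zero_le t)).1 (ra_zero.2 rfl)

end Pool.Agent.H443.FV
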