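import Pool.Agent.H960.FV.Bas

/-!
# FV-T2A (helper161 for helper960): a candidate generates a closed family of triples
-/

set_option autoImplicit false

namespace Pool.Agent.H161.FV

open H960FV

variable {d : ℕ} [NeZero d]

/-- valid triples -/
def Val (ρ : ℕ) (β : Z d → ℕ → Prop) (t : ℕ) (c : Z d × ℕ × ℕ) : Prop :=
  c.2.2 ≤ t ∧ c.2.1 ∈ Cand ρ β (ra ρ β c.2.2) c.1

/-- the successors of a triple: one stage earlier and near, or not later and at the same spot -/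
def Rl (ρ : ℕ) (β : Z d → ℕ → Prop) (t : ℕ) (a b : Z d × ℕ × ℕ) : Prop :=
  Val ρ β t b ∧ ((a.2.2 = b.2.2 + 1 ∧ (b.1 + sh b.2.2) - (a.1 + sh a.2.2) ∈ bx d (3 * ρ + 1)) ∨
    (b.1 + sh b.2.2 = a.1 + sh a.2.2 ∧ b.2.2 ≤ a.2.2))

theorem inv {ρ : ℕ} {β : Z d → ℕ → Prop} {t : ℕ} {c₀ c : Z d × ℕ × ℕ} (h0 : Val ρ β t c₀)
    (hc : Relation.ReflTransGen (Rl ρ β t) c₀ c) :
    Val ρ β t c ∧ (c.1 + sh c.2.2) - (c₀.1 + sh c₀.2.2) ∈ bx d ((3 * ρ + 1) * (t - c.2.2)) := by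
  induction hc with
  | refl => exact ⟨h0, by rw [sub_self]; exact zero_mem_bx⟩
  | tail hab hbc ih =>
    obtain ⟨hv, h⟩ := hbc
    refine ⟨hv, ?_⟩
    rcases h with ⟨h1, h2⟩ | ⟨h1, h2⟩
    · have h3 := ih.1.1
      refine bx_mono (le_of_eq ?_) (bx_trans h2 ih.2)
      rw [h1] at h3 ⊢
      obtain ⟨k, hk⟩ := Nat.exists_eq_add_of_le h3
      rw [hk]
      have e1 : ∀ s : ℕ, s + 1 + k - (s + 1) = k := fun s => by omega
      have e2 : ∀ s : ℕ, s + 1 + k - s = k + 1 := fun s => by omega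
      rw [e1, e2]
      ring
    · rw [h1]
      exact bx_mono (Nat.mul_le_mul_left _ (Nat.sub_le_sub_left h2 t)) ih.2

theorem step_mem {ρ : ℕ} {a b : Z d × ℕ × ℕ} (β : Z d → ℕ → Prop) {t : ℕ}
    (h : Rl ρ β t a b) : (b.1 + sh b.2.2) - (a.1 + sh a.2.2) ∈ bx d (3 * ρ + 1) := by
  rcases h.2 with ⟨-, h2⟩ | ⟨h1, -⟩
  · exact h2
  · rw [h1, sub_self]
    exact zero_mem_bx

/-- **FV-T2A** -/
theorem T2a (hb : S_basic) : S_T2a := by
  classical
  intro d _ ρ β t x0 hne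
  obtain ⟨j0, hj0⟩ := hne
  have hB := hb d ρ β
  have h0 : Val ρ β t (x0, j0, t) := ⟨le_rfl, hj0⟩
  -- finiteness
  have hfin : {c : Z d × ℕ × ℕ | Relation.ReflTransGen (Rl ρ β t) (x0, j0, t) c}.Finite := by
    refine ((((bx d ((3 * ρ + 2) * t)).image fun y => y + x0) ×ˢ
      (Finset.range (t + 2) ×ˢ Finset.range (t + 1))).finite_toSet).subset ?_
    intro c hc
    obtain ⟨h1, h2⟩ := inv h0 hc
    obtain ⟨x, j, τ⟩ := c
    obtain ⟨h3, h4⟩ := h1
    simp only at h2 h3 h4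
    have h5 := hB.2.1 τ x j h4
    rw [Finset.mem_coe, Finset.mem_product, Finset.mem_product, Finset.mem_image,
      Finset.mem_range, Finset.mem_range]
    refine ⟨⟨x - x0, ?_, sub_add_cancel x x0⟩, by simp only; omega, by simp only; omega⟩
    have h6 := bx_add h2 (sh_sub (d := d) h3)
    have h7 : x + sh τ - (x0 + sh t) + (sh t - sh τ) = x - x0 := by abel
    rw [h7] at h6
    refine bx_mono ?_ h6
    have h8 : t - τ ≤ t := Nat.sub_le _ _
    calc (3 * ρ + 1) * (t - τ) + (t - τ) = (3 * ρ + 2) * (t - τ) := by ring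
      _ ≤ (3 * ρ + 2) * t := Nat.mul_le_mul_left _ h8
  have hmem : ∀ c, c ∈ hfin.toFinset ↔ Relation.ReflTransGen (Rl ρ β t) (x0, j0, t) c :=
    fun c => hfin.mem_toFinset
  refine ⟨hfin.toFinset, ?_, ?_, ?_, ?_, ?_⟩
  · exact ⟨j0, (hmem _).2 Relation.ReflTransGen.refl⟩
  · intro x j τ h
    exact (inv h0 ((hmem _).1 h)).1
  · intro x j τ h
    have hc := (hmem _).1 h
    obtain ⟨hτ, ⟨u, i, hji, hxu, hfull, hβ⟩, hnot⟩ := (inv h0 hc).1
    simp only at hτ hji hxu hfull hβ hnot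
    have hnot' : (x, j) ∉ ra ρ β τ := fun h' => hnot (mem_ra_succ.2 (Or.inl h'))
    have hshs : (sh τ - sh (τ + 1) : Z d) ∈ bx d 1 := bx_sub_comm (sh_succ_sub τ)
    by_cases hF : Full ρ (ra ρ β τ) u i
    · left
      refine (hmem _).2 (hc.tail ⟨⟨by simp only; omega, ⟨u, i, hji, hxu, hF, hβ⟩, hnot'⟩,
        Or.inl ⟨rfl, ?_⟩⟩)
      simp only
      rw [add_sub_add_left_eq_sub]
      exact bx_mono (by omega) hshs
    · right
      unfold Full at hF
      push Not at hF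
      obtain ⟨y, hy, hy2⟩ := hF
      have h3 := hfull y hy
      rcases mem_ra_succ.1 h3 with h4 | ⟨h4, h5⟩
      · exact absurd h4 hy2
      · simp only at h4 h5
        have h6 : i ∈ Cand ρ β (ra ρ β τ) (u + y) := by
          rw [h5]
          exact lv_mem h4.1
        refine ⟨i, u, u + y, hji, ?_, hβ, hxu, by rw [add_sub_cancel_left]; exact hy⟩
        refine (hmem _).2 (hc.tail ⟨⟨by simp only; omega, h6⟩, Or.inl ⟨rfl, ?_⟩⟩)
        simp only
        have h7 : u + y + sh τ - (x + sh (τ + 1)) = (y - (x - u)) + (sh τ - sh (τ + 1)) := by abel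
        rw [h7]
        refine bx_mono ?_ (bx_add (bx_sub hy hxu) hshs)
        omega
  · intro x j τ h
    have hc := (hmem _).1 h
    obtain ⟨hτ, hcand⟩ := (inv h0 hc).1
    simp only at hτ hcand
    have hw : x + sh τ ∈ ru ρ β (τ + 1) := by
      refine mem_ru_succ.2 (Or.inr ?_)
      rw [add_sub_cancel_right]
      exact ⟨j, hcand⟩
    have hex : ∃ n, x + sh τ ∈ ru ρ β n := ⟨_, hw⟩
    obtain ⟨n, hn, hmin⟩ : ∃ n, x + sh τ ∈ ru ρ β n ∧ ∀ m < n, x + sh τ ∉ ru ρ β m :=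
      ⟨Nat.find hex, Nat.find_spec hex, fun m hm => Nat.find_min hex hm⟩
    have hnle : n ≤ τ + 1 := by
      by_contra hlt
      exact hmin _ (not_le.1 hlt) hw
    rcases n with _ | σ
    · rw [ru_zero] at hn
      exact absurd hn (Set.notMem_empty _)
    · have h3 := hmin σ (Nat.lt_succ_self σ)
      rcases mem_ru_succ.1 hn with h4 | h4
      · exact absurd h4 h3
      · have hspot : x + sh τ - sh σ + sh σ = x + sh τ := sub_add_cancel _ _
        refine ⟨x + sh τ - sh σ, sInf (Cand ρ β (ra ρ β σ) (x + sh τ - sh σ)), σ, ?_, hspot, rfl,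
          by rw [hspot]; exact h3⟩
        refine (hmem _).2 (hc.tail ⟨⟨by simp only; omega, Nat.sInf_mem h4⟩, Or.inr ⟨hspot, ?_⟩⟩)
        simp only
        omega
  · intro w hw
    obtain ⟨x, j, τ, hc, rfl⟩ := mem_spots.1 hw
    have key : ∀ c : Z d × ℕ × ℕ, Relation.ReflTransGen (Rl ρ β t) (x0, j0, t) c →
        Relation.ReflTransGen (fun a b : Z d => a ∈ spots hfin.toFinset ∧
          b ∈ spots hfin.toFinset ∧ b - a ∈ bx d (3 * ρ + 1)) (x0 + sh t) (c.1 + sh c.2.2) := by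
      intro c hc
      induction hc with
      | refl => exact Relation.ReflTransGen.refl
      | @tail a b hab hbc ih =>
        refine ih.tail ⟨?_, ?_, step_mem β hbc⟩
        · exact mem_spots.2 ⟨a.1, a.2.1, a.2.2, (hmem _).2 hab, rfl⟩
        · exact mem_spots.2 ⟨b.1, b.2.1, b.2.2, (hmem _).2 (hab.tail hbc), rfl⟩
    exact key _ ((hmem _).1 hc)

end Pool.Agent.H161.FV
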