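import Pool.Agent.H960.FV.Bas

/-!
Project FV (helper960): the number of spots is at most a constant times the number of bad sites.
-/

open MeasureTheory Filter Topology

namespace Pool.Agent.H176.FV

open H960FV

theorem T2b (hb : S_basic) (h : S_T2b0) : S_T2b := by
  intro d hd ρ β t x0 C hC
  set V := th (spots C) (2 * ρ + 1) with hV
  have key : ∀ w : Z d, ∃ (z : Z d) (k σ i : ℕ) (u : Z d), w ∈ spots C →
      (z, k, σ) ∈ C ∧ z + sh σ = w ∧ k = sInf (Cand ρ β (ra ρ β σ) z) ∧ z + sh σ ∉ ru ρ β σ ∧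
      k = i + 1 ∧ i ≤ σ ∧ u ∈ bp β i (ex ρ β V i) ∧ z - u ∈ bx d (2 * ρ) := by
    intro w
    by_cases hw : w ∈ spots C
    · obtain ⟨x, j, τ, hx, hxw⟩ := mem_spots.1 hw
      obtain ⟨z, k, σ, h1, h2, h3, h4⟩ := hC.srv x j τ hx
      obtain ⟨i, u, h5, h6, h7, h8⟩ := h d ρ β t x0 C hC z k σ h1
      exact ⟨z, k, σ, i, u, fun _ => ⟨h1, h2.trans hxw, h3, h4, h5, h6, h7, h8⟩⟩
    · exact ⟨0, 0, 0, 0, 0, fun hw' => absurd hw' hw⟩
  choose z k σ i u hk using key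
  have hserved : ∀ w ∈ spots C, ∀ τ, σ w < τ → (z w, k w) ∈ ra ρ β τ := by
    intro w hw τ hτ
    obtain ⟨h1, h2, h3, h4, -⟩ := hk w hw
    have h5 : (z w, k w) ∈ ra ρ β (σ w + 1) :=
      mem_ra_succ.2 (Or.inr ⟨⟨⟨k w, (hC.val _ _ _ h1).2⟩, h4⟩, h3⟩)
    exact (((hb d ρ β).2.2.1) τ (σ w + 1) hτ).1 h5
  have hnot : ∀ w ∈ spots C, (z w, k w) ∉ ra ρ β (σ w) := fun w hw =>
    ((hC.val _ _ _ (hk w hw).1).2).2
  let T : Finset ((Σ _ : ℕ, Z d) × Z d) :=
    ((Finset.range (t + 1)).sigma fun i => bp β i (ex ρ β V i)) ×ˢ bx d (2 * ρ)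
  have hT : T.card = (4 * ρ + 1) ^ d * bn ρ β V (t + 1) := by
    rw [Finset.card_product, Finset.card_sigma, card_bx, bn, mul_comm]
    congr 2
    ring
  rw [← hT]
  refine Finset.card_le_card_of_injOn (fun w => (⟨i w, u w⟩, z w - u w)) ?_ ?_
  · intro w hw
    obtain ⟨h1, h2, h3, h4, h5, h6, h7, h8⟩ := hk w hw
    refine Finset.mem_coe.2 (Finset.mem_product.2 ⟨Finset.mem_sigma.2 ⟨?_, h7⟩, h8⟩)
    exact Finset.mem_range.2 (Nat.lt_succ_of_le (h6.trans (hC.val _ _ _ h1).1))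
  · intro w hw w' hw' heq
    have hw0 : w ∈ spots C := hw
    have hw1 : w' ∈ spots C := hw'
    simp only [Prod.mk.injEq, Sigma.mk.injEq, heq_eq_eq] at heq
    obtain ⟨⟨e1, e2⟩, e3⟩ := heq
    have hz : z w = z w' := by
      rw [e2] at e3
      exact sub_left_injective e3
    have hkk : k w = k w' := by
      rw [(hk w hw0).2.2.2.2.1, (hk w' hw1).2.2.2.2.1, e1]
    have hs : σ w = σ w' := by
      rcases lt_trichotomy (σ w) (σ w') with hlt | heq | hgt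
      · exact absurd (by rw [← hz, ← hkk]; exact hserved w hw0 _ hlt) (hnot w' hw1)
      · exact heq
      · exact absurd (by rw [hz, hkk]; exact hserved w' hw1 _ hgt) (hnot w hw0)
    rw [← (hk w hw0).2.1, ← (hk w' hw1).2.1, hz, hs]

end Pool.Agent.H176.FV
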