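import Pool.Agent.H960.FV.Bas

/-!
Project FV (helper960): tail of the number of bad sites of the exploration (T4)
-/

open MeasureTheory Filter Topology

namespace Pool.Agent.H127.FV

open H960FV

/-- the largest possible exploration -/
noncomputable def Eb {d : ℕ} (ρ : ℕ) (V : Finset (Z d)) : ℕ → Finset (Z d)
  | 0 => V
  | i + 1 => th (Eb ρ V i) (3 * ρ)

theorem bp_sub {d : ℕ} (β : Z d → ℕ → Prop) (i : ℕ) (V : Finset (Z d)) : bp β i V ⊆ V :=
  fun _ hx => (mem_bp.1 hx).1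

theorem ex_sub {d : ℕ} (ρ : ℕ) (β : Z d → ℕ → Prop) (V : Finset (Z d)) (i : ℕ) :
    ex ρ β V i ⊆ Eb ρ V i := by
  induction i with
  | zero => exact subset_rfl
  | succ i ih => exact th_mono ((bp_sub _ _ _).trans ih) le_rfl

theorem bn_le {d : ℕ} (ρ : ℕ) (β : Z d → ℕ → Prop) (V : Finset (Z d)) (k : ℕ) :
    bn ρ β V k ≤ ∑ i ∈ Finset.range k, (Eb ρ V i).card := by
  unfold bn
  exact Finset.sum_le_sum fun i _ =>
    Finset.card_le_card ((bp_sub _ _ _).trans (ex_sub ρ β V i))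

theorem bp_congr {d : ℕ} {β β' : Z d → ℕ → Prop} {i : ℕ} {V : Finset (Z d)}
    (h : ∀ u ∈ V, (β u i ↔ β' u i)) : bp β i V = bp β' i V := by
  ext u
  rw [mem_bp, mem_bp]
  constructor
  · rintro ⟨h1, h2⟩
    exact ⟨h1, (h u h1).1 h2⟩
  · rintro ⟨h1, h2⟩
    exact ⟨h1, (h u h1).2 h2⟩

theorem ex_congr {d : ℕ} {ρ : ℕ} {β β' : Z d → ℕ → Prop} {V : Finset (Z d)} {k : ℕ}
    (h : ∀ i < k, ∀ u ∈ Eb ρ V i, (β u i ↔ β' u i)) (i : ℕ) (hi : i ≤ k) :
    ex ρ β V i = ex ρ β' V i := by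
  induction i with
  | zero => rfl
  | succ i ih =>
    have h1 := ih (by omega)
    change th (bp β i (ex ρ β V i)) (3 * ρ) = th (bp β' i (ex ρ β' V i)) (3 * ρ)
    rw [← h1, bp_congr fun u hu => h i (by omega) u (ex_sub ρ β V i hu)]

theorem bn_congr {d : ℕ} {ρ : ℕ} {β β' : Z d → ℕ → Prop} {V : Finset (Z d)} {k : ℕ}
    (h : ∀ i < k, ∀ u ∈ Eb ρ V i, (β u i ↔ β' u i)) : bn ρ β V k = bn ρ β' V k := by
  unfold bn
  refine Finset.sum_congr rfl fun i hi => ?_
  rw [Finset.mem_range] at hi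
  rw [← ex_congr h i hi.le, bp_congr fun u hu => h i hi u (ex_sub ρ β V i hu)]

/-- functions of finitely many coordinates are measurable -/
theorem meas_fin {I Sg α : Type} [Countable I] [Finite Sg] [MeasurableSpace Sg]
    [MeasurableSingletonClass Sg] [MeasurableSpace α] (f : (I → Sg) → α) (K : Finset I)
    (hK : ∀ ω ω' : I → Sg, (∀ i ∈ K, ω i = ω' i) → f ω = f ω') : Measurable f := by
  classical
  rcases isEmpty_or_nonempty (I → Sg) with hemp | ⟨⟨ω0⟩⟩
  · exact measurable_of_empty f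
  · have h1 : f = (fun x : K → Sg => f fun i => if h : i ∈ K then x ⟨i, h⟩ else ω0 i) ∘
        fun (ω : I → Sg) (i : K) => ω i := by
      funext ω
      refine hK _ _ fun i hi => ?_
      simp [hi]
    rw [h1]
    refine Measurable.comp Measurable.of_discrete ?_
    exact measurable_pi_lambda _ fun i => measurable_pi_apply _

theorem bn_meas {d : ℕ} {Sg St : Type} [Finite Sg] [MeasurableSpace Sg]
    [MeasurableSingletonClass Sg] {G : (Z d → Sg) → (Z d → St) → St} {ρ : ℕ}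
    (hG : IsLoc ρ G) (V : Finset (Z d)) (k : ℕ) :
    Measurable fun B : Z d × ℕ → Sg => (bn ρ (bf G B) V k : ℝ) := by
  classical
  refine meas_fin _ ((Finset.range k).biUnion fun i => (th (Eb ρ V i) ρ).image fun x => (x, i)) ?_
  intro B B' h
  have h1 : bn ρ (bf G B) V k = bn ρ (bf G B') V k := by
    refine bn_congr fun i hi u hu => bf_congr hG fun y hy => ?_
    refine h _ ?_
    rw [Finset.mem_biUnion]
    refine ⟨i, Finset.mem_range.2 hi, Finset.mem_image.2 ⟨u + y, ?_, rfl⟩⟩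
    rw [mem_th]
    exact ⟨u, hu, by simpa using hy⟩
  rw [h1]

theorem T4 (h : S_T4b) : S_T4 := by
  intro d Sg St _ _ _ ν _ G ρ hG p hp hlog V k s
  obtain ⟨lam, hlam⟩ : ∃ lam : ℝ, lam = Real.log 2 / (2 * ρ + 1) ^ d := ⟨_, rfl⟩
  have hlam0 : 0 ≤ lam := by
    rw [hlam]
    exact div_nonneg (Real.log_nonneg (by norm_num)) (by positivity)
  have hb := h d Sg St ν G ρ hG p hp hlog V k
  rw [← hlam] at hb ⊢
  have hm := bn_meas hG V k
  have hint : Integrable (fun B : Z d × ℕ → Sg => Real.exp (lam * (bn ρ (bf G B) V k : ℝ)))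
      (Measure.infinitePi fun _ : Z d × ℕ => ν) := by
    refine Integrable.of_bound (hm.const_mul lam).exp.aestronglyMeasurable
      (Real.exp (lam * ((∑ i ∈ Finset.range k, (Eb ρ V i).card : ℕ) : ℝ))) ?_
    refine Eventually.of_forall fun B => ?_
    rw [Real.norm_eq_abs, abs_of_pos (Real.exp_pos _)]
    refine Real.exp_le_exp.2 (mul_le_mul_of_nonneg_left ?_ hlam0)
    exact_mod_cast bn_le ρ (bf G B) V k
  have h1 := ProbabilityTheory.measure_ge_le_exp_mul_mgf s hlam0 hint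
  refine h1.trans ?_
  rw [neg_mul]
  exact mul_le_mul_of_nonneg_left hb (Real.exp_pos _).le

end Pool.Agent.H127.FV
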