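import Pool.Agent.H960.FV.Bas

/-!
Project FV (helper960), task T4A (helper276): exponential moment of the number of bad sites,
Hoelder over residue classes.
-/

set_option autoImplicit false
set_option linter.unusedSectionVars false

open MeasureTheory Filter Topology

namespace Pool.Agent.H276.FV

open H960FV

theorem meas_loc {I Sg : Type} [Finite Sg] [MeasurableSpace Sg] [MeasurableSingletonClass Sg]
    (K : Finset I) (s : Set (I → Sg))
    (h : ∀ a a' : I → Sg, (∀ k ∈ K, a k = a' k) → a ∈ s → a' ∈ s) : MeasurableSet s := by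
  set r : (I → Sg) → (K → Sg) := fun a k => a k with hr
  have hrm : Measurable r := measurable_pi_lambda _ fun k => measurable_pi_apply _
  have e : s = r ⁻¹' (r '' s) := by
    ext a
    constructor
    · intro ha
      exact ⟨a, ha, rfl⟩
    · rintro ⟨a', ha', he⟩
      refine h a' a ?_ ha'
      intro k hk
      exact congrFun he ⟨k, hk⟩
  rw [e]
  exact hrm (Set.toFinite _).measurableSet

section

variable {d : ℕ} {Sg St : Type} [Finite Sg] [MeasurableSpace Sg] [MeasurableSingletonClass Sg]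

theorem meas_bd {G : (Z d → Sg) → (Z d → St) → St} {ρ : ℕ} (hG : IsLoc ρ G) (u : Z d) :
    MeasurableSet {a : Z d → Sg | Bd G (fun x => a (u + x))} := by
  refine meas_loc ((bx d ρ).image fun x => u + x) _ ?_
  intro a a' h ha
  obtain ⟨s, s', hs⟩ := ha
  refine ⟨s, s', ?_⟩
  have key : ∀ s, G (fun x => a (u + x)) s = G (fun x => a' (u + x)) s :=
    fun s => hG _ _ _ _ (fun x hx => h _ (Finset.mem_image_of_mem _ hx)) (fun _ _ => rfl)
  rw [← key, ← key]
  exact hs

open Classical in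
theorem card_bp_eq {G : (Z d → Sg) → (Z d → St) → St} (a : Z d → Sg) (V : Finset (Z d)) :
    ((bp (fun u _ => Bd G (fun x => a (u + x))) 0 V).card : ℝ) =
      ∑ u ∈ V, if a ∈ {a : Z d → Sg | Bd G (fun x => a (u + x))} then (1 : ℝ) else 0 := by
  unfold bp
  rw [Finset.card_filter]
  push_cast
  rfl

theorem meas_card {G : (Z d → Sg) → (Z d → St) → St} {ρ : ℕ} (hG : IsLoc ρ G)
    (V : Finset (Z d)) :
    Measurable fun a : Z d → Sg => ((bp (fun u _ => Bd G (fun x => a (u + x))) 0 V).card : ℝ) := by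
  classical
  have e : (fun a : Z d → Sg => ((bp (fun u _ => Bd G (fun x => a (u + x))) 0 V).card : ℝ)) =
      fun a : Z d → Sg => ∑ u ∈ V,
        if a ∈ {a : Z d → Sg | Bd G (fun x => a (u + x))} then (1 : ℝ) else 0 := by
    funext a
    rw [card_bp_eq]
  rw [e]
  exact Finset.measurable_sum _ fun u _ =>
    Measurable.ite (meas_bd hG u) measurable_const measurable_const

theorem bp_card_le (β : Z d → ℕ → Prop) (i : ℕ) (V : Finset (Z d)) :
    (bp β i V).card ≤ V.card := by
  refine Finset.card_le_card ?_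
  intro u hu
  exact (mem_bp.1 hu).1

theorem integ {G : (Z d → Sg) → (Z d → St) → St} {ρ : ℕ} (hG : IsLoc ρ G) (V : Finset (Z d))
    {θ : ℝ} (hθ : 0 ≤ θ) (ν : Measure Sg) [IsProbabilityMeasure ν] :
    Integrable (fun a : Z d → Sg =>
      Real.exp (θ * (bp (fun u _ => Bd G (fun x => a (u + x))) 0 V).card))
      (Measure.infinitePi fun _ : Z d => ν) := by
  refine Integrable.of_bound
    (Real.measurable_exp.comp ((meas_card hG V).const_mul θ)).aestronglyMeasurable
    (Real.exp (θ * V.card)) ?_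
  refine Filter.Eventually.of_forall fun a => ?_
  rw [Real.norm_eq_abs, abs_of_pos (Real.exp_pos _), Real.exp_le_exp]
  refine mul_le_mul_of_nonneg_left ?_ hθ
  exact_mod_cast bp_card_le _ _ _

end

/-- residue class -/
def cls (d ρ : ℕ) (u : Z d) : Fin d → ZMod (2 * ρ + 1) := fun i => (u i : ZMod (2 * ρ + 1))

theorem cls_disj {d ρ : ℕ} {u u' : Z d} (h : cls d ρ u = cls d ρ u') (hne : u ≠ u') :
    u - u' ∉ bx d (2 * ρ) := by
  intro hb
  rw [mem_bx] at hb
  apply hne
  funext i
  have h1 : (u i : ZMod (2 * ρ + 1)) = (u' i : ZMod (2 * ρ + 1)) := congrFun h i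
  rw [ZMod.intCast_eq_intCast_iff_dvd_sub] at h1
  have h2 := hb i
  rw [Pi.sub_apply] at h2
  by_contra h3
  have h4 : u' i - u i ≠ 0 := fun h5 => h3 (by omega)
  have h5 := Int.le_of_dvd (abs_pos.2 h4) ((dvd_abs _ _).2 h1)
  rw [abs_sub_comm] at h5
  push_cast at h5 h2
  omega

/-- **Task T4A.** -/
theorem T4a (h : S_T4a1) : S_T4a := by
  classical
  intro d Sg St _ _ _ ν _ G ρ hG p hp V θ hθ
  obtain ⟨m, hm⟩ : ∃ m : ℕ, m = (2 * ρ + 1) ^ d := ⟨_, rfl⟩
  have hm0 : 0 < m := by
    rw [hm]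
    positivity
  have hmR : (0 : ℝ) < m := by exact_mod_cast hm0
  have hmR' : ((2 : ℝ) * ρ + 1) ^ d = m := by
    rw [hm]
    push_cast
    rfl
  have hcard : Fintype.card (Fin d → ZMod (2 * ρ + 1)) = m := by
    rw [hm, Fintype.card_fun, ZMod.card, Fintype.card_fin]
  rw [hmR']
  set μ : Measure (Z d → Sg) := Measure.infinitePi fun _ : Z d => ν with hμ
  obtain ⟨W, hW⟩ : ∃ W : (Fin d → ZMod (2 * ρ + 1)) → Finset (Z d),
      W = fun c => V.filter fun u => cls d ρ u = c := ⟨_, rfl⟩
  have hWd : ∀ c, ∀ u ∈ W c, ∀ u' ∈ W c, u ≠ u' → u - u' ∉ bx d (2 * ρ) := by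
    intro c u hu u' hu' hne
    rw [hW] at hu hu'
    have h1 := (Finset.mem_filter.1 hu).2
    have h2 := (Finset.mem_filter.1 hu').2
    exact cls_disj (h1.trans h2.symm) hne
  obtain ⟨N, hN⟩ : ∃ N : Finset (Z d) → (Z d → Sg) → ℝ, N = fun V a =>
      ((bp (fun u _ => Bd G (fun x => a (u + x))) 0 V).card : ℝ) := ⟨_, rfl⟩
  have hNsum : ∀ a, N V a = ∑ c, N (W c) a := by
    intro a
    rw [hN]
    simp only
    rw [Finset.card_eq_sum_card_fiberwise (f := cls d ρ) (t := Finset.univ)
      (fun _ _ => Finset.mem_univ _)]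
    push_cast
    refine Finset.sum_congr rfl fun c _ => ?_
    congr 2
    ext u
    rw [Finset.mem_filter, mem_bp, mem_bp, hW, Finset.mem_filter]
    tauto
  have hVsum : (V.card : ℝ) = ∑ c, ((W c).card : ℝ) := by
    rw [Finset.card_eq_sum_card_fiberwise (f := cls d ρ) (t := Finset.univ)
      (fun _ _ => Finset.mem_univ _), hW]
    push_cast
    rfl
  have hmθ : 0 ≤ (m : ℝ) * θ := by positivity
  have hint : ∀ V : Finset (Z d), ∀ θ : ℝ, 0 ≤ θ →
      Integrable (fun a : Z d → Sg => Real.exp (θ * N V a)) μ := by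
    intro V θ hθ
    rw [hN]
    exact integ hG V hθ ν
  have hNm : ∀ V, Measurable (N V) := by
    intro V
    rw [hN]
    exact meas_card hG V
  obtain ⟨B, hB⟩ : ∃ B : ℝ, B = p * (Real.exp (m * θ) - 1) := ⟨_, rfl⟩
  have hcls : ∀ c, ∫⁻ a, ENNReal.ofReal (Real.exp (m * θ * N (W c) a)) ∂μ ≤
      ENNReal.ofReal (Real.exp (B * (W c).card)) := by
    intro c
    have h1 := h d Sg St ν G ρ hG p hp (W c) (m * θ) hmθ (hWd c)
    rw [← ofReal_integral_eq_lintegral_ofReal (hint (W c) (m * θ) hmθ)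
      (Filter.Eventually.of_forall fun a => (Real.exp_pos _).le)]
    apply ENNReal.ofReal_le_ofReal
    rw [hB]
    rw [hN]
    exact h1
  have hpow : ∀ x : ℝ, ENNReal.ofReal (Real.exp x) ^ ((1 : ℝ) / m) =
      ENNReal.ofReal (Real.exp (x * (1 / m))) := by
    intro x
    rw [ENNReal.ofReal_rpow_of_pos (Real.exp_pos _), ← Real.exp_mul]
  have hH := ENNReal.lintegral_prod_norm_pow_le (μ := μ) (Finset.univ : Finset (Fin d → ZMod (2 * ρ + 1)))
    (f := fun c a => ENNReal.ofReal (Real.exp (m * θ * N (W c) a)))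
    (fun c _ => (((hNm (W c)).const_mul (m * θ)).exp.ennreal_ofReal).aemeasurable)
    (p := fun _ => (1 : ℝ) / m)
    (by
      rw [Finset.sum_const, Finset.card_univ, hcard, nsmul_eq_mul]
      field_simp)
    (fun _ _ => by positivity)
  have hleft : ∀ a, ∏ c, ENNReal.ofReal (Real.exp (m * θ * N (W c) a)) ^ ((1 : ℝ) / m) =
      ENNReal.ofReal (Real.exp (θ * N V a)) := by
    intro a
    rw [hNsum, Finset.mul_sum, Real.exp_sum,
      ENNReal.ofReal_prod_of_nonneg (fun _ _ => (Real.exp_pos _).le)]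
    refine Finset.prod_congr rfl fun c _ => ?_
    rw [hpow]
    congr 2
    field_simp
  have hright : ∏ c, (∫⁻ a, ENNReal.ofReal (Real.exp (m * θ * N (W c) a)) ∂μ) ^ ((1 : ℝ) / m) ≤
      ENNReal.ofReal (Real.exp (B * V.card / m)) := by
    have h1 : ENNReal.ofReal (Real.exp (B * V.card / m)) =
        ∏ c, ENNReal.ofReal (Real.exp (B * (W c).card)) ^ ((1 : ℝ) / m) := by
      rw [hVsum, Finset.mul_sum, Finset.sum_div, Real.exp_sum,
        ENNReal.ofReal_prod_of_nonneg (fun _ _ => (Real.exp_pos _).le)]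
      refine Finset.prod_congr rfl fun c _ => ?_
      rw [hpow]
      congr 2
      ring
    rw [h1]
    refine Finset.prod_le_prod' fun c _ => ?_
    exact ENNReal.rpow_le_rpow (hcls c) (by positivity)
  have hfin : ∫⁻ a, ENNReal.ofReal (Real.exp (θ * N V a)) ∂μ ≤
      ENNReal.ofReal (Real.exp (B * V.card / m)) := by
    refine le_trans (le_of_eq ?_) (hH.trans hright)
    refine lintegral_congr fun a => ?_
    exact (hleft a).symm
  rw [← ofReal_integral_eq_lintegral_ofReal (hint V θ hθ)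
      (Filter.Eventually.of_forall fun a => (Real.exp_pos _).le)] at hfin
  have h2 := (ENNReal.ofReal_le_ofReal_iff (Real.exp_pos _).le).1 hfin
  rw [hB, hN] at h2
  exact h2

end Pool.Agent.H276.FV
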