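import Pool.Agent.H960.FV.Bas

/-!
Project FV (helper960), part T4a1: exponential moment of the number of bad sites of a set whose
windows are disjoint. (helper280)
-/

open MeasureTheory Filter Topology ProbabilityTheory

namespace Pool.Agent.H280.FV

open H960FV

section loc

variable {d : ℕ} {Sg : Type}

/-- the function looks at the coordinates in `S` only -/
def Loc (S : Finset (Z d)) (f : (Z d → Sg) → ℝ) : Prop :=
  ∀ a a' : Z d → Sg, (∀ x ∈ S, a x = a' x) → f a = f a'

/-- extension of a finite configuration -/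
noncomputable def extd (s₀ : Sg) (S : Finset (Z d)) (b : S → Sg) : Z d → Sg := by
  classical
  exact fun x => if h : x ∈ S then b ⟨x, h⟩ else s₀

theorem Loc.fact {S : Finset (Z d)} {f : (Z d → Sg) → ℝ} (hf : Loc S f) (s₀ : Sg) (a : Z d → Sg) :
    f a = f (extd s₀ S (fun x : S => a x)) := by
  apply hf
  intro x hx
  unfold extd
  rw [dif_pos hx]

theorem Loc.mono {S T : Finset (Z d)} {f : (Z d → Sg) → ℝ} (hf : Loc S f) (h : S ⊆ T) : Loc T f :=
  fun a a' haa => hf a a' (fun x hx => haa x (h hx))

theorem Loc.prod {ι : Type} (V : Finset ι) (S : Finset (Z d)) (f : ι → (Z d → Sg) → ℝ)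
    (hf : ∀ i ∈ V, Loc S (f i)) : Loc S (fun a => ∏ i ∈ V, f i a) := by
  intro a a' haa
  exact Finset.prod_congr rfl (fun i hi => hf i hi a a' haa)

variable [Finite Sg] [MeasurableSpace Sg] [MeasurableSingletonClass Sg]

theorem Loc.meas {S : Finset (Z d)} {f : (Z d → Sg) → ℝ} (hf : Loc S f) (s₀ : Sg) :
    Measurable f := by
  have h1 : f = (fun b : S → Sg => f (extd s₀ S b)) ∘ (fun (a : Z d → Sg) (x : S) => a x) := by
    funext a
    exact hf.fact s₀ a
  rw [h1]
  refine Measurable.comp (measurable_of_finite _) ?_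
  fun_prop

theorem Loc.integral_mul {S T : Finset (Z d)} (hST : Disjoint S T) {f g : (Z d → Sg) → ℝ}
    (hf : Loc S f) (hg : Loc T g) (s₀ : Sg) (ν : Measure Sg) [IsProbabilityMeasure ν] :
    ∫ a, f a * g a ∂(Measure.infinitePi fun _ : Z d => ν) =
      (∫ a, f a ∂(Measure.infinitePi fun _ : Z d => ν)) *
        ∫ a, g a ∂(Measure.infinitePi fun _ : Z d => ν) := by
  have h1 : iIndepFun (fun (i : Z d) (ω : Z d → Sg) => ω i)
      (Measure.infinitePi fun _ : Z d => ν) :=
    iIndepFun_infinitePi (X := fun (_ : Z d) (ω : Sg) => ω) (by fun_prop)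
  have h2 := h1.indepFun_finset S T hST (fun i => measurable_pi_apply i)
  have h3 := h2.comp (φ := fun b : S → Sg => f (extd s₀ S b))
    (ψ := fun b : T → Sg => g (extd s₀ T b)) (measurable_of_finite _) (measurable_of_finite _)
  have e1 : (fun b : S → Sg => f (extd s₀ S b)) ∘ (fun (a : Z d → Sg) (x : S) => a x) = f := by
    funext a
    exact (hf.fact s₀ a).symm
  have e2 : (fun b : T → Sg => g (extd s₀ T b)) ∘ (fun (a : Z d → Sg) (x : T) => a x) = g := by
    funext a
    exact (hg.fact s₀ a).symm
  have h4 : IndepFun f g (Measure.infinitePi fun _ : Z d => ν) := by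
    rw [← e1, ← e2]
    exact h3
  exact h4.integral_fun_mul_eq_mul_integral (hf.meas s₀).aestronglyMeasurable
    (hg.meas s₀).aestronglyMeasurable

omit [Finite Sg] [MeasurableSingletonClass Sg] in
/-- translation invariance -/
theorem trans_inv (ν : Measure Sg) [IsProbabilityMeasure ν] (u : Z d) (f : (Z d → Sg) → ℝ)
    (hf : Measurable f) :
    ∫ a, f (fun x => a (u + x)) ∂(Measure.infinitePi fun _ : Z d => ν) =
      ∫ a, f a ∂(Measure.infinitePi fun _ : Z d => ν) := by
  have h := Measure.map_infinitePi_infinitePi_of_inj (P := fun _ : Z d => ν)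
    (f := fun x : Z d => u + x) (add_right_injective u)
  have hm : Measurable (fun (ω : Z d → Sg) (i : Z d) => ω (u + i)) := by fun_prop
  have e := integral_map (μ := Measure.infinitePi fun _ : Z d => ν) hm.aemeasurable
    (f := f) hf.aestronglyMeasurable
  rw [h] at e
  exact e.symm

/-- the expectation of a product of functions which look at disjoint sets -/
theorem integral_prod_loc {ι : Type} (V : Finset ι) (S : ι → Finset (Z d))
    (hS : ∀ i ∈ V, ∀ j ∈ V, i ≠ j → Disjoint (S i) (S j)) (f : ι → (Z d → Sg) → ℝ)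
    (hf : ∀ i ∈ V, Loc (S i) (f i)) (s₀ : Sg) (ν : Measure Sg) [IsProbabilityMeasure ν] :
    ∫ a, ∏ i ∈ V, f i a ∂(Measure.infinitePi fun _ : Z d => ν) =
      ∏ i ∈ V, ∫ a, f i a ∂(Measure.infinitePi fun _ : Z d => ν) := by
  classical
  induction V using Finset.induction_on with
  | empty => simp
  | insert i V hi ih =>
    have ih' := ih (fun i' hi' j' hj' h => hS i' (Finset.mem_insert_of_mem hi') j'
      (Finset.mem_insert_of_mem hj') h) (fun i' hi' => hf i' (Finset.mem_insert_of_mem hi'))
    rw [Finset.prod_insert hi, ← ih']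
    have h1 : Loc (V.biUnion S) (fun a => ∏ j ∈ V, f j a) := by
      apply Loc.prod
      intro j hj
      exact (hf j (Finset.mem_insert_of_mem hj)).mono (Finset.subset_biUnion_of_mem S hj)
    have h2 : Disjoint (S i) (V.biUnion S) := by
      rw [Finset.disjoint_biUnion_right]
      intro j hj
      exact hS i (Finset.mem_insert_self i V) j (Finset.mem_insert_of_mem hj)
        (fun h => hi (h ▸ hj))
    have h3 := Loc.integral_mul h2 (hf i (Finset.mem_insert_self i V)) h1 s₀ ν
    simp_rw [Finset.prod_insert hi]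
    exact h3

end loc

open Classical in
theorem T4a1 : S_T4a1 := by
  intro d Sg St _ _ _ ν _ G ρ hG p hp V θ hθ hV
  have hne : Nonempty Sg := by
    by_contra h
    rw [not_nonempty_iff] at h
    have h1 : ν Set.univ = 1 := measure_univ
    rw [Set.univ_eq_empty_iff.mpr h, measure_empty] at h1
    exact zero_ne_one h1
  obtain ⟨s₀⟩ := hne
  set μ := Measure.infinitePi fun _ : Z d => ν with hμ
  -- the factor at `u`
  let X : Z d → (Z d → Sg) → ℝ := fun u a => if Bd G (fun x => a (u + x)) then Real.exp θ else 1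
  let S : Z d → Finset (Z d) := fun u => (bx d ρ).image (fun x => u + x)
  have hX : ∀ u, Loc (S u) (X u) := by
    intro u a a' haa
    have h1 : Bd G (fun x => a (u + x)) ↔ Bd G (fun x => a' (u + x)) := by
      have key : ∀ s, G (fun x => a (u + x)) s = G (fun x => a' (u + x)) s :=
        fun s => hG _ _ _ _ (fun x hx => haa _ (Finset.mem_image_of_mem _ hx)) (fun _ _ => rfl)
      unfold Bd
      simp only [key]
    show (if Bd G (fun x => a (u + x)) then Real.exp θ else 1) =
      if Bd G (fun x => a' (u + x)) then Real.exp θ else 1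
    simp only [h1]
  have hS : ∀ u ∈ V, ∀ u' ∈ V, u ≠ u' → Disjoint (S u) (S u') := by
    intro u hu u' hu' huu
    rw [Finset.disjoint_left]
    intro y hy hy'
    rw [Finset.mem_image] at hy hy'
    obtain ⟨x, hx, rfl⟩ := hy
    obtain ⟨x', hx', hxx⟩ := hy'
    apply hV u hu u' hu' huu
    have : u - u' = x' - x := by
      rw [sub_eq_sub_iff_add_eq_add, ← hxx]
      abel
    rw [this, two_mul]
    exact bx_sub hx' hx
  have e1 : ∀ a : Z d → Sg, Real.exp (θ * (bp (fun u _ => Bd G (fun x => a (u + x))) 0 V).card) =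
      ∏ u ∈ V, X u a := by
    intro a
    show _ = ∏ u ∈ V, (if Bd G (fun x => a (u + x)) then Real.exp θ else 1)
    rw [← Finset.prod_filter, Finset.prod_const, ← Real.exp_nat_mul, mul_comm]
    rfl
  simp_rw [e1]
  rw [integral_prod_loc V S hS X (fun u _ => hX u) s₀ ν]
  -- one factor
  have e2 : ∀ u, ∫ a, X u a ∂μ = 1 + (Real.exp θ - 1) * μ.real {a | Bd G a} := by
    intro u
    have h0 : Measurable (X 0) := (hX 0).meas s₀
    have h1 : ∀ a : Z d → Sg, X u a = X 0 (fun x => a (u + x)) := by
      intro a
      show (if Bd G (fun x => a (u + x)) then Real.exp θ else 1) =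
        if Bd G (fun x => a (u + (0 + x))) then Real.exp θ else 1
      simp only [zero_add]
    simp_rw [h1]
    rw [trans_inv ν u (X 0) h0]
    have h2 : ∀ a : Z d → Sg, X 0 a = 1 + (Real.exp θ - 1) * Set.indicator {a | Bd G a} 1 a := by
      intro a
      show (if Bd G (fun x => a (0 + x)) then Real.exp θ else 1) = _
      simp only [zero_add]
      by_cases h : Bd G a
      · have h' : a ∈ {a | Bd G a} := h
        rw [if_pos h, Set.indicator_of_mem h', Pi.one_apply]
        ring
      · have h' : a ∉ {a | Bd G a} := h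
        rw [if_neg h, Set.indicator_of_notMem h']
        ring
    have hms : MeasurableSet {a : Z d → Sg | Bd G a} := by
      have h3 : {a : Z d → Sg | Bd G a} =
          (fun (a : Z d → Sg) (x : bx d ρ) => a x) ⁻¹' {b | Bd G (extd s₀ (bx d ρ) b)} := by
        ext a
        have key : ∀ s, G a s = G (extd s₀ (bx d ρ) (fun x : bx d ρ => a x)) s := by
          intro s
          apply hG _ _ _ _ _ (fun _ _ => rfl)
          intro x hx
          unfold extd
          rw [dif_pos hx]
        show Bd G a ↔ Bd G (extd s₀ (bx d ρ) (fun x : bx d ρ => a x))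
        unfold Bd
        simp only [key]
      rw [h3]
      have h4 : Measurable (fun (a : Z d → Sg) (x : bx d ρ) => a x) := by fun_prop
      exact h4 (Set.toFinite _).measurableSet
    simp_rw [h2]
    rw [integral_add (integrable_const _), integral_const_mul, integral_indicator_one hms]
    · rw [integral_const, probReal_univ, smul_eq_mul, one_mul]
    · exact ((integrable_const (1 : ℝ)).indicator hms).const_mul _
  have e3 : ∏ u ∈ V, ∫ a, X u a ∂μ = (1 + (Real.exp θ - 1) * μ.real {a | Bd G a}) ^ V.card := by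
    rw [Finset.prod_congr rfl (fun u _ => e2 u), Finset.prod_const]
  rw [e3]
  have hexp : 0 ≤ Real.exp θ - 1 := by
    have := Real.one_le_exp hθ
    linarith
  have hm0 : 0 ≤ μ.real {a | Bd G a} := measureReal_nonneg
  have e4 : 1 + (Real.exp θ - 1) * μ.real {a | Bd G a} ≤ Real.exp (p * (Real.exp θ - 1)) := by
    have h1 := Real.add_one_le_exp (p * (Real.exp θ - 1))
    have h2 : (Real.exp θ - 1) * μ.real {a | Bd G a} ≤ (Real.exp θ - 1) * p :=
      mul_le_mul_of_nonneg_left hp hexp
    linarith
  calc (1 + (Real.exp θ - 1) * μ.real {a | Bd G a}) ^ V.card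
      ≤ (Real.exp (p * (Real.exp θ - 1))) ^ V.card := pow_le_pow_left₀ (by positivity) e4 _
    _ = Real.exp (p * (Real.exp θ - 1) * V.card) := by
        rw [← Real.exp_nat_mul]
        congr 1
        ring

end Pool.Agent.H280.FV
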