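import Pool.Agent.H960.FV.Bas

/-!
Project FV (helper960), MP_fe4781_pr: exponential tail of the algorithm (T5).
-/

open MeasureTheory Filter Topology

namespace Pool.Agent.H224.FV

open H960FV

theorem T5 (h1 : S_T1) (h2 : S_mp) (h3 : S_T5d) (h4 : S_reidx) : S_T5 := by
  intro d _
  obtain ⟨K, D, h⟩ := h3 d
  refine ⟨K, D, ?_⟩
  intro Sg St _ _ _ _ ν _ G ρ hρ hG p hp hbad hsmall
  obtain ⟨C, c, hc, hC⟩ := h Sg St ν G ρ hρ hG p hp hbad hsmall
  refine ⟨C, c, hc, fun t => le_trans ?_ (hC t)⟩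
  have hf : MeasurePreserving (fun (ω : Ix d → Sg) (b : Z d × ℕ) => Psi G ρ ω t (Sum.inl b))
      (Measure.infinitePi fun _ : Ix d => ν) (Measure.infinitePi fun _ : Z d × ℕ => ν) :=
    (h4 (Ix d) (Z d × ℕ) Sg ν Sum.inl Sum.inl_injective).comp (h2 d Sg St ν G ρ hG t)
  have hsub : {ω : Ix d → Sg | ¬ ∃ a, Dt G ρ ω t 0 a} ⊆
      (fun (ω : Ix d → Sg) (b : Z d × ℕ) => Psi G ρ ω t (Sum.inl b)) ⁻¹'
        {B | ∃ x ∈ bx d (2 * ρ * (t + 1)),
          (Cand ρ (bf G B) (ra ρ (bf G B) t) x).Nonempty} := by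
    intro ω hω
    exact h1 d Sg St G ρ hG ω t hω
  have hmu : (Measure.infinitePi fun _ : Ix d => ν)
      {ω : Ix d → Sg | ¬ ∃ a, Dt G ρ ω t 0 a} ≤ (Measure.infinitePi fun _ : Z d × ℕ => ν)
        {B | ∃ x ∈ bx d (2 * ρ * (t + 1)),
          (Cand ρ (bf G B) (ra ρ (bf G B) t) x).Nonempty} := by
    refine (measure_mono hsub).trans ?_
    refine (Measure.le_map_apply hf.measurable.aemeasurable _).trans (le_of_eq ?_)
    rw [hf.map_eq]
  exact ENNReal.toReal_mono (measure_ne_top _ _) hmu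

end Pool.Agent.H224.FV
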