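import Pool.Agent.H960.FV.Bas

/-!
Project FV (helper960): the deterministic conclusion (`S_T5a`).
-/

set_option autoImplicit false

namespace Pool.Agent.H670.FV

open H960FV

theorem T5a (h1 : S_T2a) (h2 : S_T2b) (h3 : S_T2c) (h4 : S_T3) : S_T5a := by
  intro d _ ρ β t x0 l hl hC
  obtain ⟨C, hF⟩ := h1 d ρ β t x0 hC
  have hmem : x0 + sh t ∈ spots C := by
    obtain ⟨j, hj⟩ := hF.start
    exact mem_spots.2 ⟨x0, j, t, hj, rfl⟩
  have hn : 1 ≤ (spots C).card := Finset.card_pos.2 ⟨_, hmem⟩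
  obtain ⟨z, hz0, hz1, hz2⟩ := h4 d (3 * ρ + 1) l (spots C).card (spots C) (x0 + sh t) hl le_rfl
    hmem hF.conn
  refine ⟨(spots C).card, hn, z, hz0, hz1, ?_⟩
  set V : Finset (Z d) := th (spots C) (2 * ρ + 1) with hV
  set W : Finset (Z d) := Vz z (2 * (spots C).card / l) ((3 * ρ + 1) * l + 2 * ρ + 1) with hW
  have hVW : V ⊆ W := by
    intro x hx
    rw [hV, mem_th] at hx
    obtain ⟨w, hw, hxw⟩ := hx
    obtain ⟨i, hi, hwi⟩ := hz2 w hw
    rw [hW, Vz, Finset.mem_biUnion]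
    refine ⟨i, Finset.mem_range.2 (by omega), ?_⟩
    rw [mem_th]
    refine ⟨z i, Finset.mem_singleton_self _, ?_⟩
    exact bx_mono (by omega) (bx_trans hxw hwi)
  have h5 := h2 d ρ β t x0 C hF
  have h6 := h3 d ρ β t x0 C hF
  rw [← hV] at h5 h6
  have h7 : bn ρ β V (t + 1) ≤ bn ρ β W (t + 1) := bn_mono hVW (t + 1)
  have h8 : (spots C).card + t + 1 ≤ C1 d ρ * bn ρ β V (t + 1) := by
    have e : C1 d ρ * bn ρ β V (t + 1) =
        2 * ((4 * ρ + 1) ^ d * bn ρ β V (t + 1)) + 6 * ρ * bn ρ β V (t + 1) := by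
      unfold C1
      ring
    rw [e]
    omega
  exact h8.trans (Nat.mul_le_mul_left _ h7)

end Pool.Agent.H670.FV
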