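import Pool.Agent.H960.FV.Bas

/-!
Project FV (helper960): union bound over walks.
-/

open MeasureTheory Filter Topology

namespace Pool.Agent.H725.FV

open H960FV

/-- the walk with the steps `s` -/
def wk {d k : ℕ} (w0 : Z d) (s : Fin k → Z d) (i : ℕ) : Z d :=
  w0 + ∑ j : Fin k, if (j : ℕ) < i then s j else 0

theorem wk_eq {d k : ℕ} (z : ℕ → Z d) (i : ℕ) (hi : i ≤ k) :
    wk (k := k) (z 0) (fun j => z (j + 1) - z j) i = z i := by
  unfold wk
  induction i with
  | zero => simp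
  | succ i ih =>
    have h1 := ih (by omega)
    have h2 : ∑ j : Fin k, (if (j : ℕ) < i + 1 then z (j + 1) - z j else 0) =
        (∑ j : Fin k, if (j : ℕ) < i then z (j + 1) - z j else 0) + (z (i + 1) - z i) := by
      have h3 : ∀ j : Fin k, (if (j : ℕ) < i + 1 then z (j + 1) - z j else 0) =
          (if (j : ℕ) < i then z (j + 1) - z j else 0) +
            (if j = ⟨i, by omega⟩ then z (i + 1) - z i else 0) := by
        intro j
        rcases lt_trichotomy (j : ℕ) i with h | h | h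
        · rw [if_pos (by omega), if_pos h, if_neg (by rw [Fin.ext_iff]; exact h.ne), add_zero]
        · rw [if_pos (by omega), if_neg (by omega), if_pos (by rw [Fin.ext_iff]; exact h), zero_add,
            h]
        · rw [if_neg (by omega), if_neg (by omega), if_neg (by rw [Fin.ext_iff]; exact h.ne'),
            add_zero]
      rw [Finset.sum_congr rfl fun j _ => h3 j, Finset.sum_add_distrib]
      congr 1
      rw [Finset.sum_ite_eq' Finset.univ, if_pos (Finset.mem_univ _)]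
    rw [h2, ← add_assoc, h1]
    abel

theorem Vz_congr {d : ℕ} {z z' : ℕ → Z d} {k r : ℕ} (h : ∀ i ≤ k, z i = z' i) :
    Vz z k r = Vz z' k r := by
  unfold Vz
  ext x
  simp only [Finset.mem_biUnion, Finset.mem_range]
  constructor
  · rintro ⟨i, hi, hx⟩
    exact ⟨i, hi, by rwa [← h i (by omega)]⟩
  · rintro ⟨i, hi, hx⟩
    exact ⟨i, hi, by rwa [h i (by omega)]⟩

theorem card_Vz {d : ℕ} (z : ℕ → Z d) (k R : ℕ) :
    (Vz z k R).card ≤ (k + 1) * (2 * R + 1) ^ d := by
  unfold Vz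
  refine Finset.card_biUnion_le.trans ?_
  refine (Finset.sum_le_sum (g := fun _ => (2 * R + 1) ^ d) fun i _ => ?_).trans ?_
  · refine (th_card_le _ _).trans ?_
    rw [Finset.card_singleton, one_mul]
  · rw [Finset.sum_const, Finset.card_range, smul_eq_mul]

theorem C1_pos (d ρ : ℕ) : 0 < C1 d ρ := by
  unfold C1
  positivity

theorem T5b (h : S_T4) : S_T5b := by
  intro d _ Sg St _ _ _ ν _ G ρ hG p hp hbad hsm l n t w0 hl
  set k : ℕ := 2 * n / l with hk
  set r : ℕ := (3 * ρ + 1) * l with hr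
  set P := Measure.infinitePi fun _ : Z d × ℕ => ν with hP
  set F : Finset (Fin k → Z d) := Fintype.piFinset fun _ => bx d r with hF
  have hsub : {B : Z d × ℕ → Sg | ∃ z : ℕ → Z d, z 0 = w0 ∧ (∀ i, z (i + 1) - z i ∈ bx d r) ∧
      n + t + 1 ≤ C1 d ρ * bn ρ (bf G B) (Vz z k (r + 2 * ρ + 1)) (t + 1)} ⊆
      ⋃ s ∈ F, {B : Z d × ℕ → Sg | ((n + t + 1 : ℕ) : ℝ) / C1 d ρ ≤
        (bn ρ (bf G B) (Vz (wk w0 s) k (r + 2 * ρ + 1)) (t + 1) : ℝ)} := by
    rintro B ⟨z, h0, hz, hB⟩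
    simp only [Set.mem_iUnion]
    refine ⟨fun j => z (j + 1) - z j, ?_, ?_⟩
    · rw [hF, Fintype.mem_piFinset]
      exact fun j => hz j
    · rw [Set.mem_ofPred_eq]
      have e : Vz (wk (k := k) w0 fun j => z (j + 1) - z j) k (r + 2 * ρ + 1) =
          Vz z k (r + 2 * ρ + 1) := by
        refine Vz_congr fun i hi => ?_
        rw [← h0]
        exact wk_eq z i hi
      rw [e, div_le_iff₀ (by exact_mod_cast C1_pos d ρ)]
      calc ((n + t + 1 : ℕ) : ℝ) ≤
          ((C1 d ρ * bn ρ (bf G B) (Vz z k (r + 2 * ρ + 1)) (t + 1) : ℕ) : ℝ) := by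
            exact_mod_cast hB
        _ = _ := by push_cast; ring
  refine (measureReal_mono hsub (measure_ne_top P _)).trans ?_
  refine (measureReal_biUnion_finset_le _ _).trans ?_
  have hterm : ∀ s ∈ F, P.real {B : Z d × ℕ → Sg | ((n + t + 1 : ℕ) : ℝ) / C1 d ρ ≤
        (bn ρ (bf G B) (Vz (wk w0 s) k (r + 2 * ρ + 1)) (t + 1) : ℝ)} ≤
      Real.exp (-(Real.log 2 / ((2 * ρ + 1) ^ d * (C1 d ρ : ℝ)) * (n + t + 1))) *
      Real.exp (3 * p * ((k : ℕ) + 1) * (2 * ((3 * ρ + 1) * l + 2 * ρ + 1 : ℝ) + 1) ^ d /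
        (2 * ρ + 1) ^ d) := by
    intro s _
    refine (h d Sg St ν G ρ hG p hbad hsm _ _ _).trans ?_
    refine mul_le_mul (le_of_eq ?_) ?_ (Real.exp_nonneg _) (Real.exp_nonneg _)
    · congr 2
      have hC : (C1 d ρ : ℝ) ≠ 0 := by exact_mod_cast (C1_pos d ρ).ne'
      push_cast
      field_simp
    · refine Real.exp_le_exp.2 ?_
      have hcard : ((Vz (wk w0 s) k (r + 2 * ρ + 1)).card : ℝ) ≤
          ((k : ℝ) + 1) * (2 * ((3 * ρ + 1) * l + 2 * ρ + 1 : ℝ) + 1) ^ d := by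
        have h1 : ((Vz (wk w0 s) k (r + 2 * ρ + 1)).card : ℝ) ≤
            (((k + 1) * (2 * (r + 2 * ρ + 1) + 1) ^ d : ℕ) : ℝ) := by
          exact_mod_cast card_Vz (wk w0 s) k (r + 2 * ρ + 1)
        refine h1.trans (le_of_eq ?_)
        rw [hr]
        push_cast
        rfl
      have h3 : 0 ≤ 3 * p := by positivity
      gcongr ?_ / _
      rw [mul_assoc (3 * p)]
      exact mul_le_mul_of_nonneg_left hcard h3
  refine (Finset.sum_le_sum hterm).trans (le_of_eq ?_)
  rw [Finset.sum_const, nsmul_eq_mul, ← mul_assoc]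
  congr 2
  rw [hF, Fintype.card_piFinset]
  simp only [Finset.prod_const, Finset.card_univ, Fintype.card_fin, card_bx]
  rw [← pow_mul, hr]
  push_cast
  rfl

end Pool.Agent.H725.FV
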