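import Pool.Agent.H960.FV.Bas

/-!
Project FV (helper960), task T5C: choice of the constants.
-/

namespace Pool.Agent.H801.FV

open H960FV

/-- polynomially bounded functions -/
def PB (f : ℕ → ℕ) : Prop := ∃ K D : ℕ, ∀ ρ : ℕ, 1 ≤ ρ → f ρ ≤ K * ρ ^ D

theorem PB.const (c : ℕ) : PB (fun _ => c) := ⟨c, 0, fun ρ _ => by simp⟩

theorem PB.id : PB (fun ρ => ρ) := ⟨1, 1, fun ρ _ => by simp⟩

theorem PB.add {f g : ℕ → ℕ} (hf : PB f) (hg : PB g) : PB (fun ρ => f ρ + g ρ) := by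
  obtain ⟨K, D, h⟩ := hf
  obtain ⟨K', D', h'⟩ := hg
  refine ⟨K + K', D + D', fun ρ hρ => ?_⟩
  have h1 : ρ ^ D ≤ ρ ^ (D + D') := Nat.pow_le_pow_right hρ (Nat.le_add_right _ _)
  have h2 : ρ ^ D' ≤ ρ ^ (D + D') := Nat.pow_le_pow_right hρ (Nat.le_add_left _ _)
  calc f ρ + g ρ ≤ K * ρ ^ D + K' * ρ ^ D' := Nat.add_le_add (h ρ hρ) (h' ρ hρ)
    _ ≤ K * ρ ^ (D + D') + K' * ρ ^ (D + D') :=
        Nat.add_le_add (Nat.mul_le_mul_left _ h1) (Nat.mul_le_mul_left _ h2)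
    _ = (K + K') * ρ ^ (D + D') := by ring

theorem PB.mul {f g : ℕ → ℕ} (hf : PB f) (hg : PB g) : PB (fun ρ => f ρ * g ρ) := by
  obtain ⟨K, D, h⟩ := hf
  obtain ⟨K', D', h'⟩ := hg
  refine ⟨K * K', D + D', fun ρ hρ => ?_⟩
  calc f ρ * g ρ ≤ (K * ρ ^ D) * (K' * ρ ^ D') := Nat.mul_le_mul (h ρ hρ) (h' ρ hρ)
    _ = K * K' * ρ ^ (D + D') := by ring

theorem PB.pow {f : ℕ → ℕ} (hf : PB f) (n : ℕ) : PB (fun ρ => f ρ ^ n) := by
  obtain ⟨K, D, h⟩ := hf
  refine ⟨K ^ n, D * n, fun ρ hρ => ?_⟩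
  calc f ρ ^ n ≤ (K * ρ ^ D) ^ n := Nat.pow_le_pow_left (h ρ hρ) n
    _ = K ^ n * ρ ^ (D * n) := by rw [mul_pow, ← pow_mul]

/-- the number `N` -/
def NN (d ρ : ℕ) : ℕ := 48 * d * C1 d ρ * (2 * ρ + 1) ^ d

/-- the number `l` -/
def ll (d ρ : ℕ) : ℕ := 2 * (3 * ρ + 1) * NN d ρ ^ 2

/-- the size of the boxes -/
def EE (d ρ : ℕ) : ℕ := 2 * ((3 * ρ + 1) * ll d ρ + 2 * ρ + 1) + 1

theorem pb_C1 (d : ℕ) : PB (fun ρ => C1 d ρ) :=
  ((PB.const 2).mul ((((PB.const 4).mul PB.id).add (PB.const 1)).pow d)).add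
    ((PB.const 6).mul PB.id)

theorem pb_NN (d : ℕ) : PB (fun ρ => NN d ρ) :=
  ((PB.const (48 * d)).mul (pb_C1 d)).mul ((((PB.const 2).mul PB.id).add (PB.const 1)).pow d)

theorem pb_ll (d : ℕ) : PB (fun ρ => ll d ρ) :=
  ((PB.const 2).mul (((PB.const 3).mul PB.id).add (PB.const 1))).mul ((pb_NN d).pow 2)

theorem pb_EE (d : ℕ) : PB (fun ρ => EE d ρ) :=
  ((PB.const 2).mul ((((((PB.const 3).mul PB.id).add (PB.const 1)).mul (pb_ll d)).add
    ((PB.const 2).mul PB.id)).add (PB.const 1))).add (PB.const 1)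

theorem pb_main (d : ℕ) : PB (fun ρ => 36 * EE d ρ ^ d * C1 d ρ) :=
  ((PB.const 36).mul ((pb_EE d).pow d)).mul (pb_C1 d)

theorem T5c : S_T5c := by
  intro d hd
  have hd0 : 0 < d := Nat.pos_of_ne_zero (NeZero.ne d)
  obtain ⟨K, D, hKD⟩ := pb_main d
  refine ⟨K, D, fun ρ hρ p hp hpK => ?_⟩
  have hc1 : 1 ≤ C1 d ρ := by unfold C1; omega
  have hm1 : 1 ≤ (2 * ρ + 1) ^ d := Nat.one_le_pow _ _ (by omega)
  have hN1 : 1 ≤ NN d ρ := by
    unfold NN
    have : 0 < 48 * d * C1 d ρ * (2 * ρ + 1) ^ d := by positivity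
    omega
  have hl1 : 1 ≤ ll d ρ := by
    unfold ll
    have : 0 < 2 * (3 * ρ + 1) * NN d ρ ^ 2 := by positivity
    omega
  have hB : p * (36 * (EE d ρ : ℝ) ^ d * (C1 d ρ : ℝ)) ≤ 1 := by
    have h1 : ((36 * EE d ρ ^ d * C1 d ρ : ℕ) : ℝ) ≤ ((K * ρ ^ D : ℕ) : ℝ) := by
      exact_mod_cast hKD ρ hρ
    push_cast at h1
    calc p * (36 * (EE d ρ : ℝ) ^ d * (C1 d ρ : ℝ)) ≤ p * (K * (ρ : ℝ) ^ D) :=
          mul_le_mul_of_nonneg_left h1 hp
      _ = p * K * (ρ : ℝ) ^ D := by ring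
      _ ≤ 1 := hpK
  have hlog : (69 : ℝ) / 100 < Real.log 2 := by
    have := Real.log_two_gt_d9
    linarith
  set c : ℝ := (C1 d ρ : ℝ) with hc
  set m : ℝ := (2 * (ρ : ℝ) + 1) ^ d with hm
  set E : ℝ := (EE d ρ : ℝ) with hE
  have hcR : 1 ≤ c := by rw [hc]; exact_mod_cast hc1
  have hmR : 1 ≤ m := by
    rw [hm]
    exact one_le_pow₀ (by have : (0:ℝ) ≤ ρ := Nat.cast_nonneg _; linarith)
  have hEd : 0 ≤ E ^ d := by positivity
  refine ⟨?_, ll d ρ, hl1, fun n hn => ?_⟩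
  · have h2 : (6 * (ρ : ℝ) + 1) ^ d ≤ E ^ d := by
      refine pow_le_pow_left₀ (by positivity) ?_ d
      have h3 : 6 * ρ + 1 ≤ EE d ρ := by
        unfold EE
        nlinarith
      rw [hE]
      exact_mod_cast h3
    have h4 : p * (6 * (ρ : ℝ) + 1) ^ d ≤ p * (E ^ d * c) := by
      refine mul_le_mul_of_nonneg_left (h2.trans ?_) hp
      nlinarith
    have h5 : p * (E ^ d * c) * 36 ≤ 1 := by
      calc p * (E ^ d * c) * 36 = p * (36 * E ^ d * c) := by ring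
        _ ≤ 1 := hB
    calc 3 * p * (6 * (ρ : ℝ) + 1) ^ d = 3 * (p * (6 * (ρ : ℝ) + 1) ^ d) := by ring
      _ ≤ 3 * (p * (E ^ d * c)) := by linarith
      _ ≤ Real.log 2 := by linarith
  · set k : ℕ := 2 * n / ll d ρ with hk
    have hkl : k * ll d ρ ≤ 2 * n := Nat.div_mul_le_self _ _
    have hk2 : k ≤ 2 * n := Nat.div_le_self _ _
    set N : ℝ := (NN d ρ : ℝ) with hN
    have hNR : 1 ≤ N := by rw [hN]; exact_mod_cast hN1
    set q : ℝ := 3 * (ρ : ℝ) + 1 with hq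
    have hqR : 1 ≤ q := by
      have : (0:ℝ) ≤ ρ := Nat.cast_nonneg _
      rw [hq]
      linarith
    have hlR : (ll d ρ : ℝ) = 2 * q * N ^ 2 := by
      rw [hq, hN]
      unfold ll
      push_cast
      ring
    have hER : 2 * (q * (ll d ρ : ℝ) + 2 * (ρ : ℝ) + 1) + 1 = E := by
      rw [hE, hq]
      unfold EE
      push_cast
      ring
    have hNd : N = 48 * d * c * m := by
      rw [hN, hc, hm]
      unfold NN
      push_cast
      ring
    have hkR : (k : ℝ) * (q * N ^ 2) ≤ n := by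
      have h1 : (k : ℝ) * (ll d ρ : ℝ) ≤ 2 * n := by exact_mod_cast hkl
      rw [hlR] at h1
      linarith
    have hk3 : (k : ℝ) + 1 ≤ 3 * n := by
      have h1 : (k : ℝ) ≤ 2 * n := by exact_mod_cast hk2
      have h2 : (1 : ℝ) ≤ n := by exact_mod_cast hn
      linarith
    have hd1 : (1 : ℝ) ≤ d := by exact_mod_cast hd0
    -- the first factor
    have hX : 2 * (q * (ll d ρ : ℝ)) + 1 ≤ Real.exp (2 * (2 * q * N)) := by
      have h1 : 2 * q * N + 1 ≤ Real.exp (2 * q * N) := Real.add_one_le_exp _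
      have h2 : Real.exp (2 * (2 * q * N)) = Real.exp (2 * q * N) ^ 2 := by
        rw [← Real.exp_nat_mul]
        norm_num
      rw [h2, hlR]
      have h3 : 0 ≤ 2 * q * N := by positivity
      calc 2 * (q * (2 * q * N ^ 2)) + 1 ≤ (2 * q * N + 1) ^ 2 := by nlinarith
        _ ≤ Real.exp (2 * q * N) ^ 2 := pow_le_pow_left₀ (by linarith) h1 2
    have hX2 : (2 * (q * (ll d ρ : ℝ)) + 1) ^ (d * k) ≤ Real.exp (n / (12 * c * m)) := by
      calc (2 * (q * (ll d ρ : ℝ)) + 1) ^ (d * k) ≤ Real.exp (2 * (2 * q * N)) ^ (d * k) :=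
            pow_le_pow_left₀ (by positivity) hX _
        _ = Real.exp (((d * k : ℕ) : ℝ) * (2 * (2 * q * N))) := by rw [Real.exp_nat_mul]
        _ ≤ Real.exp (n / (12 * c * m)) := by
            refine Real.exp_le_exp.2 ?_
            have e1 : ((d * k : ℕ) : ℝ) * (2 * (2 * q * N)) = 4 * d * (k * (q * N ^ 2)) / N := by
              push_cast
              field_simp
              ring
            have e2 : (n : ℝ) / (12 * c * m) = 4 * d * n / N := by
              rw [hNd]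
              field_simp
              ring
            rw [e1, e2]
            refine div_le_div_of_nonneg_right ?_ (by linarith)
            exact mul_le_mul_of_nonneg_left hkR (by positivity)
    have hY : 3 * p * ((k : ℝ) + 1) * E ^ d / m ≤ n / (4 * c * m) := by
      rw [div_le_div_iff₀ (by linarith) (by positivity)]
      have h1 : 3 * p * ((k : ℝ) + 1) * E ^ d ≤ 3 * p * (3 * n) * E ^ d :=
        mul_le_mul_of_nonneg_right (mul_le_mul_of_nonneg_left hk3 (by positivity)) hEd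
      have h2 : 0 ≤ 4 * c * m := by positivity
      calc 3 * p * ((k : ℝ) + 1) * E ^ d * (4 * c * m) ≤ 3 * p * (3 * n) * E ^ d * (4 * c * m) :=
            mul_le_mul_of_nonneg_right h1 h2
        _ = (p * (36 * E ^ d * c)) * (n * m) := by ring
        _ ≤ 1 * (n * m) := mul_le_mul_of_nonneg_right hB (by positivity)
        _ = n * m := one_mul _
    show (2 * (q * (ll d ρ : ℝ)) + 1) ^ (d * k) *
      Real.exp (3 * p * ((k : ℝ) + 1) * (2 * (q * (ll d ρ : ℝ) + 2 * (ρ : ℝ) + 1) + 1) ^ d / m) ≤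
      Real.exp (Real.log 2 / (m * c) * n / 2)
    rw [hER]
    calc (2 * (q * (ll d ρ : ℝ)) + 1) ^ (d * k) *
          Real.exp (3 * p * ((k : ℝ) + 1) * E ^ d / m) ≤
          Real.exp (n / (12 * c * m)) * Real.exp (n / (4 * c * m)) :=
          mul_le_mul hX2 (Real.exp_le_exp.2 hY) (Real.exp_pos _).le (Real.exp_pos _).le
      _ = Real.exp (n / (12 * c * m) + n / (4 * c * m)) := by rw [Real.exp_add]
      _ ≤ Real.exp (Real.log 2 / (m * c) * n / 2) := by
          refine Real.exp_le_exp.2 ?_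
          have e1 : (n : ℝ) / (12 * c * m) + n / (4 * c * m) = (n / (m * c)) * (1 / 3) := by
            field_simp
            ring
          have e2 : Real.log 2 / (m * c) * n / 2 = (n / (m * c)) * (Real.log 2 / 2) := by
            ring
          rw [e1, e2]
          refine mul_le_mul_of_nonneg_left (by linarith) (by positivity)

end Pool.Agent.H801.FV
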