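import Mathlib
import Pool.Agent.H960.FV.Bas

/-!
Exponential tail for the algorithm run on iid noise
-/

open MeasureTheory Filter Topology

namespace Pool.Agent.H299.FV

open H960FV

theorem card_bx (d r : ℕ) : ((bx d r).card : ℝ) = (2 * r + 1) ^ d := by
  unfold bx
  rw [Fintype.card_piFinset, Finset.prod_const, Finset.card_univ, Fintype.card_fin, Int.card_Icc]
  have h : ((r : ℤ) + 1 - -(r : ℤ)).toNat = 2 * r + 1 := by omega
  rw [h]
  push_cast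
  ring

theorem poly_exp (d : ℕ) (L y : ℝ) (hL : 0 < L) (hy : 0 ≤ y) :
    y ^ d ≤ d.factorial * (2 / L) ^ d * Real.exp (L / 2 * y) := by
  have h1 := Real.pow_div_factorial_le_exp (x := L / 2 * y) (by positivity) d
  have hf : (0 : ℝ) < d.factorial := by exact_mod_cast d.factorial_pos
  rw [div_le_iff₀ hf] at h1
  have h2 : y ^ d = (2 / L) ^ d * (L / 2 * y) ^ d := by
    rw [← mul_pow]
    congr 1
    field_simp
  rw [h2]
  calc (2 / L) ^ d * (L / 2 * y) ^ d ≤ (2 / L) ^ d * (Real.exp (L / 2 * y) * d.factorial) :=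
        mul_le_mul_of_nonneg_left h1 (by positivity)
    _ = d.factorial * (2 / L) ^ d * Real.exp (L / 2 * y) := by ring

theorem T5d (h1 : S_T5a) (h2 : S_T5b) (h3 : S_T5c) : S_T5d := by
  intro d _
  obtain ⟨K, D, hKD⟩ := h3 d
  refine ⟨K, D, ?_⟩
  intro Sg St _ _ _ ν _ G ρ hρ hG p hp0 hp hpK
  obtain ⟨hlog, l, hl, hln⟩ := hKD ρ hρ p hp0 hpK
  obtain ⟨L, hL⟩ : ∃ L : ℝ, L = Real.log 2 / ((2 * ρ + 1) ^ d * (C1 d ρ : ℝ)) := ⟨_, rfl⟩
  have hC1 : (0 : ℝ) < (C1 d ρ : ℝ) := by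
    have : 0 < C1 d ρ := by
      unfold C1
      positivity
    exact_mod_cast this
  have hlog2 : 0 < Real.log 2 := Real.log_pos one_lt_two
  have hL0 : 0 < L := by
    rw [hL]
    positivity
  obtain ⟨μ, hμ⟩ : ∃ μ : Measure (Z d × ℕ → Sg), μ = Measure.infinitePi fun _ : Z d × ℕ => ν :=
    ⟨_, rfl⟩
  have hμp : IsProbabilityMeasure μ := by
    rw [hμ]
    infer_instance
  obtain ⟨Ev, hEvdef⟩ : ∃ Ev : ℕ → ℕ → Z d → Set (Z d × ℕ → Sg), Ev = fun t n w0 =>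
    {B | ∃ z : ℕ → Z d, z 0 = w0 ∧ (∀ i, z (i + 1) - z i ∈ bx d ((3 * ρ + 1) * l)) ∧
      n + t + 1 ≤ C1 d ρ *
        bn ρ (bf G B) (Vz z (2 * n / l) ((3 * ρ + 1) * l + 2 * ρ + 1)) (t + 1)} := ⟨_, rfl⟩
  have hEv : ∀ t n w0, 1 ≤ n → μ.real (Ev t n w0) ≤
      Real.exp (-(L * (t + 1))) * Real.exp (-(L / 2 * n)) := by
    intro t n w0 hn
    rw [hEvdef, hμ]
    refine (h2 d Sg St ν G ρ hG p hp0 hp hlog l n t w0 hl).trans ?_
    have e1 := hln n hn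
    rw [← hL] at e1 ⊢
    rw [mul_right_comm]
    refine (mul_le_mul_of_nonneg_right e1 (Real.exp_pos _).le).trans (le_of_eq ?_)
    rw [← Real.exp_add, ← Real.exp_add]
    congr 1
    ring
  obtain ⟨S, hS⟩ : ∃ S : ℝ, S = ∑' n : ℕ, Real.exp (-(L / 2 * ((n : ℝ) + 1))) := ⟨_, rfl⟩
  have hsm : Summable fun n : ℕ => Real.exp (-(L / 2 * ((n : ℝ) + 1))) := by
    have e1 : Summable fun n : ℕ => Real.exp (n * (-(L / 2))) :=
      Real.summable_exp_nat_mul_iff.2 (by linarith)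
    refine (e1.mul_left (Real.exp (-(L / 2)))).congr fun n => ?_
    rw [← Real.exp_add]
    congr 1
    ring
  have hS0 : 0 ≤ S := by
    rw [hS]
    exact tsum_nonneg fun n => (Real.exp_pos _).le
  have hun : ∀ t w0, μ (⋃ n : ℕ, Ev t (n + 1) w0) ≤
      ENNReal.ofReal (Real.exp (-(L * (t + 1))) * S) := by
    intro t w0
    refine (measure_iUnion_le _).trans ?_
    have e1 : ∀ n : ℕ, μ (Ev t (n + 1) w0) ≤
        ENNReal.ofReal (Real.exp (-(L * (t + 1))) * Real.exp (-(L / 2 * ((n : ℝ) + 1)))) := by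
      intro n
      have e2 := hEv t (n + 1) w0 (by omega)
      rw [← ofReal_measureReal (measure_ne_top μ _)]
      refine ENNReal.ofReal_le_ofReal (e2.trans (le_of_eq ?_))
      push_cast
      rfl
    refine (ENNReal.tsum_le_tsum e1).trans (le_of_eq ?_)
    rw [hS, ← tsum_mul_left, ENNReal.ofReal_tsum_of_nonneg
      (fun n => mul_nonneg (Real.exp_pos _).le (Real.exp_pos _).le) (hsm.mul_left _)]
  refine ⟨(4 * ρ + 1) ^ d * (d.factorial * (2 / L) ^ d) * S, L / 2, by positivity, fun t => ?_⟩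
  rw [← hμ]
  have hsub : {B : Z d × ℕ → Sg | ∃ x ∈ bx d (2 * ρ * (t + 1)),
      (Cand ρ (bf G B) (ra ρ (bf G B) t) x).Nonempty} ⊆
      ⋃ x ∈ bx d (2 * ρ * (t + 1)), ⋃ n : ℕ, Ev t (n + 1) (x + sh t) := by
    rintro B ⟨x, hx, hB⟩
    obtain ⟨n, hn, z, hz0, hz1, hz2⟩ := h1 d ρ (bf G B) t x l hl hB
    refine Set.mem_iUnion₂.2 ⟨x, hx, Set.mem_iUnion.2 ⟨n - 1, ?_⟩⟩
    have e1 : n - 1 + 1 = n := by omega
    rw [e1, hEvdef]
    exact ⟨z, hz0, hz1, hz2⟩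
  have hreal : μ.real {B : Z d × ℕ → Sg | ∃ x ∈ bx d (2 * ρ * (t + 1)),
      (Cand ρ (bf G B) (ra ρ (bf G B) t) x).Nonempty} ≤
      (bx d (2 * ρ * (t + 1))).card * (Real.exp (-(L * (t + 1))) * S) := by
    have e0 : (0 : ℝ) ≤ Real.exp (-(L * (t + 1))) * S := mul_nonneg (Real.exp_pos _).le hS0
    have e1 : μ {B : Z d × ℕ → Sg | ∃ x ∈ bx d (2 * ρ * (t + 1)),
        (Cand ρ (bf G B) (ra ρ (bf G B) t) x).Nonempty} ≤
        ENNReal.ofReal ((bx d (2 * ρ * (t + 1))).card * (Real.exp (-(L * (t + 1))) * S)) := by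
      refine (measure_mono hsub).trans ((measure_biUnion_finset_le _ _).trans ?_)
      refine (Finset.sum_le_card_nsmul _ _ _ fun x _ => hun t (x + sh t)).trans (le_of_eq ?_)
      rw [nsmul_eq_mul, ENNReal.ofReal_mul (Nat.cast_nonneg _), ENNReal.ofReal_natCast]
    rw [measureReal_def]
    refine (ENNReal.toReal_mono ENNReal.ofReal_ne_top e1).trans (le_of_eq ?_)
    exact ENNReal.toReal_ofReal (mul_nonneg (Nat.cast_nonneg _) e0)
  refine hreal.trans ?_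
  rw [card_bx]
  have ht : (0 : ℝ) ≤ (t : ℝ) := Nat.cast_nonneg t
  have hρ0 : (0 : ℝ) ≤ (ρ : ℝ) := Nat.cast_nonneg ρ
  have e1 : (2 * ((2 * ρ * (t + 1) : ℕ) : ℝ) + 1) ^ d ≤ (4 * ρ + 1) ^ d * ((t : ℝ) + 1) ^ d := by
    rw [← mul_pow]
    refine pow_le_pow_left₀ (by positivity) ?_ d
    push_cast
    nlinarith
  have e2 := poly_exp d L ((t : ℝ) + 1) hL0 (by positivity)
  have e3 : (2 * ((2 * ρ * (t + 1) : ℕ) : ℝ) + 1) ^ d ≤
      (4 * ρ + 1) ^ d * (d.factorial * (2 / L) ^ d * Real.exp (L / 2 * ((t : ℝ) + 1))) :=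
    e1.trans (mul_le_mul_of_nonneg_left e2 (by positivity))
  have e4 : Real.exp (L / 2 * ((t : ℝ) + 1)) * Real.exp (-(L * ((t : ℝ) + 1))) ≤
      Real.exp (-(L / 2) * t) := by
    rw [← Real.exp_add]
    refine Real.exp_le_exp.2 ?_
    nlinarith
  have hf : (0 : ℝ) ≤ d.factorial := Nat.cast_nonneg _
  calc (2 * ((2 * ρ * (t + 1) : ℕ) : ℝ) + 1) ^ d * (Real.exp (-(L * (t + 1))) * S)
      ≤ (4 * ρ + 1) ^ d * (d.factorial * (2 / L) ^ d * Real.exp (L / 2 * ((t : ℝ) + 1))) *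
        (Real.exp (-(L * (t + 1))) * S) :=
        mul_le_mul_of_nonneg_right e3 (mul_nonneg (Real.exp_pos _).le hS0)
    _ = (4 * ρ + 1) ^ d * (d.factorial * (2 / L) ^ d) * S *
        (Real.exp (L / 2 * ((t : ℝ) + 1)) * Real.exp (-(L * ((t : ℝ) + 1)))) := by ring
    _ ≤ (4 * ρ + 1) ^ d * (d.factorial * (2 / L) ^ d) * S * Real.exp (-(L / 2) * t) :=
        mul_le_mul_of_nonneg_left e4 (by positivity)

end Pool.Agent.H299.FV
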