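import Pool.Agent.H960.FV.Bas

/-!
Project FV (helper960), task FV-TRANS: translation equivariance of the algorithm (helper898).
-/

open MeasureTheory Filter Topology
open H960FV

namespace Pool.Agent.H898.FV

section

variable {d : ℕ} {Sg St : Type}

/-- translation of a set of sites and levels -/
def tA (w : Z d) (A : Set (Z d × ℕ)) : Set (Z d × ℕ) := {a | (a.1 + w, a.2) ∈ A}

/-- translation of a field -/
def tB (w : Z d) (β : Z d → ℕ → Prop) : Z d → ℕ → Prop := fun u i => β (u + w) i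

/-- translation of the noise -/
def tN (w : Z d) (B : Z d × ℕ → Sg) : Z d × ℕ → Sg := fun a => B (a.1 + w, a.2)

theorem full_t {ρ : ℕ} {A : Set (Z d × ℕ)} {w u : Z d} {i : ℕ} :
    Full ρ (tA w A) u i ↔ Full ρ A (u + w) i := by
  unfold Full
  refine forall_congr' fun y => forall_congr' fun _ => ?_
  show (u + y + w, i) ∈ A ↔ (u + w + y, i) ∈ A
  rw [add_right_comm]

theorem dem_t {ρ : ℕ} {β : Z d → ℕ → Prop} {A : Set (Z d × ℕ)} {w x : Z d} {j : ℕ} :
    Dem ρ (tB w β) (tA w A) x j ↔ Dem ρ β A (x + w) j := by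
  unfold Dem
  constructor
  · rintro ⟨u, i, h1, h2, h3, h4⟩
    refine ⟨u + w, i, h1, ?_, full_t.1 h3, h4⟩
    rw [add_sub_add_right_eq_sub]
    exact h2
  · rintro ⟨u, i, h1, h2, h3, h4⟩
    refine ⟨u - w, i, h1, ?_, full_t.2 ?_, ?_⟩
    · have e : x - (u - w) = x + w - u := by abel
      rw [e]
      exact h2
    · rw [sub_add_cancel]
      exact h3
    · show β (u - w + w) i
      rw [sub_add_cancel]
      exact h4

theorem cand_t {ρ : ℕ} {β : Z d → ℕ → Prop} {A : Set (Z d × ℕ)} {w x : Z d} :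
    Cand ρ (tB w β) (tA w A) x = Cand ρ β A (x + w) := by
  unfold Cand
  ext j
  exact and_congr dem_t Iff.rfl

variable [NeZero d]

theorem run_t (ρ : ℕ) (β : Z d → ℕ → Prop) (w : Z d) (t : ℕ) :
    run ρ (tB w β) t = (tA w (run ρ β t).1, {v | v + w ∈ (run ρ β t).2}) := by
  induction t with
  | zero => rfl
  | succ t ih =>
    rw [run, run, ih]
    refine Prod.ext ?_ ?_
    · ext a
      show (a ∈ tA w (run ρ β t).1 ∨ (Cand ρ (tB w β) (tA w (run ρ β t).1) a.1).Nonempty ∧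
        ¬ (a.1 + sh t + w ∈ (run ρ β t).2) ∧
          a.2 = sInf (Cand ρ (tB w β) (tA w (run ρ β t).1) a.1)) ↔
        ((a.1 + w, a.2) ∈ (run ρ β t).1 ∨ (Cand ρ β (run ρ β t).1 (a.1 + w)).Nonempty ∧
          ¬ (a.1 + w + sh t ∈ (run ρ β t).2) ∧ a.2 = sInf (Cand ρ β (run ρ β t).1 (a.1 + w)))
      rw [cand_t, add_right_comm a.1 (sh t) w]
      rfl
    · ext v
      show (v + w ∈ (run ρ β t).2 ∨ (Cand ρ (tB w β) (tA w (run ρ β t).1) (v - sh t)).Nonempty) ↔
        (v + w ∈ (run ρ β t).2 ∨ (Cand ρ β (run ρ β t).1 (v + w - sh t)).Nonempty)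
      have e : v - sh t + w = v + w - sh t := by abel
      rw [cand_t, e]

theorem ra_t (ρ : ℕ) (β : Z d → ℕ → Prop) (w : Z d) (t : ℕ) :
    ra ρ (tB w β) t = tA w (ra ρ β t) := by
  unfold ra
  rw [run_t]

theorem mem_ru_t (ρ : ℕ) (β : Z d → ℕ → Prop) (w v : Z d) (t : ℕ) :
    v ∈ ru ρ (tB w β) t ↔ v + w ∈ ru ρ β t := by
  unfold ru
  rw [run_t]
  exact Iff.rfl

theorem act_t (ρ : ℕ) (β : Z d → ℕ → Prop) (w v : Z d) (t : ℕ) :
    act ρ (tB w β) t v ↔ act ρ β t (v + w) := by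
  unfold act
  rw [ra_t, cand_t, mem_ru_t, add_right_comm v (sh t) w]

theorem lv_t (ρ : ℕ) (β : Z d → ℕ → Prop) (w v : Z d) (t : ℕ) :
    lv ρ (tB w β) t v = lv ρ β t (v + w) := by
  unfold lv
  rw [ra_t, cand_t]

theorem sg_inl_pos {ρ : ℕ} {β : Z d → ℕ → Prop} {t : ℕ} {a : Z d × ℕ}
    (h : act ρ β t a.1 ∧ a.2 = lv ρ β t a.1) :
    sg ρ β t (Sum.inl a) = Sum.inr (a.1 + sh t) := if_pos h

theorem sg_inl_neg {ρ : ℕ} {β : Z d → ℕ → Prop} {t : ℕ} {a : Z d × ℕ}
    (h : ¬ (act ρ β t a.1 ∧ a.2 = lv ρ β t a.1)) :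
    sg ρ β t (Sum.inl a) = Sum.inl a := if_neg h

theorem sg_inr_pos {ρ : ℕ} {β : Z d → ℕ → Prop} {t : ℕ} {v : Z d} (h : act ρ β t (v - sh t)) :
    sg ρ β t (Sum.inr v) = Sum.inl (v - sh t, lv ρ β t (v - sh t)) := if_pos h

theorem sg_inr_neg {ρ : ℕ} {β : Z d → ℕ → Prop} {t : ℕ} {v : Z d} (h : ¬ act ρ β t (v - sh t)) :
    sg ρ β t (Sum.inr v) = Sum.inr v := if_neg h

theorem sg_t (ρ : ℕ) (β : Z d → ℕ → Prop) (w : Z d) (t : ℕ) (i : Ix d) :
    ti w (sg ρ (tB w β) t i) = sg ρ β t (ti w i) := by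
  rcases i with a | v
  · show ti w (sg ρ (tB w β) t (Sum.inl a)) = sg ρ β t (Sum.inl (a.1 + w, a.2))
    by_cases h : act ρ β t (a.1 + w) ∧ a.2 = lv ρ β t (a.1 + w)
    · have h' : act ρ (tB w β) t a.1 ∧ a.2 = lv ρ (tB w β) t a.1 := by
        rw [act_t, lv_t]
        exact h
      rw [sg_inl_pos h', sg_inl_pos (a := (a.1 + w, a.2)) h]
      show Sum.inr (a.1 + sh t + w) = Sum.inr (a.1 + w + sh t)
      rw [add_right_comm]
    · have h' : ¬ (act ρ (tB w β) t a.1 ∧ a.2 = lv ρ (tB w β) t a.1) := by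
        rw [act_t, lv_t]
        exact h
      rw [sg_inl_neg h', sg_inl_neg (a := (a.1 + w, a.2)) h]
      rfl
  · show ti w (sg ρ (tB w β) t (Sum.inr v)) = sg ρ β t (Sum.inr (v + w))
    have e : v - sh t + w = v + w - sh t := by abel
    by_cases h : act ρ β t (v + w - sh t)
    · have h' : act ρ (tB w β) t (v - sh t) := by
        rw [act_t, e]
        exact h
      rw [sg_inr_pos h', sg_inr_pos h]
      show Sum.inl (v - sh t + w, lv ρ (tB w β) t (v - sh t)) = _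
      rw [lv_t, e]
    · have h' : ¬ act ρ (tB w β) t (v - sh t) := by
        rw [act_t, e]
        exact h
      rw [sg_inr_neg h', sg_inr_neg h]
      rfl

omit [NeZero d] in
theorem bf_t (G : (Z d → Sg) → (Z d → St) → St) (B : Z d × ℕ → Sg) (w : Z d) :
    bf G (tN w B) = tB w (bf G B) := by
  funext u i
  unfold bf tB tN
  have e : (fun x : Z d => B (u + x + w, i)) = fun x => B (u + w + x, i) := by
    funext x
    rw [add_right_comm]
  show Bd G (fun x => B (u + x + w, i)) = Bd G fun x => B (u + w + x, i)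
  rw [e]

theorem psi_t (G : (Z d → Sg) → (Z d → St) → St) (ρ : ℕ) (ω : Ix d → Sg) (w : Z d) (t : ℕ) :
    Psi G ρ (fun i => ω (ti w i)) t = fun i => Psi G ρ ω t (ti w i) := by
  induction t with
  | zero => rfl
  | succ t ih =>
    funext i
    rw [Psi, Psi, ih]
    have e : bf G (fun a => Psi G ρ ω t (ti w (Sum.inl a))) =
        tB w (bf G (fun a => Psi G ρ ω t (Sum.inl a))) :=
      bf_t G (fun a => Psi G ρ ω t (Sum.inl a)) w
    show Psi G ρ ω t (ti w (sg ρ (bf G (fun a => Psi G ρ ω t (ti w (Sum.inl a)))) t i)) = _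
    rw [e, sg_t]

omit [NeZero d] in
theorem out_t (G : (Z d → Sg) → (Z d → St) → St) (ρ : ℕ) (B : Z d × ℕ → Sg)
    (A : Set (Z d × ℕ)) (w : Z d) {v : Z d} {j : ℕ} {a : St}
    (h : Out G ρ (tN w B) (tA w A) v j a) : Out G ρ B A (v + w) j a := by
  induction h with
  | good v j s h hb =>
    have e : (fun x : Z d => tN w B (v + x, j)) = fun x => B (v + w + x, j) := by
      funext x
      show B (v + x + w, j) = _
      rw [add_right_comm]
    rw [e]
    refine Out.good (v + w) j s (full_t.1 h) ?_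
    rw [bf_t] at hb
    exact hb
  | bad v j s h hs ih =>
    have e : (fun x : Z d => tN w B (v + x, j)) = fun x => B (v + w + x, j) := by
      funext x
      show B (v + x + w, j) = _
      rw [add_right_comm]
    rw [e]
    refine Out.bad (v + w) j s (full_t.1 h) fun y hy => ?_
    rw [add_right_comm]
    exact ih y hy

omit [NeZero d] in
theorem out_iff (G : (Z d → Sg) → (Z d → St) → St) (ρ : ℕ) (B : Z d × ℕ → Sg)
    (A : Set (Z d × ℕ)) (w : Z d) {v : Z d} {j : ℕ} {a : St} :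
    Out G ρ (tN w B) (tA w A) v j a ↔ Out G ρ B A (v + w) j a := by
  refine ⟨out_t G ρ B A w, fun h => ?_⟩
  have e1 : tN (-w) (tN w B) = B := by
    funext b
    show B (b.1 + -w + w, b.2) = B b
    rw [neg_add_cancel_right]
  have e2 : tA (-w) (tA w A) = A := by
    ext b
    show (b.1 + -w + w, b.2) ∈ A ↔ b ∈ A
    rw [neg_add_cancel_right]
  have h' : Out G ρ (tN (-w) (tN w B)) (tA (-w) (tA w A)) (v + w) j a := by
    rw [e1, e2]
    exact h
  have h2 := out_t G ρ (tN w B) (tA w A) (-w) h'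
  rwa [add_neg_cancel_right] at h2

end

theorem trans' : S_trans := by
  intro d _ Sg St G ρ ω t w v a
  unfold Dt rat bt
  rw [psi_t]
  have e : bf G (fun b => Psi G ρ ω t (ti w (Sum.inl b))) =
      tB w (bf G (fun b => Psi G ρ ω t (Sum.inl b))) :=
    bf_t G (fun b => Psi G ρ ω t (Sum.inl b)) w
  show Out G ρ (tN w fun b => Psi G ρ ω t (Sum.inl b))
    (ra ρ (bf G (fun b => Psi G ρ ω t (ti w (Sum.inl b)))) t) v 0 a ↔ _
  rw [e, ra_t]
  exact out_iff G ρ _ _ w

end Pool.Agent.H898.FV
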