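import Pool.Agent.H960.FV.BASIC
import Pool.Agent.H960.FV.STOP
import Pool.Agent.H960.FV.STEP
import Pool.Agent.H960.FV.DLOC
import Pool.Agent.H960.FV.CONS
import Pool.Agent.H960.FV.CFTP
import Pool.Agent.H960.FV.TRANS
import Pool.Agent.H960.FV.PAIR
import Pool.Agent.H960.FV.REIDX
import Pool.Agent.H960.FV.BLOCKMAP
import Pool.Agent.H960.FV.PHIMEAS
import Pool.Agent.H960.FV.PHIEQ
import Pool.Agent.H960.FV.T1
import Pool.Agent.H960.FV.T2B0
import Pool.Agent.H960.FV.T2B
import Pool.Agent.H960.FV.T2C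
import Pool.Agent.H960.FV.T5A
import Pool.Agent.H960.FV.T4A
import Pool.Agent.H960.FV.T5B
import Pool.Agent.H960.FV.T5
import Pool.Agent.H960.FV.PCALOC
import Pool.Agent.H960.FV.PCABAD
import Pool.Agent.H960.FV.FIN
import Pool.Agent.H960.FV.PERM
import Pool.Agent.H960.FV.MP
import Pool.Agent.H960.FV.SPEED
import Pool.Agent.H960.FV.PHITAIL
import Pool.Agent.H960.FV.PHILAW
import Pool.Agent.H960.FV.T2A
import Pool.Agent.H960.FV.T3
import Pool.Agent.H960.FV.T4A1
import Pool.Agent.H960.FV.T4B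
import Pool.Agent.H960.FV.T4
import Pool.Agent.H960.FV.T5C
import Pool.Agent.H960.FV.T5D
import Pool.Agent.H960.FV.PCALAW
import Pool.Agent.H960.FV.FINAL

/-!
Project FV (helper960): assembly.
-/

namespace H960FV

open Pool.Agent

theorem a_basic : S_basic := H727.FV.basic
theorem a_stop : S_stop := H21.FV.stop
theorem a_step : S_step := H97.FV.step a_stop a_basic
theorem a_fin : S_fin := H772.FV.fin a_basic
theorem a_perm : S_perm := H803.FV.perm
theorem a_mp : S_mp := H945.FV.mp a_perm a_stop a_basic a_fin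
theorem a_speed : S_speed := H924.FV.speed a_step a_basic
theorem a_dloc : S_dloc := H345.FV.dloc a_speed a_basic
theorem a_cons : S_cons := H279.FV.cons a_step
theorem a_cftp : S_cftp := H268.FV.cftp
theorem a_trans : S_trans := H898.FV.trans'
theorem a_pair : S_pair := H229.FV.pair
theorem a_reidx : S_reidx := H86.FV.reidx
theorem a_blockmap : S_blockmap := H729.FV.blockmap
theorem a_phimeas : S_phimeas := H897.FV.phimeas a_dloc a_cons a_cftp
theorem a_phieq : S_phieq := H782.FV.phieq a_trans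
theorem a_phitail : S_phitail := H640.FV.phitail a_dloc a_cons a_cftp a_pair
theorem a_philaw : S_philaw :=
  H971.FV.philaw a_dloc a_cons a_cftp a_pair a_mp a_trans a_phimeas a_reidx
theorem a_T1 : S_T1 := H443.FV.T1 a_basic
theorem a_T2a : S_T2a := H161.FV.T2a a_basic
theorem a_T2b0 : S_T2b0 := H284.FV.T2b0 a_basic
theorem a_T2b : S_T2b := H176.FV.T2b a_basic a_T2b0
theorem a_T2c : S_T2c := H975.FV.T2c a_T2b0
theorem a_T3 : S_T3 := H505.FV.T3
theorem a_T5a : S_T5a := H670.FV.T5a a_T2a a_T2b a_T2c a_T3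
theorem a_T4a1 : S_T4a1 := H280.FV.T4a1
theorem a_T4a : S_T4a := H276.FV.T4a a_T4a1
theorem a_T4b : S_T4b := H152.FV.T4b a_T4a
theorem a_T4 : S_T4 := H127.FV.T4 a_T4b
theorem a_T5b : S_T5b := H725.FV.T5b a_T4
theorem a_T5c : S_T5c := H801.FV.T5c
theorem a_T5d : S_T5d := H299.FV.T5d a_T5a a_T5b a_T5c
theorem a_T5 : S_T5 := H224.FV.T5 a_T1 a_mp a_T5d a_reidx
theorem a_pcaloc : S_pcaloc := H921.FV.pcaloc
theorem a_pcabad : S_pcabad := H947.FV.pcabad a_pcaloc a_blockmap
theorem a_pcalaw : S_pcalaw := H187.FV.pcalaw a_pcaloc a_blockmap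
theorem a_final : S_final :=
  H322.FV.final a_T5 a_phimeas a_phieq a_phitail a_philaw a_pcaloc a_pcabad a_pcalaw

end H960FV
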