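import Pool.Agent.H960.FV.Bas

/-!
Project FV (helper960): basic facts on the allocation algorithm.
-/

set_option autoImplicit false

open MeasureTheory Filter Topology

namespace Pool.Agent.H727.FV

open H960FV

section

variable {d : ℕ} [NeZero d] {ρ : ℕ} {β : Z d → ℕ → Prop}

theorem cand_le {t : ℕ} (h : ∀ x j, (x, j) ∈ ra ρ β t → j ≤ t) {x : Z d} {j : ℕ}
    (hj : j ∈ Cand ρ β (ra ρ β t) x) : 1 ≤ j ∧ j ≤ t + 1 := by
  obtain ⟨⟨u, i, rfl, -, hf, -⟩, -⟩ := hj
  have h1 := h _ _ (hf 0 zero_mem_bx)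
  omega

theorem ra_le (t : ℕ) : ∀ x j, (x, j) ∈ ra ρ β t → j ≤ t := by
  induction t with
  | zero =>
    intro x j h
    rw [ra_zero] at h
    exact le_of_eq h
  | succ t ih =>
    intro x j h
    rw [mem_ra_succ] at h
    rcases h with h | ⟨h1, h2⟩
    · exact (ih x j h).trans (Nat.le_succ t)
    · have h3 : j = lv ρ β t x := h2
      rw [h3]
      exact (cand_le ih (lv_mem h1.1)).2

theorem mono_t {t s : ℕ} (h : s ≤ t) : ra ρ β s ⊆ ra ρ β t ∧ ru ρ β s ⊆ ru ρ β t := by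
  induction t, h using Nat.le_induction with
  | base => exact ⟨subset_rfl, subset_rfl⟩
  | succ t _ ih =>
    refine ⟨fun a ha => ?_, fun w hw => ?_⟩
    · rw [mem_ra_succ]
      exact Or.inl (ih.1 ha)
    · rw [mem_ru_succ]
      exact Or.inl (ih.2 hw)

theorem sg_inl_pos {t : ℕ} {a : Z d × ℕ} (h : act ρ β t a.1 ∧ a.2 = lv ρ β t a.1) :
    sg ρ β t (Sum.inl a) = Sum.inr (a.1 + sh t) := if_pos h

theorem sg_inl_neg {t : ℕ} {a : Z d × ℕ} (h : ¬ (act ρ β t a.1 ∧ a.2 = lv ρ β t a.1)) :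
    sg ρ β t (Sum.inl a) = Sum.inl a := if_neg h

theorem sg_inr_pos {t : ℕ} {w : Z d} (h : act ρ β t (w - sh t)) :
    sg ρ β t (Sum.inr w) = Sum.inl (w - sh t, lv ρ β t (w - sh t)) := if_pos h

theorem sg_inr_neg {t : ℕ} {w : Z d} (h : ¬ act ρ β t (w - sh t)) :
    sg ρ β t (Sum.inr w) = Sum.inr w := if_neg h

end

theorem basic : S_basic := by
  intro d _ ρ β
  refine ⟨ra_le, fun t x j h => cand_le (ra_le t) h, fun t s h => mono_t h, ?_, ?_, ?_⟩
  · rintro t (a | w)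
    · by_cases h : act ρ β t a.1 ∧ a.2 = lv ρ β t a.1
      · rw [sg_inl_pos h]
        have h1 : act ρ β t (a.1 + sh t - sh t) := by
          rw [add_sub_cancel_right]
          exact h.1
        rw [sg_inr_pos h1, add_sub_cancel_right, ← h.2]
      · rw [sg_inl_neg h, sg_inl_neg h]
    · by_cases h : act ρ β t (w - sh t)
      · rw [sg_inr_pos h, sg_inl_pos (a := (w - sh t, lv ρ β t (w - sh t))) ⟨h, rfl⟩]
        show (Sum.inr (w - sh t + sh t) : Ix d) = Sum.inr w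
        rw [sub_add_cancel]
      · rw [sg_inr_neg h, sg_inr_neg h]
  · intro t a ha
    refine sg_inl_neg ?_
    rintro ⟨h1, h2⟩
    have h3 := (lv_mem h1.1).2
    rw [← h2] at h3
    exact h3 ha
  · intro t w hw
    refine sg_inr_neg ?_
    rintro ⟨-, h2⟩
    rw [sub_add_cancel] at h2
    exact h2 hw

end Pool.Agent.H727.FV
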