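import Mathlib

/-!
Project FV (helper960), MP_fe4781_pr: limits of exponentially uniformly ergodic PCA are
finitary factors of finite valued iid processes with exponential tails.
Definitions and statements of all steps.
-/

open MeasureTheory Filter Topology

namespace H960FV

/-- the lattice -/
abbrev Z (d : ℕ) := Fin d → ℤ

/-- the box of radius `r` -/
noncomputable def bx (d r : ℕ) : Finset (Z d) := Fintype.piFinset fun _ => Finset.Icc (-(r : ℤ)) r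

/-- the shift of stage `t`: `t + 1` times the first unit vector -/
def sh {d : ℕ} [NeZero d] (t : ℕ) : Z d := Pi.single 0 ((t : ℤ) + 1)

section alg

variable {d : ℕ} {Sg St : Type}

/-- all the noise of the window of `u` at level `i` is served -/
def Full (ρ : ℕ) (A : Set (Z d × ℕ)) (u : Z d) (i : ℕ) : Prop :=
  ∀ y ∈ bx d ρ, (u + y, i) ∈ A

/-- the noise at `x`, level `j`, is demanded -/
def Dem (ρ : ℕ) (β : Z d → ℕ → Prop) (A : Set (Z d × ℕ)) (x : Z d) (j : ℕ) : Prop :=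
  ∃ (u : Z d) (i : ℕ), j = i + 1 ∧ x - u ∈ bx d (2 * ρ) ∧ Full ρ A u i ∧ β u i

/-- the demanded but not served levels at `x` -/
def Cand (ρ : ℕ) (β : Z d → ℕ → Prop) (A : Set (Z d × ℕ)) (x : Z d) : Set ℕ :=
  {j | Dem ρ β A x j ∧ (x, j) ∉ A}

/-- the allocation algorithm: served set and used spots after `t` stages -/
noncomputable def run [NeZero d] (ρ : ℕ) (β : Z d → ℕ → Prop) : ℕ → Set (Z d × ℕ) × Set (Z d)
  | 0 => ({a | a.2 = 0}, ∅)
  | t + 1 =>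
    ((run ρ β t).1 ∪ {a | (Cand ρ β (run ρ β t).1 a.1).Nonempty ∧ a.1 + sh t ∉ (run ρ β t).2 ∧
        a.2 = sInf (Cand ρ β (run ρ β t).1 a.1)},
      (run ρ β t).2 ∪ {w | (Cand ρ β (run ρ β t).1 (w - sh t)).Nonempty})

/-- served set -/
noncomputable def ra [NeZero d] (ρ : ℕ) (β : Z d → ℕ → Prop) (t : ℕ) : Set (Z d × ℕ) :=
  (run ρ β t).1

/-- used spots -/
noncomputable def ru [NeZero d] (ρ : ℕ) (β : Z d → ℕ → Prop) (t : ℕ) : Set (Z d) :=
  (run ρ β t).2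

/-- the site `v` is served at stage `t` -/
def act [NeZero d] (ρ : ℕ) (β : Z d → ℕ → Prop) (t : ℕ) (v : Z d) : Prop :=
  (Cand ρ β (ra ρ β t) v).Nonempty ∧ v + sh t ∉ ru ρ β t

/-- the level which is served at `v` at stage `t` -/
noncomputable def lv [NeZero d] (ρ : ℕ) (β : Z d → ℕ → Prop) (t : ℕ) (v : Z d) : ℕ :=
  sInf (Cand ρ β (ra ρ β t) v)

/-- indices: virtual noise and spots -/
abbrev Ix (d : ℕ) := (Z d × ℕ) ⊕ Z d

open Classical in
/-- the involution of the indices at stage `t` -/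
noncomputable def sg [NeZero d] (ρ : ℕ) (β : Z d → ℕ → Prop) (t : ℕ) : Ix d → Ix d
  | Sum.inl a => if act ρ β t a.1 ∧ a.2 = lv ρ β t a.1 then Sum.inr (a.1 + sh t) else Sum.inl a
  | Sum.inr w => if act ρ β t (w - sh t) then Sum.inl (w - sh t, lv ρ β t (w - sh t))
      else Sum.inr w

/-- the window map with the noise `a` is not constant -/
def Bd (G : (Z d → Sg) → (Z d → St) → St) (a : Z d → Sg) : Prop :=
  ∃ s s', G a s ≠ G a s'

/-- bad sites and levels -/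
def bf (G : (Z d → Sg) → (Z d → St) → St) (B : Z d × ℕ → Sg) (u : Z d) (i : ℕ) : Prop :=
  Bd G (fun x => B (u + x, i))

/-- the window map looks at the box of radius `ρ` only -/
def IsLoc (ρ : ℕ) (G : (Z d → Sg) → (Z d → St) → St) : Prop :=
  ∀ a a' s s', (∀ x ∈ bx d ρ, a x = a' x) → (∀ x ∈ bx d ρ, s x = s' x) → G a s = G a' s'

/-- the configuration after `t` swaps -/
noncomputable def Psi [NeZero d] (G : (Z d → Sg) → (Z d → St) → St) (ρ : ℕ) (ω : Ix d → Sg) :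
    ℕ → Ix d → Sg
  | 0 => ω
  | t + 1 => fun i => Psi G ρ ω t (sg ρ (bf G (fun a => Psi G ρ ω t (Sum.inl a))) t i)

/-- bad field after `t` swaps -/
def bt [NeZero d] (G : (Z d → Sg) → (Z d → St) → St) (ρ : ℕ) (ω : Ix d → Sg) (t : ℕ) :
    Z d → ℕ → Prop :=
  bf G (fun a => Psi G ρ ω t (Sum.inl a))

/-- served set after `t` swaps -/
noncomputable def rat [NeZero d] (G : (Z d → Sg) → (Z d → St) → St) (ρ : ℕ) (ω : Ix d → Sg)
    (t : ℕ) : Set (Z d × ℕ) :=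
  ra ρ (bt G ρ ω t) t

/-- the output relation, `B` the noise and `A` the served set -/
inductive Out (G : (Z d → Sg) → (Z d → St) → St) (ρ : ℕ) (B : Z d × ℕ → Sg)
    (A : Set (Z d × ℕ)) : Z d → ℕ → St → Prop
  | good (v : Z d) (j : ℕ) (s : Z d → St) (h : Full ρ A v j) (hb : ¬ bf G B v j) :
      Out G ρ B A v j (G (fun x => B (v + x, j)) s)
  | bad (v : Z d) (j : ℕ) (s : Z d → St) (h : Full ρ A v j)
      (hs : ∀ y ∈ bx d ρ, Out G ρ B A (v + y) (j + 1) (s y)) :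
      Out G ρ B A v j (G (fun x => B (v + x, j)) s)

/-- evaluation from level `j + k` down to level `j` -/
def ev (G : (Z d → Sg) → (Z d → St) → St) (B : Z d × ℕ → Sg) (s0 : Z d → St) :
    ℕ → ℕ → Z d → St
  | 0 => fun _ v => s0 v
  | k + 1 => fun j v => G (fun x => B (v + x, j)) (fun x => ev G B s0 k (j + 1) (v + x))

/-- the value at `v` is `a` after `t` swaps -/
def Dt [NeZero d] (G : (Z d → Sg) → (Z d → St) → St) (ρ : ℕ) (ω : Ix d → Sg) (t : ℕ)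
    (v : Z d) (a : St) : Prop :=
  Out G ρ (fun b => Psi G ρ ω t (Sum.inl b)) (rat G ρ ω t) v 0 a

/-- the embedding of the coding alphabet -/
def emb (x : Z d → Sg × Sg) : Ix d → Sg
  | Sum.inl a => (x a.1).1
  | Sum.inr w => (x w).2

/-- the coding -/
noncomputable def phi [NeZero d] [Nonempty St] (G : (Z d → Sg) → (Z d → St) → St) (ρ : ℕ)
    (x : Z d → Sg × Sg) : Z d → St :=
  fun v => Classical.epsilon fun a => ∃ t, Dt G ρ (emb x) t v a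

/-- translation of the indices -/
def ti (w : Z d) : Ix d → Ix d
  | Sum.inl a => Sum.inl (a.1 + w, a.2)
  | Sum.inr v => Sum.inr (v + w)

end alg

/-! ### The algorithm -/

/-- the run up to stage `t + 1` looks only at the bad field where the windows are full -/
def S_stop : Prop := ∀ (d : ℕ) [NeZero d] (ρ : ℕ) (β β' : Z d → ℕ → Prop) (t : ℕ),
  (∀ u i, Full ρ (ra ρ β t) u i → (β u i ↔ β' u i)) → ∀ s ≤ t + 1, run ρ β' s = run ρ β s

/-- basic facts: levels, monotonicity, involution -/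
def S_basic : Prop := ∀ (d : ℕ) [NeZero d] (ρ : ℕ) (β : Z d → ℕ → Prop),
  (∀ t x j, (x, j) ∈ ra ρ β t → j ≤ t) ∧
  (∀ t x j, j ∈ Cand ρ β (ra ρ β t) x → 1 ≤ j ∧ j ≤ t + 1) ∧
  (∀ t s, s ≤ t → ra ρ β s ⊆ ra ρ β t ∧ ru ρ β s ⊆ ru ρ β t) ∧
  (∀ t i, sg ρ β t (sg ρ β t i) = i) ∧
  (∀ t a, a ∈ ra ρ β t → sg ρ β t (Sum.inl a) = Sum.inl a) ∧
  (∀ t w, w ∈ ru ρ β t → sg ρ β t (Sum.inr w) = Sum.inr w)

/-- the involution depends locally on the noise -/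
def S_fin : Prop := ∀ (d : ℕ) [NeZero d] (Sg St : Type) (G : (Z d → Sg) → (Z d → St) → St)
  (ρ : ℕ), IsLoc ρ G → ∀ (t : ℕ) (i : Ix d), ∃ K : Finset (Ix d), ∀ ω ω' : Ix d → Sg,
    (∀ k ∈ K, ω k = ω' k) →
    sg ρ (bf G (fun a => ω (Sum.inl a))) t i = sg ρ (bf G (fun a => ω' (Sum.inl a))) t i

/-- random involutions which do not look at what they move preserve the product measure -/
def S_perm : Prop := ∀ (I : Type) [Countable I] (Sg : Type) [Finite Sg] [MeasurableSpace Sg]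
  [MeasurableSingletonClass Sg] (ν : Measure Sg) [IsProbabilityMeasure ν]
  (σ : (I → Sg) → I → I), (∀ ω i, σ ω (σ ω i) = i) →
  (∀ i, ∃ K : Finset I, ∀ ω ω' : I → Sg, (∀ k ∈ K, ω k = ω' k) → σ ω i = σ ω' i) →
  (∀ ω ω' : I → Sg, (∀ i, σ ω i = i → ω' i = ω i) → σ ω' = σ ω) →
  MeasurePreserving (fun (ω : I → Sg) i => ω (σ ω i)) (Measure.infinitePi fun _ : I => ν)
    (Measure.infinitePi fun _ : I => ν)

/-- all the swap maps preserve the product measure -/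
def S_mp : Prop := ∀ (d : ℕ) [NeZero d] (Sg St : Type) [Finite Sg] [MeasurableSpace Sg]
  [MeasurableSingletonClass Sg] (ν : Measure Sg) [IsProbabilityMeasure ν]
  (G : (Z d → Sg) → (Z d → St) → St) (ρ : ℕ), IsLoc ρ G → ∀ t : ℕ,
  MeasurePreserving (fun ω : Ix d → Sg => Psi G ρ ω t) (Measure.infinitePi fun _ : Ix d => ν)
    (Measure.infinitePi fun _ : Ix d => ν)

/-- consistency of two successive swaps -/
def S_step : Prop := ∀ (d : ℕ) [NeZero d] (Sg St : Type) (G : (Z d → Sg) → (Z d → St) → St)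
  (ρ : ℕ), IsLoc ρ G → ∀ (ω : Ix d → Sg) (t : ℕ),
  (∀ s ≤ t + 1, run ρ (bt G ρ ω (t + 1)) s = run ρ (bt G ρ ω t) s) ∧
  (∀ a ∈ rat G ρ ω t, a ∈ rat G ρ ω (t + 1) ∧
    Psi G ρ ω (t + 1) (Sum.inl a) = Psi G ρ ω t (Sum.inl a)) ∧
  (∀ u i, Full ρ (rat G ρ ω t) u i → (bt G ρ ω (t + 1) u i ↔ bt G ρ ω t u i)) ∧
  (∀ w, w ∉ ru ρ (bt G ρ ω t) t → Psi G ρ ω t (Sum.inr w) = ω (Sum.inr w))

/-- finite speed -/
def S_speed : Prop := ∀ (d : ℕ) [NeZero d] (Sg St : Type) (G : (Z d → Sg) → (Z d → St) → St)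
  (ρ : ℕ), IsLoc ρ G → ∀ (ω ω' : Ix d → Sg) (t : ℕ) (x : Z d),
  (∀ y, y - x ∈ bx d ((3 * ρ + 1) * t) →
    ω (Sum.inl (y, 0)) = ω' (Sum.inl (y, 0)) ∧ ω (Sum.inr y) = ω' (Sum.inr y)) →
  ∀ j, ((x, j) ∈ rat G ρ ω t ↔ (x, j) ∈ rat G ρ ω' t) ∧
    ((x, j) ∈ rat G ρ ω t → Psi G ρ ω t (Sum.inl (x, j)) = Psi G ρ ω' t (Sum.inl (x, j)))

/-- the output after `t` swaps is a local function -/
def S_dloc : Prop := ∀ (d : ℕ) [NeZero d] (Sg St : Type) (G : (Z d → Sg) → (Z d → St) → St)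
  (ρ : ℕ), IsLoc ρ G → ∀ (ω ω' : Ix d → Sg) (t : ℕ) (v : Z d) (a : St),
  (∀ y, y - v ∈ bx d ((4 * ρ + 1) * (t + 1)) →
    ω (Sum.inl (y, 0)) = ω' (Sum.inl (y, 0)) ∧ ω (Sum.inr y) = ω' (Sum.inr y)) →
  (Dt G ρ ω t v a ↔ Dt G ρ ω' t v a)

/-- outputs persist -/
def S_cons : Prop := ∀ (d : ℕ) [NeZero d] (Sg St : Type) (G : (Z d → Sg) → (Z d → St) → St)
  (ρ : ℕ), IsLoc ρ G → ∀ (ω : Ix d → Sg) (t : ℕ) (v : Z d) (a : St),
  Dt G ρ ω t v a → Dt G ρ ω (t + 1) v a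

/-- outputs are values of coupling from the past -/
def S_cftp : Prop := ∀ (d : ℕ) (Sg St : Type) (G : (Z d → Sg) → (Z d → St) → St)
  (ρ : ℕ), IsLoc ρ G → ∀ (B : Z d × ℕ → Sg) (A : Set (Z d × ℕ)) (v : Z d) (j : ℕ) (a : St),
  Out G ρ B A v j a → ∃ K : ℕ, ∀ k ≥ K, ∀ s0, ev G B s0 k j v = a

/-- translation -/
def S_trans : Prop := ∀ (d : ℕ) [NeZero d] (Sg St : Type) (G : (Z d → Sg) → (Z d → St) → St)
  (ρ : ℕ) (ω : Ix d → Sg) (t : ℕ) (w v : Z d) (a : St),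
  Dt G ρ (fun i => ω (ti w i)) t v a ↔ Dt G ρ ω t (v + w) a

/-- the pair of the level zero noise and the spot is iid -/
def S_pair : Prop := ∀ (d : ℕ) (Sg : Type) [Finite Sg] [MeasurableSpace Sg]
  [MeasurableSingletonClass Sg] (ν : Measure Sg) [IsProbabilityMeasure ν],
  MeasurePreserving (fun (ω : Ix d → Sg) (v : Z d) => (ω (Sum.inl (v, 0)), ω (Sum.inr v)))
    (Measure.infinitePi fun _ : Ix d => ν) (Measure.infinitePi fun _ : Z d => ν.prod ν)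

/-- injective reindexing into blocks preserves the product measure -/
def S_blockmap : Prop := ∀ (I J : Type) [Countable I] [Countable J] (n : ℕ) (A : Type) [Finite A]
  [MeasurableSpace A] [MeasurableSingletonClass A] (α : Measure A) [IsProbabilityMeasure α]
  (e : J × Fin n → I), Function.Injective e →
  MeasurePreserving (fun (W : I → A) (j : J) (κ : Fin n) => W (e (j, κ)))
    (Measure.infinitePi fun _ : I => α)
    (Measure.infinitePi fun _ : J => Measure.pi fun _ : Fin n => α)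

/-- injective reindexing preserves the product measure -/
def S_reidx : Prop := ∀ (I J : Type) [Countable I] [Countable J] (T : Type) [MeasurableSpace T]
  (ν : Measure T) [IsProbabilityMeasure ν] (e : J → I), Function.Injective e →
  MeasurePreserving (fun (W : I → T) (j : J) => W (e j))
    (Measure.infinitePi fun _ : I => ν) (Measure.infinitePi fun _ : J => ν)

/-- measurability of the coding -/
def S_phimeas : Prop := ∀ (d : ℕ) [NeZero d] (Sg St : Type) [Finite Sg] [MeasurableSpace Sg]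
  [MeasurableSingletonClass Sg] [Finite St] [Nonempty St] [MeasurableSpace St]
  [MeasurableSingletonClass St] (G : (Z d → Sg) → (Z d → St) → St) (ρ : ℕ), IsLoc ρ G →
  Measurable (phi G ρ : (Z d → Sg × Sg) → Z d → St)

/-- equivariance of the coding -/
def S_phieq : Prop := ∀ (d : ℕ) [NeZero d] (Sg St : Type) [Nonempty St]
  (G : (Z d → Sg) → (Z d → St) → St) (ρ : ℕ) (x : Z d → Sg × Sg) (w v : Z d),
  phi G ρ (fun u => x (u + w)) v = phi G ρ x (v + w)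

/-- exponential tail of the algorithm -/
def Tail (d : ℕ) [NeZero d] (Sg St : Type) [MeasurableSpace Sg] (ν : Measure Sg)
    (G : (Z d → Sg) → (Z d → St) → St) (ρ : ℕ) : Prop :=
  ∃ C c : ℝ, 0 < c ∧ ∀ t : ℕ, (Measure.infinitePi fun _ : Ix d => ν).real
    {ω | ¬ ∃ a, Dt G ρ ω t 0 a} ≤ C * Real.exp (-c * t)

/-- the tail of the coding radius -/
def S_phitail : Prop := ∀ (d : ℕ) [NeZero d] (Sg St : Type) [Finite Sg] [MeasurableSpace Sg]
  [MeasurableSingletonClass Sg] (ν : Measure Sg) [IsProbabilityMeasure ν]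
  [Finite St] [Nonempty St] (G : (Z d → Sg) → (Z d → St) → St) (ρ : ℕ), IsLoc ρ G →
  Tail d Sg St ν G ρ →
  ∃ C c : ℝ, 0 < c ∧ ∀ r : ℕ, (Measure.infinitePi fun _ : Z d => ν.prod ν).real
    {x | ∃ x' : Z d → Sg × Sg, (∀ v : Z d, ∑ i, |v i| ≤ (r : ℤ) → x' v = x v) ∧
      phi G ρ x' 0 ≠ phi G ρ x 0} ≤ C * Real.exp (-c * r)

/-- the law of the coding -/
def S_philaw : Prop := ∀ (d : ℕ) [NeZero d] (Sg St : Type) [Finite Sg] [MeasurableSpace Sg]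
  [MeasurableSingletonClass Sg] (ν : Measure Sg) [IsProbabilityMeasure ν]
  [Finite St] [Nonempty St] [MeasurableSpace St] [MeasurableSingletonClass St]
  (G : (Z d → Sg) → (Z d → St) → St) (ρ : ℕ), IsLoc ρ G → Tail d Sg St ν G ρ →
  ∀ (m : Measure (Z d → St)) [IsProbabilityMeasure m],
  (∀ (s0 : Z d → St) (Λ : Finset (Z d)) (η : Z d → St),
    Tendsto (fun k => (Measure.infinitePi fun _ : Z d × ℕ => ν).real
      {B | ∀ v ∈ Λ, ev G B s0 k 0 v = η v}) atTop (𝓝 (m.real {ξ | ∀ v ∈ Λ, ξ v = η v}))) →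
  (Measure.infinitePi fun _ : Z d => ν.prod ν).map (phi G ρ) = m

/-! ### The tail -/

/-- not determined implies a candidate nearby -/
def S_T1 : Prop := ∀ (d : ℕ) [NeZero d] (Sg St : Type) [Nonempty St]
  (G : (Z d → Sg) → (Z d → St) → St) (ρ : ℕ), IsLoc ρ G → ∀ (ω : Ix d → Sg) (t : ℕ),
  (¬ ∃ a, Dt G ρ ω t 0 a) →
  ∃ x ∈ bx d (2 * ρ * (t + 1)), (Cand ρ (bt G ρ ω t) (rat G ρ ω t) x).Nonempty

/-- the spots of a family of triples (site, level, stage) -/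
noncomputable def spots {d : ℕ} [NeZero d] (C : Finset (Z d × ℕ × ℕ)) : Finset (Z d) :=
  C.image fun c => c.1 + sh c.2.2

/-- closed families of triples (site, level, stage) -/
structure Fam {d : ℕ} [NeZero d] (ρ : ℕ) (β : Z d → ℕ → Prop) (t : ℕ) (x0 : Z d)
    (C : Finset (Z d × ℕ × ℕ)) : Prop where
  start : ∃ j, (x0, j, t) ∈ C
  val : ∀ x j τ, (x, j, τ) ∈ C → τ ≤ t ∧ j ∈ Cand ρ β (ra ρ β τ) x
  pred : ∀ x j τ, (x, j, τ + 1) ∈ C → (x, j, τ) ∈ C ∨ ∃ (i : ℕ) (u x' : Z d),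
    j = i + 1 ∧ (x', i, τ) ∈ C ∧ β u i ∧ x - u ∈ bx d (2 * ρ) ∧ x' - u ∈ bx d ρ
  srv : ∀ x j τ, (x, j, τ) ∈ C → ∃ z k σ, (z, k, σ) ∈ C ∧ z + sh σ = x + sh τ ∧
    k = sInf (Cand ρ β (ra ρ β σ) z) ∧ z + sh σ ∉ ru ρ β σ
  conn : ∀ w ∈ spots C, Relation.ReflTransGen
    (fun a b : Z d => a ∈ spots C ∧ b ∈ spots C ∧ b - a ∈ bx d (3 * ρ + 1)) (x0 + sh t) w

/-- a candidate generates a closed family -/
def S_T2a : Prop := ∀ (d : ℕ) [NeZero d] (ρ : ℕ) (β : Z d → ℕ → Prop) (t : ℕ) (x0 : Z d),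
  (Cand ρ β (ra ρ β t) x0).Nonempty → ∃ C : Finset (Z d × ℕ × ℕ), Fam ρ β t x0 C

open Classical in
/-- the bad part of `V` at level `i` -/
noncomputable def bp {d : ℕ} (β : Z d → ℕ → Prop) (i : ℕ) (V : Finset (Z d)) : Finset (Z d) :=
  V.filter fun u => β u i

/-- thickening -/
noncomputable def th {d : ℕ} (V : Finset (Z d)) (r : ℕ) : Finset (Z d) :=
  (V ×ˢ bx d r).image fun p => p.1 + p.2

/-- exploration -/
noncomputable def ex {d : ℕ} (ρ : ℕ) (β : Z d → ℕ → Prop) (V : Finset (Z d)) : ℕ → Finset (Z d)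
  | 0 => V
  | i + 1 => th (bp β i (ex ρ β V i)) (3 * ρ)

/-- number of bad sites met by the exploration in the first `k` levels -/
noncomputable def bn {d : ℕ} (ρ : ℕ) (β : Z d → ℕ → Prop) (V : Finset (Z d)) (k : ℕ) : ℕ :=
  ∑ i ∈ Finset.range k, (bp β i (ex ρ β V i)).card

/-- the causes are met by the exploration -/
def S_T2b0 : Prop := ∀ (d : ℕ) [NeZero d] (ρ : ℕ) (β : Z d → ℕ → Prop) (t : ℕ) (x0 : Z d)
  (C : Finset (Z d × ℕ × ℕ)), Fam ρ β t x0 C → ∀ x j τ, (x, j, τ) ∈ C →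
  ∃ (i : ℕ) (u : Z d), j = i + 1 ∧ i ≤ τ ∧ u ∈ bp β i (ex ρ β (th (spots C) (2 * ρ + 1)) i) ∧
    x - u ∈ bx d (2 * ρ)

/-- the number of spots is bounded by the number of bad sites -/
def S_T2b : Prop := ∀ (d : ℕ) [NeZero d] (ρ : ℕ) (β : Z d → ℕ → Prop) (t : ℕ) (x0 : Z d)
  (C : Finset (Z d × ℕ × ℕ)), Fam ρ β t x0 C →
  (spots C).card ≤ (4 * ρ + 1) ^ d * bn ρ β (th (spots C) (2 * ρ + 1)) (t + 1)

/-- the time is bounded by the number of spots and the number of bad sites -/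
def S_T2c : Prop := ∀ (d : ℕ) [NeZero d] (ρ : ℕ) (β : Z d → ℕ → Prop) (t : ℕ) (x0 : Z d)
  (C : Finset (Z d × ℕ × ℕ)), Fam ρ β t x0 C →
  t + 1 ≤ (spots C).card + 6 * ρ * bn ρ β (th (spots C) (2 * ρ + 1)) (t + 1)

/-- covering of a connected set by a short walk -/
def S_T3 : Prop := ∀ (d q l n : ℕ) (P : Finset (Z d)) (w0 : Z d), 1 ≤ l → P.card ≤ n → w0 ∈ P →
  (∀ w ∈ P, Relation.ReflTransGen
    (fun a b : Z d => a ∈ P ∧ b ∈ P ∧ b - a ∈ bx d q) w0 w) →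
  ∃ z : ℕ → Z d, z 0 = w0 ∧ (∀ i, z (i + 1) - z i ∈ bx d (q * l)) ∧
    ∀ w ∈ P, ∃ i ≤ 2 * n / l, w - z i ∈ bx d (q * l)

/-- union of the boxes of radius `r` around the first `k + 1` points of a walk -/
noncomputable def Vz {d : ℕ} (z : ℕ → Z d) (k r : ℕ) : Finset (Z d) :=
  (Finset.range (k + 1)).biUnion fun i => th {z i} r

/-- constant -/
def C1 (d ρ : ℕ) : ℕ := 2 * (4 * ρ + 1) ^ d + 6 * ρ

/-- deterministic conclusion -/
def S_T5a : Prop := ∀ (d : ℕ) [NeZero d] (ρ : ℕ) (β : Z d → ℕ → Prop) (t : ℕ) (x0 : Z d) (l : ℕ),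
  1 ≤ l → (Cand ρ β (ra ρ β t) x0).Nonempty →
  ∃ n : ℕ, 1 ≤ n ∧ ∃ z : ℕ → Z d, z 0 = x0 + sh t ∧
    (∀ i, z (i + 1) - z i ∈ bx d ((3 * ρ + 1) * l)) ∧
    n + t + 1 ≤ C1 d ρ * bn ρ β (Vz z (2 * n / l) ((3 * ρ + 1) * l + 2 * ρ + 1)) (t + 1)

/-- exponential moment of the number of bad sites of `V` (one level) -/
def S_T4a : Prop := ∀ (d : ℕ) (Sg St : Type) [Finite Sg] [MeasurableSpace Sg]
  [MeasurableSingletonClass Sg] (ν : Measure Sg) [IsProbabilityMeasure ν]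
  (G : (Z d → Sg) → (Z d → St) → St) (ρ : ℕ), IsLoc ρ G → ∀ p : ℝ,
  (Measure.infinitePi fun _ : Z d => ν).real {a | Bd G a} ≤ p →
  ∀ (V : Finset (Z d)) (θ : ℝ), 0 ≤ θ →
  ∫ a, Real.exp (θ * (bp (fun u _ => Bd G (fun x => a (u + x))) 0 V).card)
    ∂(Measure.infinitePi fun _ : Z d => ν) ≤
  Real.exp (p * (Real.exp ((2 * ρ + 1) ^ d * θ) - 1) * V.card / (2 * ρ + 1) ^ d)

/-- exponential moment for a set whose windows are disjoint -/
def S_T4a1 : Prop := ∀ (d : ℕ) (Sg St : Type) [Finite Sg] [MeasurableSpace Sg]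
  [MeasurableSingletonClass Sg] (ν : Measure Sg) [IsProbabilityMeasure ν]
  (G : (Z d → Sg) → (Z d → St) → St) (ρ : ℕ), IsLoc ρ G → ∀ p : ℝ,
  (Measure.infinitePi fun _ : Z d => ν).real {a | Bd G a} ≤ p →
  ∀ (V : Finset (Z d)) (θ : ℝ), 0 ≤ θ →
  (∀ u ∈ V, ∀ u' ∈ V, u ≠ u' → u - u' ∉ bx d (2 * ρ)) →
  ∫ a, Real.exp (θ * (bp (fun u _ => Bd G (fun x => a (u + x))) 0 V).card)
    ∂(Measure.infinitePi fun _ : Z d => ν) ≤
  Real.exp (p * (Real.exp θ - 1) * V.card)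

/-- exponential moment of the number of bad sites of the exploration -/
def S_T4b : Prop := ∀ (d : ℕ) (Sg St : Type) [Finite Sg] [MeasurableSpace Sg]
  [MeasurableSingletonClass Sg] (ν : Measure Sg) [IsProbabilityMeasure ν]
  (G : (Z d → Sg) → (Z d → St) → St) (ρ : ℕ), IsLoc ρ G → ∀ p : ℝ,
  (Measure.infinitePi fun _ : Z d => ν).real {a | Bd G a} ≤ p →
  3 * p * (6 * ρ + 1) ^ d ≤ Real.log 2 → ∀ (V : Finset (Z d)) (k : ℕ),
  ∫ B, Real.exp (Real.log 2 / (2 * ρ + 1) ^ d * (bn ρ (bf G B) V k : ℝ))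
    ∂(Measure.infinitePi fun _ : Z d × ℕ => ν) ≤ Real.exp (3 * p * V.card / (2 * ρ + 1) ^ d)

/-- tail of the number of bad sites of the exploration -/
def S_T4 : Prop := ∀ (d : ℕ) (Sg St : Type) [Finite Sg] [MeasurableSpace Sg]
  [MeasurableSingletonClass Sg] (ν : Measure Sg) [IsProbabilityMeasure ν]
  (G : (Z d → Sg) → (Z d → St) → St) (ρ : ℕ), IsLoc ρ G → ∀ p : ℝ,
  (Measure.infinitePi fun _ : Z d => ν).real {a | Bd G a} ≤ p →
  3 * p * (6 * ρ + 1) ^ d ≤ Real.log 2 → ∀ (V : Finset (Z d)) (k : ℕ) (s : ℝ),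
  (Measure.infinitePi fun _ : Z d × ℕ => ν).real {B | s ≤ (bn ρ (bf G B) V k : ℝ)} ≤
    Real.exp (-(Real.log 2 / (2 * ρ + 1) ^ d * s)) *
      Real.exp (3 * p * V.card / (2 * ρ + 1) ^ d)

/-- union bound for a given number of spots -/
def S_T5b : Prop := ∀ (d : ℕ) [NeZero d] (Sg St : Type) [Finite Sg] [MeasurableSpace Sg]
  [MeasurableSingletonClass Sg] (ν : Measure Sg) [IsProbabilityMeasure ν]
  (G : (Z d → Sg) → (Z d → St) → St) (ρ : ℕ), IsLoc ρ G → ∀ p : ℝ, 0 ≤ p →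
  (Measure.infinitePi fun _ : Z d => ν).real {a | Bd G a} ≤ p →
  3 * p * (6 * ρ + 1) ^ d ≤ Real.log 2 → ∀ (l n t : ℕ) (w0 : Z d), 1 ≤ l →
  (Measure.infinitePi fun _ : Z d × ℕ => ν).real {B | ∃ z : ℕ → Z d, z 0 = w0 ∧
    (∀ i, z (i + 1) - z i ∈ bx d ((3 * ρ + 1) * l)) ∧
    n + t + 1 ≤ C1 d ρ * bn ρ (bf G B) (Vz z (2 * n / l) ((3 * ρ + 1) * l + 2 * ρ + 1)) (t + 1)} ≤
  (2 * ((3 * ρ + 1) * l : ℝ) + 1) ^ (d * (2 * n / l)) *
    Real.exp (-(Real.log 2 / ((2 * ρ + 1) ^ d * (C1 d ρ : ℝ)) * (n + t + 1))) *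
    Real.exp (3 * p * ((2 * n / l : ℕ) + 1) * (2 * ((3 * ρ + 1) * l + 2 * ρ + 1 : ℝ) + 1) ^ d /
      (2 * ρ + 1) ^ d)

/-- choice of the constants -/
def S_T5c : Prop := ∀ (d : ℕ) [NeZero d], ∃ K D : ℕ, ∀ (ρ : ℕ), 1 ≤ ρ → ∀ p : ℝ, 0 ≤ p →
  p * K * (ρ : ℝ) ^ D ≤ 1 → 3 * p * (6 * ρ + 1) ^ d ≤ Real.log 2 ∧ ∃ l : ℕ, 1 ≤ l ∧ ∀ n : ℕ,
  1 ≤ n → (2 * ((3 * ρ + 1) * l : ℝ) + 1) ^ (d * (2 * n / l)) *
    Real.exp (3 * p * ((2 * n / l : ℕ) + 1) * (2 * ((3 * ρ + 1) * l + 2 * ρ + 1 : ℝ) + 1) ^ d /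
      (2 * ρ + 1) ^ d) ≤
    Real.exp (Real.log 2 / ((2 * ρ + 1) ^ d * (C1 d ρ : ℝ)) * n / 2)

/-- exponential tail for the algorithm run on iid noise -/
def S_T5d : Prop := ∀ (d : ℕ) [NeZero d], ∃ K D : ℕ, ∀ (Sg St : Type) [Finite Sg]
  [MeasurableSpace Sg] [MeasurableSingletonClass Sg] (ν : Measure Sg) [IsProbabilityMeasure ν]
  (G : (Z d → Sg) → (Z d → St) → St) (ρ : ℕ), 1 ≤ ρ → IsLoc ρ G → ∀ p : ℝ, 0 ≤ p →
  (Measure.infinitePi fun _ : Z d => ν).real {a | Bd G a} ≤ p → p * K * (ρ : ℝ) ^ D ≤ 1 →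
  ∃ C c : ℝ, 0 < c ∧ ∀ t : ℕ, (Measure.infinitePi fun _ : Z d × ℕ => ν).real
    {B | ∃ x ∈ bx d (2 * ρ * (t + 1)), (Cand ρ (bf G B) (ra ρ (bf G B) t) x).Nonempty} ≤
      C * Real.exp (-c * t)

/-- exponential tail of the algorithm -/
def S_T5 : Prop := ∀ (d : ℕ) [NeZero d], ∃ K D : ℕ, ∀ (Sg St : Type) [Finite Sg]
  [MeasurableSpace Sg] [MeasurableSingletonClass Sg] [Nonempty St] (ν : Measure Sg)
  [IsProbabilityMeasure ν] (G : (Z d → Sg) → (Z d → St) → St) (ρ : ℕ), 1 ≤ ρ → IsLoc ρ G →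
  ∀ p : ℝ, 0 ≤ p → (Measure.infinitePi fun _ : Z d => ν).real {a | Bd G a} ≤ p →
  p * K * (ρ : ℝ) ^ D ≤ 1 → Tail d Sg St ν G ρ

/-! ### Probabilistic cellular automata -/

/-- the state at time `i0 + n` of the evolution started from `ξ` at time `i0` -/
def evo {d : ℕ} {S A : Type} {F F' : Finset (Z d)} (f : (F → S) → (F' → A) → S)
    (W : Z d × ℤ → A) (ξ : Z d → S) (i0 : ℤ) : ℕ → Z d → S
  | 0 => ξ
  | n + 1 => fun v => f (fun u => evo f W ξ i0 n (v + u)) (fun u => W (v + u, i0 + n))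

/-- `n` steps of the automaton with the noise `w k` at step `k` -/
def steps {d : ℕ} {S A : Type} {F F' : Finset (Z d)} (f : (F → S) → (F' → A) → S)
    (w : ℕ → Z d → A) (ξ : Z d → S) : ℕ → Z d → S
  | 0 => ξ
  | n + 1 => fun v => f (fun u => steps f w ξ n (v + u)) (fun u => w n (v + u))

/-- the window map of a block of `N + 1` steps -/
def blk {d : ℕ} {S A : Type} {F F' : Finset (Z d)} (f : (F → S) → (F' → A) → S) (N : ℕ)
    (a : Z d → Fin (N + 1) → A) (s : Z d → S) : S :=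
  steps f (fun k v => a v (Fin.ofNat (N + 1) k)) s (N + 1) 0

/-- the block map is local -/
def S_pcaloc : Prop := ∀ (d : ℕ) (S A : Type) (F F' : Finset (Z d))
  (f : (F → S) → (F' → A) → S) (r N : ℕ), F ⊆ bx d r → F' ⊆ bx d r →
  IsLoc (r * (N + 1)) (blk f N)

/-- the block map is rarely not constant -/
def S_pcabad : Prop := ∀ (d : ℕ) (S A : Type) [Finite A] [MeasurableSpace A]
  [MeasurableSingletonClass A] (α : Measure A) [IsProbabilityMeasure α] (F F' : Finset (Z d))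
  (f : (F → S) → (F' → A) → S) (N : ℕ),
  (Measure.infinitePi fun _ : Z d => Measure.pi fun _ : Fin (N + 1) => α).real
    {a | Bd (blk f N) a} ≤
  (Measure.infinitePi fun _ : Z d × ℤ => α).real
    {W | ∀ i : ℕ, i ≤ N + 1 → ∃ ξ ξ' : Z d → S, evo f W ξ (-(i : ℤ)) i 0 ≠ evo f W ξ' (-(i : ℤ)) i 0}

/-- the law of the block evaluation is the law of the automaton -/
def S_pcalaw : Prop := ∀ (d : ℕ) (S A : Type) [Finite A] [MeasurableSpace A]
  [MeasurableSingletonClass A] (α : Measure A) [IsProbabilityMeasure α] (F F' : Finset (Z d))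
  (f : (F → S) → (F' → A) → S) (N k : ℕ) (s0 : Z d → S) (Λ : Finset (Z d)) (η : Z d → S),
  (Measure.infinitePi fun _ : Z d × ℕ => Measure.pi fun _ : Fin (N + 1) => α).real
    {B | ∀ v ∈ Λ, ev (blk f N) B s0 k 0 v = η v} =
  (Measure.infinitePi fun _ : Z d × ℤ => α).real
    {W | ∀ v ∈ Λ, evo f W s0 0 (k * (N + 1)) v = η v}

/-- the final statement -/
def S_final : Prop := ∀ (d : ℕ) [NeZero d] (S A : Type) [Finite S] [Nonempty S]
  [MeasurableSpace S] [MeasurableSingletonClass S] [Finite A] [MeasurableSpace A]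
  [MeasurableSingletonClass A] (α : Measure A) [IsProbabilityMeasure α] (F F' : Finset (Z d))
  (f : (F → S) → (F' → A) → S) (μ : Measure (Z d → S)) [IsProbabilityMeasure μ],
  (∀ (ξ : Z d → S) (Λ : Finset (Z d)) (η : Z d → S),
    Tendsto (fun n : ℕ => (Measure.infinitePi fun _ : Z d × ℤ => α).real
      {W | ∀ v ∈ Λ, evo f W ξ 0 n v = η v}) atTop (𝓝 (μ.real {x | ∀ v ∈ Λ, x v = η v}))) →
  (∃ C c : ℝ, 0 < c ∧ ∀ n : ℕ, (Measure.infinitePi fun _ : Z d × ℤ => α).real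
    {W | ∀ i : ℕ, i ≤ n → ∃ ξ ξ' : Z d → S, evo f W ξ (-(i : ℤ)) i 0 ≠ evo f W ξ' (-(i : ℤ)) i 0}
      ≤ C * Real.exp (-c * n)) →
  ∃ (T : Type) (_ : Finite T) (_ : MeasurableSpace T) (_ : MeasurableSingletonClass T)
    (ν : Measure T) (_ : IsProbabilityMeasure ν) (φ : (Z d → T) → Z d → S),
    Measurable φ ∧ (∀ (x : Z d → T) (w v : Z d), φ (fun u => x (u + w)) v = φ x (v + w)) ∧
    (Measure.infinitePi fun _ : Z d => ν).map φ = μ ∧
    ∃ C c : ℝ, 0 < c ∧ ∀ r : ℕ, (Measure.infinitePi fun _ : Z d => ν).real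
      {x | ∃ x' : Z d → T, (∀ v : Z d, ∑ i, |v i| ≤ (r : ℤ) → x' v = x v) ∧ φ x' 0 ≠ φ x 0}
        ≤ C * Real.exp (-c * r)

end H960FV
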