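import Pool.Agent.H960.FV.Bas

/-!
Project FV (helper960), T2C: the time is bounded by the number of spots and of bad sites.
-/

set_option autoImplicit false

namespace Pool.Agent.H975.FV

open H960FV

theorem sh_zero_apply {d : ℕ} [NeZero d] (t : ℕ) : (sh t : Z d) 0 = (t : ℤ) + 1 := by
  unfold sh
  rw [Pi.single_eq_same]

/-- the record argument -/
theorem record (h : S_T2b0) (d : ℕ) [NeZero d] (ρ : ℕ) (β : Z d → ℕ → Prop) (t : ℕ) (x0 : Z d)
    (C : Finset (Z d × ℕ × ℕ)) (hC : Fam ρ β t x0 C) : ∀ (τ : ℕ) (x : Z d) (j : ℕ),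
    (x, j, τ) ∈ C → ∃ (Q : Finset ℤ) (M : ℤ) (J : ℕ),
      (∀ q ∈ Q, ∃ w ∈ spots C, w 0 = q) ∧ (∀ q ∈ Q, q ≤ M) ∧ x 0 + (τ : ℤ) + 1 ≤ M ∧
      (τ : ℤ) + 1 + (M - (x 0 + (τ : ℤ) + 1)) ≤ (Q.card : ℤ) + 3 * (ρ : ℤ) * (J : ℤ) ∧
      J + 1 ≤ j ∧ ∀ i < j, (bp β i (ex ρ β (th (spots C) (2 * ρ + 1)) i)).Nonempty := by
  have hspot : ∀ (x : Z d) (j τ : ℕ), (x, j, τ) ∈ C → ∃ w ∈ spots C, w 0 = x 0 + (τ : ℤ) + 1 := by
    intro x j τ hx
    refine ⟨x + sh τ, mem_spots.2 ⟨x, j, τ, hx, rfl⟩, ?_⟩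
    rw [Pi.add_apply, sh_zero_apply]
    ring
  intro τ
  induction τ with
  | zero =>
    intro x j hx
    obtain ⟨i, u, h1, h2, h3, -⟩ := h d ρ β t x0 C hC x j 0 hx
    have hi : i = 0 := by omega
    subst hi
    have hj : j = 1 := by omega
    subst hj
    refine ⟨{x 0 + ((0 : ℕ) : ℤ) + 1}, x 0 + ((0 : ℕ) : ℤ) + 1, 0, ?_, ?_, le_rfl, ?_, le_rfl, ?_⟩
    · intro q hq
      rw [Finset.mem_singleton] at hq
      subst hq
      exact hspot x 1 0 hx
    · intro q hq
      rw [Finset.mem_singleton] at hq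
      exact hq.le
    · rw [Finset.card_singleton]
      push_cast
      linarith
    · intro i hi
      have : i = 0 := by omega
      subst this
      exact ⟨u, h3⟩
  | succ τ ih =>
    intro x j hx
    rcases hC.pred x j τ hx with hs | ⟨i, u, x', hj, hx', -, hxu, hxu'⟩
    · -- stay
      obtain ⟨Q, M, J, q1, q2, q3, q4, q5, q6⟩ := ih x j hs
      rcases q3.lt_or_eq with hlt | heq
      · refine ⟨Q, M, J, q1, q2, ?_, ?_, q5, q6⟩
        · push_cast
          omega
        · push_cast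
          linarith
      · refine ⟨insert (x 0 + ((τ + 1 : ℕ) : ℤ) + 1) Q, x 0 + ((τ + 1 : ℕ) : ℤ) + 1, J, ?_, ?_,
          le_rfl, ?_, q5, q6⟩
        · intro q hq
          rw [Finset.mem_insert] at hq
          rcases hq with rfl | hq
          · exact hspot x j (τ + 1) hx
          · exact q1 q hq
        · intro q hq
          rw [Finset.mem_insert] at hq
          rcases hq with rfl | hq
          · exact le_rfl
          · have := q2 q hq
            push_cast
            linarith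
        · have hnot : (x 0 + ((τ + 1 : ℕ) : ℤ) + 1) ∉ Q := by
            intro hmem
            have := q2 _ hmem
            push_cast at this
            linarith
          rw [Finset.card_insert_of_notMem hnot]
          push_cast
          linarith
    · -- jump
      obtain ⟨Q, M, J, q1, q2, q3, q4, q5, q6⟩ := ih x' i hx'
      obtain ⟨i2, u2, h1, h2, h3, -⟩ := h d ρ β t x0 C hC x j (τ + 1) hx
      have hi2 : i2 = i := by omega
      subst hi2
      have hlev : ∀ i' < j, (bp β i' (ex ρ β (th (spots C) (2 * ρ + 1)) i')).Nonempty := by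
        intro i' hi'
        rcases Nat.lt_or_ge i' i2 with hlt | hge
        · exact q6 i' hlt
        · have : i' = i2 := by omega
          subst this
          exact ⟨u2, h3⟩
      have hb := bx_sub hxu hxu'
      rw [sub_sub_sub_cancel_right, mem_bx] at hb
      have hb0 := hb 0
      rw [Pi.sub_apply, abs_le] at hb0
      push_cast at hb0
      obtain ⟨b1, b2⟩ := hb0
      rcases lt_or_ge M (x 0 + ((τ + 1 : ℕ) : ℤ) + 1) with hlt | hge
      · refine ⟨insert (x 0 + ((τ + 1 : ℕ) : ℤ) + 1) Q, x 0 + ((τ + 1 : ℕ) : ℤ) + 1, J + 1, ?_, ?_,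
          le_rfl, ?_, by omega, hlev⟩
        · intro q hq
          rw [Finset.mem_insert] at hq
          rcases hq with rfl | hq
          · exact hspot x j (τ + 1) hx
          · exact q1 q hq
        · intro q hq
          rw [Finset.mem_insert] at hq
          rcases hq with rfl | hq
          · exact le_rfl
          · exact ((q2 q hq).trans_lt hlt).le
        · have hnot : (x 0 + ((τ + 1 : ℕ) : ℤ) + 1) ∉ Q := by
            intro hmem
            exact absurd (q2 _ hmem) (not_le.2 hlt)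
          rw [Finset.card_insert_of_notMem hnot]
          have hρ : (0 : ℤ) ≤ (ρ : ℤ) := Int.natCast_nonneg ρ
          push_cast
          linarith
      · refine ⟨Q, M, J + 1, q1, q2, hge, ?_, by omega, hlev⟩
        push_cast
        linarith

theorem T2c (h : S_T2b0) : S_T2c := by
  intro d _ ρ β t x0 C hC
  obtain ⟨j, hj⟩ := hC.start
  obtain ⟨Q, M, J, q1, q2, q3, q4, q5, q6⟩ := record h d ρ β t x0 C hC t x0 j hj
  obtain ⟨i, u, h1, h2, -, -⟩ := h d ρ β t x0 C hC x0 j t hj
  have hQ : Q.card ≤ (spots C).card := by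
    have hsub : Q ⊆ (spots C).image (fun w : Z d => w 0) := by
      intro q hq
      obtain ⟨w, hw, hwq⟩ := q1 q hq
      exact Finset.mem_image.2 ⟨w, hw, hwq⟩
    exact (Finset.card_le_card hsub).trans Finset.card_image_le
  have hbn : J ≤ bn ρ β (th (spots C) (2 * ρ + 1)) (t + 1) := by
    unfold bn
    have e1 : ∑ i ∈ Finset.range j, (bp β i (ex ρ β (th (spots C) (2 * ρ + 1)) i)).card ≤
        ∑ i ∈ Finset.range (t + 1), (bp β i (ex ρ β (th (spots C) (2 * ρ + 1)) i)).card := by
      refine Finset.sum_le_sum_of_subset fun i hi => ?_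
      rw [Finset.mem_range] at hi ⊢
      omega
    have e2 : ∑ _i ∈ Finset.range j, 1 ≤
        ∑ i ∈ Finset.range j, (bp β i (ex ρ β (th (spots C) (2 * ρ + 1)) i)).card := by
      refine Finset.sum_le_sum fun i hi => ?_
      rw [Finset.mem_range] at hi
      exact Finset.card_pos.2 (q6 i hi)
    rw [Finset.sum_const, Finset.card_range, smul_eq_mul, mul_one] at e2
    omega
  have hZ : (t : ℤ) + 1 ≤ ((spots C).card : ℤ) +
      6 * (ρ : ℤ) * (bn ρ β (th (spots C) (2 * ρ + 1)) (t + 1) : ℤ) := by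
    have hQ' : (Q.card : ℤ) ≤ ((spots C).card : ℤ) := by exact_mod_cast hQ
    have hb' : (J : ℤ) ≤ (bn ρ β (th (spots C) (2 * ρ + 1)) (t + 1) : ℤ) := by exact_mod_cast hbn
    have hρ : (0 : ℤ) ≤ (ρ : ℤ) := Int.natCast_nonneg ρ
    have hJ : (0 : ℤ) ≤ (J : ℤ) := Int.natCast_nonneg J
    have h3 : 3 * (ρ : ℤ) * (J : ℤ) ≤
        6 * (ρ : ℤ) * (bn ρ β (th (spots C) (2 * ρ + 1)) (t + 1) : ℤ) := by
      refine mul_le_mul (by linarith) hb' hJ (by linarith)
    linarith
  exact_mod_cast hZ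

end Pool.Agent.H975.FV
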